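import Pool.Statements.S00040
import Pool.Agent.Work.MP_146c52_ag.Mod

set_option autoImplicit false
open TensorProduct
open Pool Pool.MP_146c52_ag

namespace Pool.Agent.S00040

/-- The negation of the preceding statement: For every one-dimensional Noetherian local domain R and finitely generated R-module M, if M tensor Hom(M,R) has no torsion, then the dual Hom(M,R) is a free R-module. -/
theorem result :
    ¬ (∀ (R : Type) [CommRing R] [IsDomain R] [IsLocalRing R] [IsNoetherianRing R],
      ringKrullDim R = 1 →
      ∀ (M : Type) [AddCommGroup M] [Module R M] [Module.Finite R M],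
        Submodule.torsion R (M ⊗[R] Module.Dual R M) = ⊥ →
        Module.Free R (Module.Dual R M)) := by
  intro h
  exact Pool.Agent.Work.MP_146c52_ag.not_free
    (h Pool.Agent.Work.MP_146c52_ag.R Pool.Agent.Work.MP_146c52_ag.krullDim
      Pool.Agent.Work.MP_146c52_ag.M Pool.Agent.Work.MP_146c52_ag.torsion_eq_bot)

end Pool.Agent.S00040
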