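import Pool.Statements.S00134
import Pool.Agent.Work.MP_3738f3_ag.Final

set_option autoImplicit false
open Pool Pool.MP_3738f3_ag

namespace Pool.Agent.S00134

/-- The negation of the preceding statement: On P^1 over ℂ, with d=an−t, a≥2, 1≤t≤n−1, k≥n: if an α-stable coherent system of type (n,d,k) exists for some α, then such systems exist for arbitrarily large α. -/
theorem result :
    ¬ (∀ (n k : ℕ) (a t d : ℤ), 2 ≤ a → 1 ≤ t → t ≤ (n : ℤ) - 1 → n ≤ k → d = a * (n : ℤ) - t →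
  (∃ α : ℝ, ∃ (e : Fin n → ℤ) (V : Submodule ℂ (Fin n → MvPolynomial (Fin 2) ℂ)),
      ∑ i, e i = d ∧ Module.finrank ℂ V = k ∧
      (∀ s ∈ V, ∀ i, (s i).IsHomogeneous (e i).toNat ∧ (e i < 0 → s i = 0)) ∧
      ∀ (m : ℕ) (b : Fin m → ℤ) (M : Fin n → Fin m → MvPolynomial (Fin 2) ℂ),
        1 ≤ m →
        (∀ i j, (M i j).IsHomogeneous (e i - b j).toNat ∧ (e i - b j < 0 → M i j = 0)) →
        LinearIndependent (MvPolynomial (Fin 2) ℂ) (fun j : Fin m => fun i : Fin n => M i j) →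
        ¬ (m = n ∧ ∑ j, b j = d) →
        ((((∑ j, b j : ℤ)) : ℝ) + α * ((Module.finrank ℂ ↥(V ⊓ Submodule.span ℂ
            {s : Fin n → MvPolynomial (Fin 2) ℂ | ∃ u : Fin m → MvPolynomial (Fin 2) ℂ,
              (∀ j, (u j).IsHomogeneous (b j).toNat ∧ (b j < 0 → u j = 0)) ∧
              s = fun i => ∑ j, M i j * u j}) : ℕ) : ℝ)) / (m : ℝ)
          < ((d : ℝ) + α * (k : ℝ)) / (n : ℝ)) →
  ∀ β : ℝ, ∃ α : ℝ, β ≤ α ∧
    ∃ (e : Fin n → ℤ) (V : Submodule ℂ (Fin n → MvPolynomial (Fin 2) ℂ)),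
      ∑ i, e i = d ∧ Module.finrank ℂ V = k ∧
      (∀ s ∈ V, ∀ i, (s i).IsHomogeneous (e i).toNat ∧ (e i < 0 → s i = 0)) ∧
      ∀ (m : ℕ) (b : Fin m → ℤ) (M : Fin n → Fin m → MvPolynomial (Fin 2) ℂ),
        1 ≤ m →
        (∀ i j, (M i j).IsHomogeneous (e i - b j).toNat ∧ (e i - b j < 0 → M i j = 0)) →
        LinearIndependent (MvPolynomial (Fin 2) ℂ) (fun j : Fin m => fun i : Fin n => M i j) →
        ¬ (m = n ∧ ∑ j, b j = d) →
        ((((∑ j, b j : ℤ)) : ℝ) + α * ((Module.finrank ℂ ↥(V ⊓ Submodule.span ℂ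
            {s : Fin n → MvPolynomial (Fin 2) ℂ | ∃ u : Fin m → MvPolynomial (Fin 2) ℂ,
              (∀ j, (u j).IsHomogeneous (b j).toNat ∧ (b j < 0 → u j = 0)) ∧
              s = fun i => ∑ j, M i j * u j}) : ℕ) : ℝ)) / (m : ℝ)
          < ((d : ℝ) + α * (k : ℝ)) / (n : ℝ)) := by
  intro H
  have h1 := H 11 16 2 8 14 (by norm_num) (by norm_num) (by norm_num) (by norm_num) (by norm_num)
    ⟨3, Work.MP_3738f3_ag.e0, Work.MP_3738f3_ag.V0, by decide,
      Work.MP_3738f3_ag.finrank_V0, Work.MP_3738f3_ag.V0_hom, by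
        intro m b M hm hMh hM hne
        have h2 := Work.MP_3738f3_ag.stable0 m b M hm hMh hM hne
        rw [Work.MP_3738f3_ag.span_eq_map]
        have hm0 : (0 : ℝ) < (m : ℝ) := by exact_mod_cast hm
        rw [div_lt_div_iff₀ hm0 (by norm_num)]
        have h3 : ((11 * (∑ j, b j) + 33 * (Module.finrank ℂ ↥(Work.MP_3738f3_ag.V0 ⊓
            (Work.MP_3738f3_ag.Hsec b).map (Work.MP_3738f3_ag.mulM M)) : ℤ) : ℤ) : ℝ) <
            ((62 * m : ℤ) : ℝ) := by exact_mod_cast h2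
        push_cast at h3
        push_cast
        linarith⟩ 6
  obtain ⟨α, hα, e, V, he, hV, hVh, hst⟩ := h1
  apply Work.MP_3738f3_ag.upper α hα e V he hV hVh
  intro m b M hm hMh hM hne
  have h2 := hst m b M hm hMh hM hne
  rw [Work.MP_3738f3_ag.span_eq_map] at h2
  push_cast at h2 ⊢
  exact h2

end Pool.Agent.S00134
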