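import Pool.Statements.S00530
import Pool.Agent.Work.MP_ebd967_ag.Final

set_option autoImplicit false
open Pool Pool.MP_ebd967_ag

namespace Pool.Agent.S00530

/-- The negation of the preceding statement: There is a polynomial Q such that, for every finite abelian group G, the toric ideal of the claw-tree group-based model is generated by its elements of degree at most Q(∣G∣). -/
theorem result :
    ¬ (∃ Q : Polynomial ℕ, ∀ (G : Type) [AddCommGroup G] [Fintype G],
      ∀ p : MvPolynomial {g : G × G × G // g.1 + g.2.1 + g.2.2 = 0} ℂ,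
        MvPolynomial.aeval
            (fun s : {g : G × G × G // g.1 + g.2.1 + g.2.2 = 0} =>
              (MvPolynomial.X ((0 : Fin 3), s.1.1) * MvPolynomial.X ((1 : Fin 3), s.1.2.1) *
                MvPolynomial.X ((2 : Fin 3), s.1.2.2) : MvPolynomial (Fin 3 × G) ℂ)) p = 0 →
        p ∈ Ideal.span
          {q : MvPolynomial {g : G × G × G // g.1 + g.2.1 + g.2.2 = 0} ℂ |
            MvPolynomial.aeval
                (fun s : {g : G × G × G // g.1 + g.2.1 + g.2.2 = 0} =>
                  (MvPolynomial.X ((0 : Fin 3), s.1.1) * MvPolynomial.X ((1 : Fin 3), s.1.2.1) *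
                    MvPolynomial.X ((2 : Fin 3), s.1.2.2) : MvPolynomial (Fin 3 × G) ℂ)) q = 0 ∧
              q.totalDegree ≤ Q.eval (Fintype.card G)}) := by
  classical
  rintro ⟨Q, hQ⟩
  obtain ⟨G, _, _, T₀, T₁, hE, hne, hdeg, hfib⟩ := Work.MP_ebd967_ag.main Q
  have hf : ∀ s : Work.MP_ebd967_ag.Skt G,
      (MvPolynomial.X ((0 : Fin 3), s.1.1) * MvPolynomial.X ((1 : Fin 3), s.1.2.1) *
        MvPolynomial.X ((2 : Fin 3), s.1.2.2) : MvPolynomial (Fin 3 × G) ℂ) =
      MvPolynomial.monomial (Work.MP_ebd967_ag.ex s) (1 : ℂ) := by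
    intro s
    unfold Work.MP_ebd967_ag.ex
    rw [MvPolynomial.X, MvPolynomial.X, MvPolynomial.X, MvPolynomial.monomial_mul,
      MvPolynomial.monomial_mul, one_mul, one_mul]
  have h1 := hQ G (MvPolynomial.monomial T₀ (1 : ℂ) - MvPolynomial.monomial T₁ (1 : ℂ)) (by
    rw [map_sub, Work.MP_ebd967_ag.aeval_mono _ _ hf, Work.MP_ebd967_ag.aeval_mono _ _ hf, hE,
      sub_self])
  have h2 := Work.MP_ebd967_ag.coeff_eq_zero Work.MP_ebd967_ag.ex _ hf T₀ _ hdeg hfib _ h1
  rw [MvPolynomial.coeff_sub, MvPolynomial.coeff_monomial, MvPolynomial.coeff_monomial,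
    if_pos rfl, if_neg hne, sub_zero] at h2
  exact one_ne_zero h2

end Pool.Agent.S00530
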