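import Pool.Statements.S00728
import Pool.Agent.Work.MP_0ed2d6_al.Main

set_option autoImplicit false
open Pool Pool.MP_0ed2d6_al

namespace Pool.Agent.S00728

/-- The negation of the preceding statement: For every n, every finitely generated torsion-free subgroup G of GL_n(C), and every nontrivial g in G, there is a homomorphism from G to GL_n(Qbar) that does not kill g and has torsion-free image. -/
theorem result :
    ¬ (∀ n : ℕ, ∀ G : Subgroup (Matrix.GeneralLinearGroup (Fin n) ℂ),
      G.FG →
      (∀ x : G, IsOfFinOrder x → x = 1) →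
      ∀ g : G, g ≠ 1 →
        ∃ φ : G →* Matrix.GeneralLinearGroup (Fin n) (AlgebraicClosure ℚ),
          φ g ≠ 1 ∧
          ∀ h : Matrix.GeneralLinearGroup (Fin n) (AlgebraicClosure ℚ),
            h ∈ φ.range → IsOfFinOrder h → h = 1) := by
  intro H
  obtain ⟨G, hfg, htf, g, hg, hφ⟩ := Pool.Agent.Work.MP_0ed2d6_al.main
  obtain ⟨φ, h1, h2⟩ := H 3 G hfg htf g hg
  exact h1 (hφ φ h2)

end Pool.Agent.S00728
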