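import Pool.Statements.S00931
import Pool.Agent.Work.MP_22afe8_al.Ore
import Pool.Agent.Work.MP_22afe8_al.M4
import Pool.Agent.Work.MP_22afe8_al.M5

set_option autoImplicit false
open Pool Pool.MP_22afe8_al

namespace Pool.Agent.S00931

/-- If a group has an abelian normal subgroup with nilpotent quotient and admits a bi-invariant total order, then every bi-invariant partial order on it (a normal strict positive cone) extends to a bi-invariant total order. -/
theorem result :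
    ∀ (G : Type) [Group G],
      (∃ N : Subgroup G, ∃ _hN : N.Normal,
          (∀ a : G, a ∈ N → ∀ b : G, b ∈ N → a * b = b * a) ∧
          Group.IsNilpotent (G ⧸ N)) →
      (∃ P : Set G, (∀ a : G, a ∈ P → ∀ b : G, b ∈ P → a * b ∈ P) ∧
          (∀ a : G, a ∈ P → ∀ g : G, g * a * g⁻¹ ∈ P) ∧
          (1 : G) ∉ P ∧ (∀ g : G, g ≠ 1 → g ∈ P ∨ g⁻¹ ∈ P)) →
      ∀ Q : Set G, (∀ a : G, a ∈ Q → ∀ b : G, b ∈ Q → a * b ∈ Q) →
        (∀ a : G, a ∈ Q → ∀ g : G, g * a * g⁻¹ ∈ Q) →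
        (1 : G) ∉ Q →
        ∃ P : Set G, Q ⊆ P ∧ (∀ a : G, a ∈ P → ∀ b : G, b ∈ P → a * b ∈ P) ∧
          (∀ a : G, a ∈ P → ∀ g : G, g * a * g⁻¹ ∈ P) ∧ (1 : G) ∉ P ∧
          (∀ g : G, g ≠ 1 → g ∈ P ∨ g⁻¹ ∈ P) := by
  refine Pool.Agent.MP_22afe8_al.group_level ?_
  intro Q _ hQ
  apply Pool.Agent.MP_22afe8_al.natOre_of_fg
  intro H hH
  apply Pool.Agent.MP_22afe8_al.natOre_of_realOre
  have hfg : Group.FG H := (Group.fg_iff_subgroup_fg H).mpr hH
  have hHn : Group.IsNilpotent H := Subgroup.isNilpotent H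
  exact Pool.Agent.MP_22afe8_al.realOre_fg H hfg hHn

end Pool.Agent.S00931
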