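import Pool.Statements.S01102
import Pool.Agent.Work.MP_3169d4_al.Main

set_option autoImplicit false
open Pool Pool.MP_3169d4_al

namespace Pool.Agent.S01102

open Pool.Agent.Work.MP3169

/-- The special linear group of degree two over a field with more than three elements and of
characteristic two is simple. -/
theorem simple_SL2 {F : Type} [Field F] [CharP F 2] (hF : 4 ≤ Nat.card F) :
    IsSimpleGroup (Matrix.SpecialLinearGroup (Fin 2) F) := by
  have h1 : Subgroup.center (Matrix.SpecialLinearGroup (Fin 2) F) = ⊥ := by
    rw [Subgroup.eq_bot_iff_forall]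
    intro A hA
    rw [Matrix.SpecialLinearGroup.mem_center_iff] at hA
    obtain ⟨r, hr, hrA⟩ := hA
    have h2 : r = 1 := by
      have h3 : (r - 1) * (r - 1) = 0 := by
        have h4 : (2 : F) = 0 := CharTwo.two_eq_zero
        have h5 : r ^ 2 = 1 := by simpa using hr
        linear_combination h5 + (1 - r) * h4
      exact sub_eq_zero.1 (mul_self_eq_zero.1 h3)
    apply Matrix.SpecialLinearGroup.ext
    intro i j
    rw [← hrA, h2]
    simp
  have h2 := Matrix.ProjectiveSpecialLinearGroup.rank_two_simple hF
  have e : Matrix.ProjectiveSpecialLinearGroup (Fin 2) F ≃* Matrix.SpecialLinearGroup (Fin 2) F :=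
    (QuotientGroup.quotientMulEquivOfEq h1).trans QuotientGroup.quotientBot
  exact MulEquiv.isSimpleGroup e.symm

/-- The negation of the preceding statement: For any finite groups G and H of the same order whose sums of Euler totients of element orders agree, if G is simple then H is simple. -/
theorem result :
    ¬ (∀ (G H : Type) [Group G] [Group H] [Fintype G] [Fintype H],
      Fintype.card G = Fintype.card H →
      (∑ g : G, Nat.totient (orderOf g)) = (∑ h : H, Nat.totient (orderOf h)) →
      IsSimpleGroup G → IsSimpleGroup H) := by
  classical
  intro hall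
  have : Fintype (GaloisField 2 18) := Fintype.ofFinite _
  have hE : Fintype.card (GaloisField 2 18) = 262144 := by
    rw [← Nat.card_eq_fintype_card, GaloisField.card 2 18 (by norm_num)]
    norm_num
  have hcard : Fintype.card (Matrix.SpecialLinearGroup (Fin 2) (FF (GaloisField 2 18))) =
      Fintype.card H4 := by
    rw [card_SL2 hE, ← Nat.card_eq_fintype_card, card_H4]
  have hsum := (sum_SL2 hE).trans sum_H4.symm
  have hsimple : IsSimpleGroup (Matrix.SpecialLinearGroup (Fin 2) (FF (GaloisField 2 18))) := by
    apply simple_SL2
    rw [Nat.card_eq_fintype_card, card_FF hE]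
    norm_num
  exact not_simple_H4 (hall _ _ hcard hsum hsimple)

end Pool.Agent.S01102
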