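import Pool.Statements.S01415
import Pool.Agent.Work.MP_4e9880_al.Assemble
import Pool.Agent.Work.MP_4e9880_al.Model

set_option autoImplicit false
open Pool Pool.MP_4e9880_al

namespace Pool.Agent.S01415

/-- There is a nontrivial group G, given as a quotient of a finitely generated free group by the normal closure of finitely many relators, such that G is isomorphic to G × G. -/
theorem result :
    ∃ (G : Type) (_ : Group G), Nontrivial G ∧
      (∃ (n : ℕ) (f : FreeGroup (Fin n) →* G), Function.Surjective f ∧
        ∃ S : Finset (FreeGroup (Fin n)), Subgroup.normalClosure (S : Set (FreeGroup (Fin n))) = f.ker) ∧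
      Nonempty (G ≃* G × G) := by
  obtain ⟨e⟩ := Pool.Agent.Work.MP_4e9880_al.ring_square
  exact Pool.Agent.Work.MP_4e9880_al.main_of_ring _
    Pool.Agent.Work.MP_4e9880_al.rel_finite Pool.Agent.Work.MP_4e9880_al.RR_nontrivial e

end Pool.Agent.S01415
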