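import Pool.Statements.S01908
import Pool.Agent.Work.MP_73176e_al.GrpPart
import Pool.Agent.Work.MP_73176e_al.RingPart
import Pool.Agent.Work.MP_73176e_al.BasePart
import Pool.Agent.Work.MP_73176e_al.StepPart

set_option autoImplicit false
open Pool Pool.MP_73176e_al

namespace Pool.Agent.S01908

/-- The negation of the preceding statement: Every group whose elements all have 2-power order, in which any two elements generate a finite subgroup, and which has more than 2 elements (possibly infinitely many), has a normal subgroup that is neither trivial nor the whole group. -/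
theorem result :
    ¬ (∀ (G : Type) [Group G], IsPGroup 2 G →
      (∀ a b : G, (Subgroup.closure ({a, b} : Set G) : Set G).Finite) →
      2 < ENat.card G →
      ∃ N : Subgroup G, N.Normal ∧ N ≠ ⊥ ∧ N ≠ ⊤) := by
  have h2 : (2 : RatFunc (ZMod 2)) = 0 := by
    have h : algebraMap (ZMod 2) (RatFunc (ZMod 2)) 2 = 2 := map_ofNat _ 2
    have h0 : (2 : ZMod 2) = 0 := by decide
    rw [← h, h0, map_zero]
  have : Infinite (RatFunc (ZMod 2)) :=
    Infinite.of_injective (algebraMap (Polynomial (ZMod 2)) (RatFunc (ZMod 2)))
      (RatFunc.algebraMap_injective _)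
  exact Pool.Agent.BinFin.grp_part (Pool.Agent.BinFin.ring_part (RatFunc (ZMod 2)) h2 4000
    (Pool.Agent.BinFin.exists_good (Pool.Agent.BinFin.base_part _ _)))

end Pool.Agent.S01908
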