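import Pool.Statements.S02367
import Pool.Agent.Work.MP_95e4ab_al.Final

set_option autoImplicit false
universe u
open Pool Pool.MP_95e4ab_al

namespace Pool.Agent.S02367

/-- For a left and right artinian ring, if the indecomposable pure-injective modules of finite projective dimension form a closed set in the Ziegler spectrum, then projective dimensions of modules of finite projective dimension are uniformly bounded. -/
theorem result :
  ∀ (R : Type u) [Ring R], IsArtinianRing R → IsArtinianRing Rᵐᵒᵖ →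
  ∀ (PD : ModuleCat.{u} R → ℕ → Prop),
    (∀ (M : ModuleCat.{u} R) (n : ℕ), PD M n ↔
      ∃ (P : ℕ → ModuleCat.{u} R) (d : ∀ i : ℕ, P (i+1) →ₗ[R] P i) (ε : P 0 →ₗ[R] M),
        (∀ i, Module.Projective R (P i)) ∧ Function.Surjective ε ∧
        LinearMap.ker ε = LinearMap.range (d 0) ∧
        (∀ i, LinearMap.ker (d i) = LinearMap.range (d (i+1))) ∧
        (∀ i, n ≤ i → Subsingleton (P (i+1)))) →
  ∀ (Zg : ModuleCat.{u} R → Prop),
    (∀ N : ModuleCat.{u} R, Zg N ↔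
      (Nontrivial N ∧ (∀ A B : Submodule R N, IsCompl A B → A = ⊥ ∨ B = ⊥) ∧
       ∀ (I : Type u), ∃ g : (I → N) →ₗ[R] N,
         ∀ x : I →₀ N, g ⇑x = x.sum (fun _ m => m))) →
    (∀ N : ModuleCat.{u} R, Zg N → (¬ ∃ n, PD N n) →
      ∃ (X Y : ModuleCat.{u} R) (f : X →ₗ[R] Y),
        Module.FinitePresentation R X ∧ Module.FinitePresentation R Y ∧
        (∃ g : X →ₗ[R] N, ∀ h : Y →ₗ[R] N, h ∘ₗ f ≠ g) ∧
        ∀ M : ModuleCat.{u} R, Zg M → (∃ n, PD M n) →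
          ∀ g : X →ₗ[R] M, ∃ h : Y →ₗ[R] M, h ∘ₗ f = g) →
    ∃ n : ℕ, ∀ M : ModuleCat.{u} R, (∃ m, PD M m) → PD M n := by
  intro R _ hA hA' PD hPD Zg hZg hclosed
  have hP : ∀ (M : ModuleCat.{u} R) (n : ℕ), PD M n ↔
      Pool.Agent.Work.MP_95e4ab_al.PDle R n M := fun M n =>
    (hPD M n).trans ⟨Pool.Agent.Work.MP_95e4ab_al.PDle_of_Res n M,
      Pool.Agent.Work.MP_95e4ab_al.Res_of_PDle n M⟩
  have hZ : ∀ N : ModuleCat.{u} R, Zg N ↔ Pool.Agent.Work.MP_95e4ab_al.IsZg R N := hZg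
  obtain ⟨n, hn⟩ := Pool.Agent.Work.MP_95e4ab_al.main R hA hA' (by
    intro N hN hpd
    obtain ⟨X, Y, f, hX, hY, hg, hall⟩ := hclosed N ((hZ N).mpr hN) (by
      rintro ⟨n, hn⟩
      exact hpd ⟨n, (hP N n).mp hn⟩)
    refine ⟨X, Y, f, hX, hY, hg, fun M hM hMpd => ?_⟩
    obtain ⟨n, hn⟩ := hMpd
    exact hall M ((hZ M).mpr hM) ⟨n, (hP M n).mpr hn⟩)
  refine ⟨n, fun M hM => ?_⟩
  obtain ⟨m, hm⟩ := hM
  exact (hP M n).mpr (hn M ⟨m, (hP M m).mp hm⟩)

end Pool.Agent.S02367
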