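import Pool.Statements.S02775
import Pool.Agent.Work.MP_b44cb1_al.Full.Final

set_option autoImplicit false
open Pool Pool.MP_b44cb1_al

namespace Pool.Agent.S02775

/-- There is f such that for every r ≥ 1, every finite soluble group satisfying [x,_r y] = [x,_s y] for all x,y and some s > r has a normal series with nilpotent factors of length less than f(r), i.e. Fitting length < f(r). -/
theorem result :
    ∃ f : ℕ → ℕ, ∀ r : ℕ, 1 ≤ r → ∀ (G : Type) [Group G] [Finite G], IsSolvable G →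
      (∃ s : ℕ, r < s ∧ ∀ x y : G,
        (fun z : G => z⁻¹ * y⁻¹ * z * y)^[r] x = (fun z : G => z⁻¹ * y⁻¹ * z * y)^[s] x) →
      ∃ n : ℕ, n < f r ∧ ∃ H : ℕ → Subgroup G, H 0 = ⊥ ∧ H n = ⊤ ∧
        ∀ i : ℕ, i < n → (H i).Normal ∧ H i ≤ H (i + 1) ∧
          ∃ c : ℕ, (fun K : Subgroup G => ⁅K, H (i + 1)⁆)^[c] (H (i + 1)) ≤ H i := by
  exact Pool.Agent.Work.MP_b44cb1_al.frozen_of_stF Pool.Agent.Work.MP_b44cb1_al.stF_exists

end Pool.Agent.S02775
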