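import Pool.Statements.S02935
import Pool.Agent.Work.MP_bfb3ed_al.Phi
import Pool.Agent.Work.MP_bfb3ed_al.ModD
import Pool.Agent.Work.MP_bfb3ed_al.Lift

set_option autoImplicit false
open Pool Pool.MP_bfb3ed_al

namespace Pool.Agent.S02935

/-- The universal cover of SL2(R), modelled as continuous lifts to the real line of projective maps of det-1 matrices under composition, admits an injective group homomorphism into the permutation group of the naturals. -/
theorem result :
    ∀ S : Set (ℝ → ℝ),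
      S = {f : ℝ → ℝ | Continuous f ∧
        ∃ M : Matrix (Fin 2) (Fin 2) ℝ, M.det = 1 ∧
          ∀ x : ℝ,
            (M.mulVec ![Real.cos (Real.pi * x), Real.sin (Real.pi * x)]) 0
                * Real.sin (Real.pi * f x)
              - (M.mulVec ![Real.cos (Real.pi * x), Real.sin (Real.pi * x)]) 1
                * Real.cos (Real.pi * f x) = 0} →
      ∃ φ : (ℝ → ℝ) → Equiv.Perm ℕ,
        (∀ f ∈ S, ∀ g ∈ S, φ (f ∘ g) = φ f * φ g) ∧
        (∀ f ∈ S, ∀ g ∈ S, φ f = φ g → f = g) := by
  obtain ⟨Φ, hΦ⟩ := Pool.Agent.Work.MP_bfb3ed_al.exists_Phi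
  obtain ⟨B, g, c, h1, h2⟩ := Pool.Agent.Work.MP_bfb3ed_al.core_of_Phi Φ hΦ
  exact Pool.Agent.Work.MP_bfb3ed_al.final_of_core B g c h1 h2

end Pool.Agent.S02935
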