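import Pool.Statements.S03052
import Pool.Agent.Work.MP_cacfbf_al.Core

set_option autoImplicit false
open Pool Pool.MP_cacfbf_al

namespace Pool.Agent.S03052

/-- The negation of the preceding statement: For every prime p, field F of char p, Lie p-algebra L and PI non-unital subalgebra R of u(L): if n is the least positive integer such that some power of the standard polynomial S_2n vanishes on R, then n is a power of p. -/
theorem result :
    ¬ (∀ (p : ℕ), p.Prime → ∀ (F : Type) [Field F] [CharP F p] (L : Type) [LieRing L] [LieAlgebra F L]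
    (f : L → L),
    (∀ (a : F) (x : L), f (a • x) = a ^ p • f x) →
    (∀ x y : L, (LieAlgebra.ad F L x ^ p) y = ⁅f x, y⁆) →
    (∀ x y : L,
      UniversalEnvelopingAlgebra.ι F (f (x + y)) - UniversalEnvelopingAlgebra.ι F (f x)
        - UniversalEnvelopingAlgebra.ι F (f y)
      = (UniversalEnvelopingAlgebra.ι F x + UniversalEnvelopingAlgebra.ι F y) ^ p
        - UniversalEnvelopingAlgebra.ι F x ^ p - UniversalEnvelopingAlgebra.ι F y ^ p) →
    ∀ R : NonUnitalSubalgebra F (RingQuot (fun a b : UniversalEnvelopingAlgebra F L =>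
        ∃ x : L, a = UniversalEnvelopingAlgebra.ι F x ^ p ∧ b = UniversalEnvelopingAlgebra.ι F (f x))),
    (∃ m : ℕ, ∃ φ : FreeAlgebra F (Fin m), φ ≠ 0 ∧
      ∀ r : Fin m → RingQuot (fun a b : UniversalEnvelopingAlgebra F L =>
        ∃ x : L, a = UniversalEnvelopingAlgebra.ι F x ^ p ∧ b = UniversalEnvelopingAlgebra.ι F (f x)),
        (∀ i, r i ∈ R) → FreeAlgebra.lift F r φ = 0) →
    ∀ n : ℕ, 1 ≤ n →
      (∃ t : ℕ, 1 ≤ t ∧
        ∀ r : Fin (2 * n) → RingQuot (fun a b : UniversalEnvelopingAlgebra F L =>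
          ∃ x : L, a = UniversalEnvelopingAlgebra.ι F x ^ p ∧ b = UniversalEnvelopingAlgebra.ι F (f x)),
          (∀ i, r i ∈ R) →
          (∑ σ : Equiv.Perm (Fin (2 * n)),
            ((Equiv.Perm.sign σ : ℤˣ) : ℤ) • (List.ofFn fun i => r (σ i)).prod) ^ t = 0) →
      (∀ m : ℕ, 1 ≤ m → m < n →
        ¬ ∃ t : ℕ, 1 ≤ t ∧
          ∀ r : Fin (2 * m) → RingQuot (fun a b : UniversalEnvelopingAlgebra F L =>
            ∃ x : L, a = UniversalEnvelopingAlgebra.ι F x ^ p ∧ b = UniversalEnvelopingAlgebra.ι F (f x)),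
            (∀ i, r i ∈ R) →
            (∑ σ : Equiv.Perm (Fin (2 * m)),
              ((Equiv.Perm.sign σ : ℤˣ) : ℤ) • (List.ofFn fun i => r (σ i)).prod) ^ t = 0) →
      ∃ k : ℕ, n = p ^ k) := by
  exact Pool.Agent.Work.MP_cacfbf_al.main_false

end Pool.Agent.S03052
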