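import Pool.Statements.S03530
import Pool.Agent.Work.MP_f345de_al.Core
import Pool.Agent.Work.MP_f345de_al.Action
import Pool.Agent.Work.MP_f345de_al.RightOrder

set_option autoImplicit false
open Pool Pool.MP_f345de_al

namespace Pool.Agent.S03530

open Pool.Agent.Work.MP_f345de_al
open scoped commutatorElement

/-- A group with the relations of the lift of the modular group over `ℤ[1/6]` in which `t` is
central is trivial. -/
theorem collapse {Q : Type*} [Group Q] (u t m n : Q) (htu : t * u = u * t) (htm : t * m = m * t)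
    (htn : t * n = n * t) (r1 : m * u = u ^ 4 * m) (r2 : n * u = u ^ 9 * n)
    (r3 : m * (t * m) = t) (r4 : n * (t * n) = t) (r5 : t = u * (t * (u * (t⁻¹ * u))))
    (r6 : m * t = u ^ 2 * (t * (m⁻¹ * u ^ 2 * m * (t⁻¹ * u ^ 2))))
    (r7 : n * t = u ^ 3 * (t * (n⁻¹ * u ^ 3 * n * (t⁻¹ * u ^ 3)))) :
    u = 1 ∧ t = 1 ∧ m = 1 ∧ n = 1 := by
  have hm2 : m * m = 1 := by
    rw [htm, ← mul_assoc] at r3
    simpa using r3
  have hn2 : n * n = 1 := by
    rw [htn, ← mul_assoc] at r4
    simpa using r4
  have htu' : Commute t u := htu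
  have ht : t = u ^ 3 := by
    have h1 : u * (t * (u * (t⁻¹ * u))) = u ^ 3 := by
      have : t * (u * (t⁻¹ * u)) = u * u := by
        rw [← mul_assoc, htu, mul_assoc, mul_inv_cancel_left]
      rw [this, pow_succ, pow_two, mul_assoc]
    rw [← h1]
    exact r5
  have hmk : ∀ k : ℕ, m * u ^ k = u ^ (4 * k) * m := by
    intro k
    induction k with
    | zero => simp
    | succ k ih =>
      rw [pow_succ, ← mul_assoc, ih, mul_assoc, r1, ← mul_assoc, ← pow_add, mul_add, mul_one]
  have hnk : ∀ k : ℕ, n * u ^ k = u ^ (9 * k) * n := by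
    intro k
    induction k with
    | zero => simp
    | succ k ih =>
      rw [pow_succ, ← mul_assoc, ih, mul_assoc, r2, ← mul_assoc, ← pow_add, mul_add, mul_one]
  have h15 : u ^ 15 = 1 := by
    have h1 : m * (m * u) = u ^ 16 * (m * m) := by
      rw [r1, ← mul_assoc, hmk 4, mul_assoc]
    rw [← mul_assoc, hm2, one_mul, mul_one] at h1
    have h2 : u ^ 15 * u = 1 * u := by rw [← pow_succ, one_mul]; exact h1.symm
    exact mul_right_cancel h2
  have h80 : u ^ 80 = 1 := by
    have h1 : n * (n * u) = u ^ 81 * (n * n) := by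
      rw [r2, ← mul_assoc, hnk 9, mul_assoc]
    rw [← mul_assoc, hn2, one_mul, mul_one] at h1
    have h2 : u ^ 80 * u = 1 * u := by rw [← pow_succ, one_mul]; exact h1.symm
    exact mul_right_cancel h2
  have h9 : u ^ 9 = 1 := by
    have h1 : u ^ 3 * m = u ^ 12 * m := by
      rw [← hmk 3, ← ht]
      exact htm
    have h2 := mul_right_cancel h1
    have h3 : u ^ 9 * u ^ 3 = 1 * u ^ 3 := by rw [← pow_add, one_mul]; exact h2.symm
    exact mul_right_cancel h3
  have hu : u = 1 := by
    have d1 := orderOf_dvd_of_pow_eq_one h15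
    have d2 := orderOf_dvd_of_pow_eq_one h80
    have d3 := orderOf_dvd_of_pow_eq_one h9
    have d4 : orderOf u ∣ 1 := by
      have := Nat.dvd_gcd (Nat.dvd_gcd d1 d3) d2
      simpa using this
    exact orderOf_eq_one_iff.1 (Nat.dvd_one.1 d4)
  have ht1 : t = 1 := by rw [ht, hu, one_pow]
  subst hu
  subst ht1
  refine ⟨rfl, rfl, ?_, ?_⟩
  · simpa using r6
  · simpa using r7

/-- The negation of the preceding statement: For every free group F and normal subgroup H, if F/H admits a right-invariant linear order, then F/[H,H] admits a linear order invariant under both left and right multiplication. -/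
theorem result :
    ¬ (∀ (α : Type) (H : Subgroup (FreeGroup α)) [H.Normal],
      (∃ o : LinearOrder (FreeGroup α ⧸ H),
          ∀ a b c : FreeGroup α ⧸ H, a ≤ b → a * c ≤ b * c) →
      ∃ o : LinearOrder (FreeGroup α ⧸ ⁅H, H⁆),
        (∀ a b c : FreeGroup α ⧸ ⁅H, H⁆, a ≤ b → c * a ≤ c * b) ∧
        (∀ a b c : FreeGroup α ⧸ ⁅H, H⁆, a ≤ b → a * c ≤ b * c)) := by
  intro hmain
  have h4 : (0 : ℚ) < 2 * 2 := by norm_num
  have h9 : (0 : ℚ) < 3 * 3 := by norm_num
  let U := uX 1
  let T := tX
  let M := mX (2 * 2) h4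
  let N := mX (3 * 3) h9
  let φ : FreeGroup (Fin 4) →* (X ≃o X) := FreeGroup.lift ![U, T, M, N]
  let H : Subgroup (FreeGroup (Fin 4)) := φ.ker
  have φ0 : φ (FreeGroup.of 0) = U := by simp [φ]
  have φ1 : φ (FreeGroup.of 1) = T := by simp [φ]
  have φ2 : φ (FreeGroup.of 2) = M := by simp [φ]
  have φ3 : φ (FreeGroup.of 3) = N := by simp [φ]
  have hgenF : ∀ K : Subgroup (FreeGroup (Fin 4)), (∀ i, FreeGroup.of i ∈ K) → K = ⊤ := by
    intro K hK
    rw [eq_top_iff, ← FreeGroup.closure_range_of, Subgroup.closure_le]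
    rintro _ ⟨i, rfl⟩
    exact hK i
  obtain ⟨o, hl, hr⟩ := hmain (Fin 4) H
    (exists_rightOrder (QuotientGroup.kerLift φ) (QuotientGroup.kerLift_injective φ))
  -- the bi-ordered group E
  let E := FreeGroup (Fin 4) ⧸ ⁅H, H⁆
  haveI : MulLeftMono E := ⟨fun c a b h => hl a b c h⟩
  haveI : MulRightMono E := ⟨fun c a b h => hr a b c h⟩
  let q : FreeGroup (Fin 4) →* E := QuotientGroup.mk' ⁅H, H⁆
  have hq : Function.Surjective q := QuotientGroup.mk'_surjective _
  let A : Subgroup E := H.map q
  haveI : A.Normal := Subgroup.Normal.map inferInstance q hq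
  have hA : ∀ a ∈ A, ∀ b ∈ A, a * b = b * a := by
    rintro _ ⟨a, ha, rfl⟩ _ ⟨b, hb, rfl⟩
    rw [← commutatorElement_eq_one_iff_mul_comm, ← map_commutatorElement]
    exact (QuotientGroup.eq_one_iff _).2 (Subgroup.commutator_mem_commutator ha hb)
  have hqA : ∀ f, φ f = 1 → q f ∈ A := fun f hf => ⟨f, hf, rfl⟩
  -- relations
  have U2 : U ^ 2 = uX 2 := by
    simp only [U, pow_two, uX_mul]; norm_num
  have U3 : U ^ 3 = uX 3 := by
    rw [pow_succ, U2]; simp only [U, uX_mul]; norm_num
  have U4 : U ^ 4 = uX (2 * 2) := by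
    rw [pow_succ, U3]; simp only [U, uX_mul]; norm_num
  have U9 : U ^ 9 = uX (3 * 3) := by
    have : U ^ 9 = U ^ 4 * U ^ 4 * U := by group
    rw [this, U4]; simp only [U, uX_mul]; norm_num
  have hM1 : ∀ h, mX (1 * 1) h = 1 := by
    intro h
    apply ext_mk
    intro n r hr
    rw [mX_mk]
    refine mk_congr rfl ?_
    norm_num
  have R1 : M * U = U ^ 4 * M := by
    rw [U4]; simp only [M, U, mX_mul_uX]; norm_num
  have R2 : N * U = U ^ 9 * N := by
    rw [U9]; simp only [N, U, mX_mul_uX]; norm_num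
  have R3 : M * (T * M) = T := tX_mul_mX _ _
  have R4 : N * (T * N) = T := tX_mul_mX _ _
  have R5 : T = U * (T * (U * (T⁻¹ * U))) := by
    have := key_rel 1 one_pos
    rw [hM1, one_mul, inv_one] at this
    exact this
  have R6 : M * T = U ^ 2 * (T * (M⁻¹ * U ^ 2 * M * (T⁻¹ * U ^ 2))) := by
    have h1 := key_rel 2 two_pos
    have h2 : M⁻¹ * U ^ 2 * M = uX 2⁻¹ := by
      rw [U2, mul_assoc, inv_mul_eq_iff_eq_mul]
      simp only [M]
      rw [mX_mul_uX]
      norm_num
    rw [h2, U2]
    exact h1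
  have R7 : N * T = U ^ 3 * (T * (N⁻¹ * U ^ 3 * N * (T⁻¹ * U ^ 3))) := by
    have h1 := key_rel 3 three_pos
    have h2 : N⁻¹ * U ^ 3 * N = uX 3⁻¹ := by
      rw [U3, mul_assoc, inv_mul_eq_iff_eq_mul]
      simp only [N]
      rw [mX_mul_uX]
      norm_num
    rw [h2, U3]
    exact h1
  have RU : (T * T) * U = U * (T * T) := tX_sq_uX 1
  have RM : (T * T) * M = M * (T * T) := tX_sq_mX _ _
  have RN : (T * T) * N = N * (T * T) := tX_sq_mX _ _
  -- T^2 is central in the image of φ
  have hcenF : ∀ f, (T * T) * φ f = φ f * (T * T) := by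
    have hK : (Subgroup.centralizer {T * T}).comap φ = ⊤ := by
      apply hgenF
      intro i
      rw [Subgroup.mem_comap, Subgroup.mem_centralizer_iff]
      simp only [Set.mem_singleton_iff, forall_eq]
      fin_cases i
      · change T * T * φ (FreeGroup.of 0) = φ (FreeGroup.of 0) * (T * T)
        rw [φ0]; exact RU
      · change T * T * φ (FreeGroup.of 1) = φ (FreeGroup.of 1) * (T * T)
        rw [φ1, mul_assoc]
      · change T * T * φ (FreeGroup.of 2) = φ (FreeGroup.of 2) * (T * T)
        rw [φ2]; exact RM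
      · change T * T * φ (FreeGroup.of 3) = φ (FreeGroup.of 3) * (T * T)
        rw [φ3]; exact RN
    intro f
    have : f ∈ (Subgroup.centralizer {T * T}).comap φ := by rw [hK]; exact Subgroup.mem_top f
    rw [Subgroup.mem_comap, Subgroup.mem_centralizer_iff] at this
    exact this _ rfl
  have hAtop : A = ⊤ := by
    refine core A hA (q (FreeGroup.of 1)) (fun i : Fin 4 => q (FreeGroup.of i)) ?_ ?_ ?_
    · -- generation
      intro Γ _ hΓ
      have hK : Γ.comap q = ⊤ := hgenF _ hΓ
      rw [eq_top_iff]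
      intro y _
      obtain ⟨f, rfl⟩ := hq y
      have : f ∈ Γ.comap q := by rw [hK]; exact Subgroup.mem_top f
      exact this
    · intro y
      obtain ⟨f, rfl⟩ := hq y
      rw [← map_pow, ← map_commutatorElement]
      apply hqA
      rw [map_commutatorElement, commutatorElement_eq_one_iff_mul_comm, map_pow, φ1, pow_two]
      exact hcenF f
    · intro Γ hΓn hAΓ hcomm
      let π : E →* E ⧸ Γ := QuotientGroup.mk' Γ
      let ρ : FreeGroup (Fin 4) →* E ⧸ Γ := π.comp q
      have hρ : ∀ f g, φ f = φ g → ρ f = ρ g := by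
        intro f g hfg
        have h1 : φ (f * g⁻¹) = 1 := by rw [map_mul, map_inv, hfg, mul_inv_cancel]
        have h2 : π (q (f * g⁻¹)) = 1 := (QuotientGroup.eq_one_iff _).2 (hAΓ (hqA _ h1))
        have h3 : ρ (f * g⁻¹) = 1 := h2
        rwa [map_mul, map_inv, mul_inv_eq_one] at h3
      have hT : ∀ f, ρ (FreeGroup.of 1) * ρ f = ρ f * ρ (FreeGroup.of 1) := by
        intro f
        have h1 : π ⁅q (FreeGroup.of 1), q f⁆ = 1 :=
          (QuotientGroup.eq_one_iff _).2 (hcomm (q f))
        rw [map_commutatorElement, commutatorElement_eq_one_iff_mul_comm] at h1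
        exact h1
      have hcol := collapse (ρ (FreeGroup.of 0)) (ρ (FreeGroup.of 1)) (ρ (FreeGroup.of 2))
        (ρ (FreeGroup.of 3)) (hT _) (hT _) (hT _)
        (by simp only [← map_mul, ← map_pow]; apply hρ; simp only [map_mul, map_pow, φ0, φ2]
            exact R1)
        (by simp only [← map_mul, ← map_pow]; apply hρ; simp only [map_mul, map_pow, φ0, φ3]
            exact R2)
        (by simp only [← map_mul, ← map_pow]; apply hρ; simp only [map_mul, map_pow, φ1, φ2]
            exact R3)
        (by simp only [← map_mul, ← map_pow]; apply hρ; simp only [map_mul, map_pow, φ1, φ3]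
            exact R4)
        (by simp only [← map_mul, ← map_pow, ← map_inv]; apply hρ
            simp only [map_mul, map_pow, map_inv, φ0, φ1]
            exact R5)
        (by simp only [← map_mul, ← map_pow, ← map_inv]; apply hρ
            simp only [map_mul, map_pow, map_inv, φ0, φ1, φ2]
            exact R6)
        (by simp only [← map_mul, ← map_pow, ← map_inv]; apply hρ
            simp only [map_mul, map_pow, map_inv, φ0, φ1, φ3]
            exact R7)
      obtain ⟨c0, c1, c2, c3⟩ := hcol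
      have hK : ρ.ker = ⊤ := by
        apply hgenF
        intro i
        rw [MonoidHom.mem_ker]
        fin_cases i
        · exact c0
        · exact c1
        · exact c2
        · exact c3
      rw [eq_top_iff]
      intro y _
      obtain ⟨f, rfl⟩ := hq y
      have h1 : f ∈ ρ.ker := by rw [hK]; exact Subgroup.mem_top f
      exact (QuotientGroup.eq_one_iff _).1 h1
  -- hence T = 1, contradiction
  have h1 : q (FreeGroup.of 1) ∈ A := by rw [hAtop]; exact Subgroup.mem_top _
  obtain ⟨f, hf, hfe⟩ := h1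
  have h2 : f⁻¹ * FreeGroup.of 1 ∈ ⁅H, H⁆ := QuotientGroup.eq.1 hfe
  have h3 : f⁻¹ * FreeGroup.of 1 ∈ H := Subgroup.commutator_le_left H H h2
  have h4 : FreeGroup.of 1 ∈ H := by
    have := H.mul_mem hf h3
    simpa using this
  have h5 : T = 1 := by
    rw [← φ1]
    exact h4
  have h6 : (T * T) (mk 0 (√2) irrational_sqrt_two) = mk 0 (√2) irrational_sqrt_two := by
    rw [h5]; rfl
  have h7 := tX_sq_mk 0 (√2) irrational_sqrt_two
  have h8 : mk (0 + 1) (√2) irrational_sqrt_two = mk 0 (√2) irrational_sqrt_two :=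
    h7.symm.trans h6
  rw [mk_eq_iff] at h8
  simp at h8

end Pool.Agent.S03530
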