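import Pool.Statements.S03727
import Pool.Agent.Work.MP_06ef15_an.Main

set_option autoImplicit false
open Pool Pool.MP_06ef15_an

namespace Pool.Agent.S03727

/-- There is a separable unital simple C*-algebra, exact (nuclearly embeddable), purely infinite (not ℂ, and every nonzero a has x·a·y = 1), with no *-isomorphism onto its opposite algebra. -/
theorem result :
    ∃ (A : Type) (_ : CStarAlgebra A),
      TopologicalSpace.SeparableSpace A ∧ IsSimpleRing A ∧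
      (∃ (H : Type) (_ : NormedAddCommGroup H) (_ : InnerProductSpace ℂ H) (_ : CompleteSpace H)
          (π : A →⋆ₐ[ℂ] (H →L[ℂ] H)), Function.Injective π ∧
        ∀ (F : Finset A) (ε : ℝ), 0 < ε →
          ∃ (n : ℕ)
            (φ : A →ₗ[ℂ] (EuclideanSpace ℂ (Fin n) →L[ℂ] EuclideanSpace ℂ (Fin n)))
            (ψ : (EuclideanSpace ℂ (Fin n) →L[ℂ] EuclideanSpace ℂ (Fin n)) →ₗ[ℂ] (H →L[ℂ] H)),
            (∀ (k : ℕ) (a : Fin k → A)
                (b : Fin k → (EuclideanSpace ℂ (Fin n) →L[ℂ] EuclideanSpace ℂ (Fin n))),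
                0 ≤ ∑ i, ∑ j, star (b i) * φ (star (a i) * a j) * b j) ∧
            (∀ (k : ℕ)
                (a : Fin k → (EuclideanSpace ℂ (Fin n) →L[ℂ] EuclideanSpace ℂ (Fin n)))
                (b : Fin k → (H →L[ℂ] H)),
                0 ≤ ∑ i, ∑ j, star (b i) * ψ (star (a i) * a j) * b j) ∧
            (∀ a : A, ‖φ a‖ ≤ ‖a‖) ∧
            (∀ x : EuclideanSpace ℂ (Fin n) →L[ℂ] EuclideanSpace ℂ (Fin n), ‖ψ x‖ ≤ ‖x‖) ∧
            ∀ a ∈ F, ‖ψ (φ a) - π a‖ < ε) ∧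
      (∃ a : A, ∀ c : ℂ, a ≠ algebraMap ℂ A c) ∧
      (∀ a : A, a ≠ 0 → ∃ x y : A, x * a * y = 1) ∧
      ¬ Nonempty (A ≃⋆ₐ[ℂ] Aᵐᵒᵖ) := by
  exact OE.main

end Pool.Agent.S03727
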