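import Pool.Statements.S04532
import Pool.Agent.Work.NoCP.Final
-- import your own Pool.Agent.* helpers here

set_option autoImplicit false
open Pool Pool.MP_4545a8_an

namespace Pool.Agent.S04532

/-- The negation of the preceding statement: For every compact interval [a,b] and any two commuting continuous maps f, g from [a,b] to itself, some point of [a,b] is periodic for both f and g. -/
theorem result :
    ¬ (∀ a b : ℝ, a ≤ b →
      ∀ f g : C(Set.Icc a b, Set.Icc a b),
        (⇑f ∘ ⇑g = ⇑g ∘ ⇑f) →
          (Function.periodicPts ⇑f ∩ Function.periodicPts ⇑g).Nonempty) := by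
  intro H
  obtain ⟨f, g, hfg, hn⟩ := Pool.Agent.Work.NoCP.no_common_periodic
  exact hn (H 0 1 zero_le_one f g hfg)

end Pool.Agent.S04532
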