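import Pool.Statements.S04599
import Pool.Agent.Work.MP_4bc1d7_an.Main
-- import your own Pool.Agent.* helpers here

set_option autoImplicit false
open Pool Pool.MP_4bc1d7_an

namespace Pool.Agent.S04599

/-- On any analytic set X in an open set of C^n, a bounded complex of Banach spaces with holomorphic boundary maps that is exact at every point of X is also exact as a complex of germs of Banach-valued holomorphic functions on X at every point. -/
theorem result :
  ∀ (n m k : ℕ) (U : Set (Fin n → ℂ)) (h : Fin m → (Fin n → ℂ) → ℂ)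
    (E : ℕ → Type) [∀ i, NormedAddCommGroup (E i)] [∀ i, NormedSpace ℂ (E i)]
    [∀ i, CompleteSpace (E i)]
    (u : ∀ j : ℕ, (Fin n → ℂ) → (E (j + 1) →L[ℂ] E j)),
    IsOpen U → (∀ i, DifferentiableOn ℂ (h i) U) →
    (∀ j, k < j → Subsingleton (E j)) →
    (∀ j, DifferentiableOn ℂ (u j) U) →
    (∀ x ∈ U, (∀ i, h i x = 0) → ∀ j, (u j x).comp (u (j + 1) x) = 0) →
    (∀ x ∈ U, (∀ i, h i x = 0) →
      (∀ v : E 0, ∃ w, u 0 x w = v) ∧
      ∀ j, ∀ v : E (j + 1), u j x v = 0 → ∃ w, u (j + 1) x w = v) →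
    ∀ x ∈ U, (∀ i, h i x = 0) →
      (∀ (V : Set (Fin n → ℂ)) (f : (Fin n → ℂ) → E 0),
        IsOpen V → x ∈ V → DifferentiableOn ℂ f V →
        ∃ W : Set (Fin n → ℂ), IsOpen W ∧ x ∈ W ∧
          ∃ g : (Fin n → ℂ) → E 1, DifferentiableOn ℂ g W ∧
            ∀ y ∈ W, y ∈ U → (∀ i, h i y = 0) → u 0 y (g y) = f y) ∧
      (∀ (j : ℕ) (V : Set (Fin n → ℂ)) (f : (Fin n → ℂ) → E (j + 1)),
        IsOpen V → x ∈ V → DifferentiableOn ℂ f V →
        (∀ y ∈ V, y ∈ U → (∀ i, h i y = 0) → u j y (f y) = 0) →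
        ∃ W : Set (Fin n → ℂ), IsOpen W ∧ x ∈ W ∧
          ∃ g : (Fin n → ℂ) → E (j + 1 + 1), DifferentiableOn ℂ g W ∧
            ∀ y ∈ W, y ∈ U → (∀ i, h i y = 0) → u (j + 1) y (g y) = f y) := by
  intro n m k U h E _ _ _ u hU hh hbd hu hcomp hex x hxU hxh
  -- translate to the origin
  set X : Set (Fin n → ℂ) := {z | x + z ∈ U ∧ ∀ i, h i (x + z) = 0} with hX
  have htr : Differentiable ℂ (fun z : Fin n → ℂ => x + z) := by fun_prop
  have hballs : ∀ V : Set (Fin n → ℂ), IsOpen V → x ∈ V → ∃ R > 0,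
      ∀ z ∈ Metric.ball (0 : Fin n → ℂ) R, x + z ∈ V ∩ U := by
    intro V hV hxV
    obtain ⟨R, hR, hRs⟩ := Metric.isOpen_iff.mp (hV.inter hU) x ⟨hxV, hxU⟩
    refine ⟨R, hR, fun z hz => hRs ?_⟩
    rw [Metric.mem_ball, dist_eq_norm] at hz ⊢
    simpa using hz
  -- transport of a local solution
  have htransport : ∀ {F G : Type} [NormedAddCommGroup F] [NormedSpace ℂ F] [NormedAddCommGroup G]
      [NormedSpace ℂ G] (w : (Fin n → ℂ) → (F →L[ℂ] G)) (f : (Fin n → ℂ) → G) (r : ℝ),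
      0 < r → ∀ g : (Fin n → ℂ) → F, DifferentiableOn ℂ g (Metric.ball 0 r) →
      (∀ z ∈ X, z ∈ Metric.ball (0 : Fin n → ℂ) r → w (x + z) (g z) = f (x + z)) →
      ∃ W : Set (Fin n → ℂ), IsOpen W ∧ x ∈ W ∧ ∃ g : (Fin n → ℂ) → F, DifferentiableOn ℂ g W ∧
        ∀ y ∈ W, y ∈ U → (∀ i, h i y = 0) → w y (g y) = f y := by
    intro F G _ _ _ _ w f r hr g hg hwg
    refine ⟨Metric.ball x r, Metric.isOpen_ball, Metric.mem_ball_self hr, fun y => g (y - x), ?_, ?_⟩
    · refine hg.comp (by fun_prop) ?_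
      intro y hy
      rw [Metric.mem_ball, dist_eq_norm] at hy
      rw [mem_ball_zero_iff]
      exact hy
    · intro y hy hyU hyh
      have hz : y - x ∈ X := by
        refine ⟨?_, ?_⟩
        · simpa using hyU
        · intro i
          simpa using hyh i
      have := hwg (y - x) hz (by
        rw [Metric.mem_ball, dist_eq_norm] at hy
        rw [mem_ball_zero_iff]
        exact hy)
      simpa using this
  have hdiffs : ∀ {F : Type} [NormedAddCommGroup F] [NormedSpace ℂ F] (φ : (Fin n → ℂ) → F)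
      (V : Set (Fin n → ℂ)) (R : ℝ), DifferentiableOn ℂ φ V →
      (∀ z ∈ Metric.ball (0 : Fin n → ℂ) R, x + z ∈ V ∩ U) →
      DifferentiableOn ℂ (fun z => φ (x + z)) (Metric.ball 0 R) := by
    intro F _ _ φ V R hφ hR
    exact hφ.comp htr.differentiableOn (fun z hz => (hR z hz).1)
  have hclosed : ∀ j, IsClosed (Set.range (u j x)) := by
    intro j
    cases j with
    | zero =>
      have : Set.range (u 0 x) = Set.univ := by
        ext v
        simp only [Set.mem_range, Set.mem_univ, iff_true]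
        exact (hex x hxU hxh).1 v
      rw [this]
      exact isClosed_univ
    | succ j =>
      have : Set.range (u (j + 1) x) = (u j x) ⁻¹' {0} := by
        ext v
        constructor
        · rintro ⟨y, rfl⟩
          have := hcomp x hxU hxh j
          exact DFunLike.congr_fun this y
        · intro hv
          exact (hex x hxU hxh).2 j v hv
      rw [this]
      exact IsClosed.preimage (u j x).continuous isClosed_singleton
  refine ⟨?_, ?_⟩
  · intro V f hV hxV hf
    obtain ⟨R, hR, hRs⟩ := hballs V hV hxV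
    obtain ⟨C2, hC2, hb2⟩ := Pool.Agent.Work.MP_4bc1d7_an.closed_range_bound (u 0 x) (hclosed 0)
    have hRU : ∀ z ∈ Metric.ball (0 : Fin n → ℂ) R, x + z ∈ U ∩ U := fun z hz =>
      ⟨(hRs z hz).2, (hRs z hz).2⟩
    obtain ⟨r, hr, g, hg, hwg⟩ := Pool.Agent.Work.MP_4bc1d7_an.local_solve X
      (fun _ => (0 : E 0 →L[ℂ] E 0)) (fun z => u 0 (x + z)) (fun z => f (x + z)) R hR
      (differentiableOn_const _) (hdiffs (u 0) U R (hu 0) hRU) (hdiffs f V R hf hRs)
      (fun _ _ _ _ => rfl) (fun _ _ _ => rfl) 0 C2 le_rfl hC2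
      (fun y => ⟨0, by simp, by simp⟩)
      (fun v _ => by
        obtain ⟨y0, hy0⟩ := (hex x hxU hxh).1 v
        obtain ⟨y, hy1, hy2⟩ := hb2 y0
        refine ⟨y, ?_, ?_⟩
        · simp only [add_zero]
          rw [hy1, hy0]
        · rw [hy0] at hy2
          exact hy2)
    exact htransport (u 0) f r hr g hg hwg
  · intro j V f hV hxV hf huf
    obtain ⟨R, hR, hRs⟩ := hballs V hV hxV
    have hRU : ∀ z ∈ Metric.ball (0 : Fin n → ℂ) R, x + z ∈ U ∩ U := fun z hz =>
      ⟨(hRs z hz).2, (hRs z hz).2⟩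
    obtain ⟨C1, hC1, hb1⟩ := Pool.Agent.Work.MP_4bc1d7_an.closed_range_bound (u j x) (hclosed j)
    obtain ⟨C2, hC2, hb2⟩ := Pool.Agent.Work.MP_4bc1d7_an.closed_range_bound (u (j + 1) x)
      (hclosed (j + 1))
    obtain ⟨r, hr, g, hg, hwg⟩ := Pool.Agent.Work.MP_4bc1d7_an.local_solve X
      (fun z => u j (x + z)) (fun z => u (j + 1) (x + z)) (fun z => f (x + z)) R hR
      (hdiffs (u j) U R (hu j) hRU) (hdiffs (u (j + 1)) U R (hu (j + 1)) hRU)
      (hdiffs f V R hf hRs)
      (fun z hzX _ y => DFunLike.congr_fun (hcomp (x + z) hzX.1 hzX.2 j) y)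
      (fun z hzX hz => huf (x + z) (hRs z hz).1 hzX.1 hzX.2) C1 C2 hC1 hC2
      (fun y => by simpa only [add_zero] using hb1 y)
      (fun v hv => by
        simp only [add_zero] at hv ⊢
        obtain ⟨y0, hy0⟩ := (hex x hxU hxh).2 j v hv
        obtain ⟨y, hy1, hy2⟩ := hb2 y0
        refine ⟨y, ?_, ?_⟩
        · rw [hy1, hy0]
        · rw [hy0] at hy2
          exact hy2)
    exact htransport (u (j + 1)) f r hr g hg hwg

end Pool.Agent.S04599
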