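import Pool.Statements.S04955

set_option autoImplicit false
open Pool Pool.MP_6c2b6a_an

namespace Pool.Agent.S04955

/-- Separation of a point from a closed subspace. -/
theorem sep_aux {E : Type*} [NormedAddCommGroup E] [NormedSpace ℝ E] (N : Submodule ℝ E)
    (hN : IsClosed (N : Set E)) (x : E) :
    ∃ ψ : E →L[ℝ] ℝ, ‖ψ‖ ≤ 1 ∧ (∀ y ∈ N, ψ y = 0) ∧ ψ x = ‖N.mkQ x‖ := by
  have : IsClosed (N : Set E) := hN
  obtain ⟨g, hg1, hg2⟩ := exists_dual_vector'' ℝ (N.mkQ x)
  refine ⟨g.comp N.mkQL, ?_, ?_, ?_⟩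
  · refine ContinuousLinearMap.opNorm_le_bound _ zero_le_one ?_
    intro y
    calc ‖(g.comp N.mkQL) y‖ = ‖g (N.mkQ y)‖ := by simp
      _ ≤ ‖g‖ * ‖N.mkQ y‖ := g.le_opNorm _
      _ ≤ 1 * ‖y‖ := by
        apply mul_le_mul hg1 _ (norm_nonneg _) zero_le_one
        exact Submodule.Quotient.norm_mk_le N y
  · intro y hy
    have : N.mkQ y = 0 := by simpa using hy
    simp only [ContinuousLinearMap.comp_apply, Submodule.mkQL_apply, this, map_zero]
  · simp only [ContinuousLinearMap.comp_apply, Submodule.mkQL_apply]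
    simpa using hg2

/-- Helly's theorem on finitely many functionals. -/
theorem helly_aux {E : Type*} [NormedAddCommGroup E] [NormedSpace ℝ E] {ι : Type*} [Finite ι]
    (φ : ι → (E →L[ℝ] ℝ)) (Φ : (E →L[ℝ] ℝ) →L[ℝ] ℝ) (C : ℝ) (hC : ‖Φ‖ < C) :
    ∃ x : E, ‖x‖ ≤ C ∧ ∀ i, φ i x = Φ (φ i) := by
  classical
  have := Fintype.ofFinite ι
  -- Step A
  obtain ⟨x₀, hx₀⟩ : ∃ x₀ : E, ∀ i, φ i x₀ = Φ (φ i) := by
    let T : E →ₗ[ℝ] (ι → ℝ) := LinearMap.pi (fun i => (φ i : E →ₗ[ℝ] ℝ))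
    by_contra hcon
    have hnot : (fun i => Φ (φ i)) ∉ LinearMap.range T := by
      rintro ⟨x₀, hx₀⟩
      exact hcon ⟨x₀, fun i => congrFun hx₀ i⟩
    obtain ⟨l, hl1, hl2⟩ := Submodule.exists_le_ker_of_notMem hnot
    have hexp : ∀ a : ι → ℝ, l a = ∑ i, a i * l (Pi.single i 1) := by
      intro a
      conv_lhs => rw [pi_eq_sum_univ' a]
      simp [map_sum]
    have hzero : (∑ i, l (Pi.single i 1) • φ i) = 0 := by
      ext y
      have h1 : T y ∈ LinearMap.ker l := hl2 ⟨y, rfl⟩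
      have h2 : l (T y) = 0 := h1
      rw [hexp] at h2
      simpa [T, mul_comm, sum_apply] using h2
    apply hl1
    rw [hexp]
    have := congrArg Φ hzero
    simpa [map_sum, mul_comm] using this
  -- Step B
  let N : Submodule ℝ E := ⨅ i, LinearMap.ker (φ i : E →ₗ[ℝ] ℝ)
  have hN : IsClosed (N : Set E) := by
    rw [Submodule.coe_iInf]
    exact isClosed_iInter fun i => (φ i).isClosed_ker
  obtain ⟨ψ, hψ1, hψ2, hψ3⟩ := sep_aux N hN x₀
  have hspan : (ψ : E →ₗ[ℝ] ℝ) ∈ Submodule.span ℝ (Set.range (fun i => (φ i : E →ₗ[ℝ] ℝ))) := by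
    apply mem_span_of_iInf_ker_le_ker
    intro y hy
    exact hψ2 y hy
  obtain ⟨c, hc⟩ := (Submodule.mem_span_range_iff_exists_fun ℝ).1 hspan
  have hψ : ψ = ∑ i, c i • φ i := by
    ext y
    have := congrArg (fun L : E →ₗ[ℝ] ℝ => L y) hc
    simpa [sum_apply] using this.symm
  have hval : ψ x₀ = Φ ψ := by
    rw [hψ]
    simp [map_sum, hx₀]
  have hle : ‖N.mkQ x₀‖ ≤ ‖Φ‖ := by
    rw [← hψ3, hval]
    calc Φ ψ ≤ ‖Φ ψ‖ := le_abs_self _
      _ ≤ ‖Φ‖ * ‖ψ‖ := Φ.le_opNorm _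
      _ ≤ ‖Φ‖ * 1 := by gcongr
      _ = ‖Φ‖ := mul_one _
  have : IsClosed (N : Set E) := hN
  obtain ⟨m, hm1, hm2⟩ := Submodule.Quotient.norm_mk_lt (N.mkQ x₀) (ε := C - ‖Φ‖) (by linarith)
  refine ⟨m, by linarith, ?_⟩
  intro i
  rw [← hx₀ i]
  have : m - x₀ ∈ N := by
    exact (Submodule.Quotient.eq N).1 hm1
  have h3 : (φ i) (m - x₀) = 0 := by
    have := (Submodule.mem_iInf _).1 this i
    exact this
  rw [map_sub] at h3
  linarith


/-- Functional equal to one at a point outside a closed subspace, vanishing on it. -/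
theorem sep_one {E : Type*} [NormedAddCommGroup E] [NormedSpace ℝ E] (N : Submodule ℝ E)
    (hN : IsClosed (N : Set E)) (x : E) (hx : x ∉ N) :
    ∃ ψ : E →L[ℝ] ℝ, (∀ y ∈ N, ψ y = 0) ∧ ψ x = 1 := by
  obtain ⟨ψ, _, h1, h2⟩ := sep_aux N hN x
  have hne : ψ x ≠ 0 := by
    rw [h2]
    intro h
    apply hx
    have hN' : IsClosed (N : Set E) := hN
    have h3 : (N.mkQ x) = 0 := norm_eq_zero.1 h
    exact (Submodule.Quotient.mk_eq_zero N).1 h3
  refine ⟨(ψ x)⁻¹ • ψ, ?_, ?_⟩
  · intro y hy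
    simp [h1 y hy]
  · simp [inv_mul_cancel₀ hne]

/-- Norm bounded functionals separating an element of the dual of `E` from an isometric copy
of a complete space and vanishing at finitely many of its points. -/
theorem stepA {X E : Type*} [NormedAddCommGroup X] [NormedSpace ℝ X] [CompleteSpace X]
    [NormedAddCommGroup E] [NormedSpace ℝ E] (J : X →ₗᵢ[ℝ] (E →L[ℝ] ℝ)) (e : E →L[ℝ] ℝ)
    (he : ∀ x : X, J x ≠ e) :
    ∃ L : ℝ, 0 < L ∧ ∀ s : Finset X, ∃ f : E, e f = 1 ∧ ‖f‖ ≤ L ∧ ∀ x ∈ s, J x f = 0 := by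
  have hcl : IsClosed (Set.range J) := J.isometry.isUniformInducing.isComplete_range.isClosed
  obtain ⟨F, h1, h2⟩ := sep_one (LinearMap.range J.toLinearMap) hcl e (by
      rintro ⟨x, hx⟩
      exact he x hx)
  refine ⟨‖F‖ + 1, by positivity, fun s => ?_⟩
  obtain ⟨f', hf'1, hf'2⟩ := helly_aux (ι := Option s)
      (fun o => Option.elim o e (fun q => J q.1)) F (‖F‖ + 1) (by linarith)
  refine ⟨f', ?_, hf'1, ?_⟩
  · have := hf'2 none
    rw [Option.elim_none, h2] at this
    exact this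
  · intro x hx
    have := hf'2 (some ⟨x, hx⟩)
    rw [Option.elim_some] at this
    rw [this]
    exact h1 _ ⟨x, rfl⟩

/-- A sequence of James type in a nonreflexive Banach space. -/
theorem james_aux {X : Type*} [NormedAddCommGroup X] [NormedSpace ℝ X] [CompleteSpace X]
    (e : (X →L[ℝ] ℝ) →L[ℝ] ℝ) (he : ∀ x : X, ∃ f : X →L[ℝ] ℝ, e f ≠ f x) :
    ∃ (x : ℕ → X) (f : ℕ → X →L[ℝ] ℝ) (K L : ℝ), 0 < K ∧ 0 < L ∧ x 0 = 0 ∧ (∀ n, ‖x n‖ ≤ K) ∧
      (∀ n, ‖f n‖ ≤ L) ∧ ∀ m n, f m (x n) = if m < n then 1 else 0 := by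
  classical
  obtain ⟨L, hL, hA⟩ := stepA (NormedSpace.inclusionInDoubleDualLi (E := X) ℝ) e (by
    intro x hx
    obtain ⟨f, hf⟩ := he x
    apply hf
    rw [← hx]
    rfl)
  have hK : 0 < ‖e‖ + 1 := by positivity
  have hstep : ∀ s : Finset ((X →L[ℝ] ℝ) × X), (∀ q ∈ s, e q.1 = 1 ∧ ‖q.1‖ ≤ L ∧
      ‖q.2‖ ≤ ‖e‖ + 1 ∧ q.1 q.2 = 1) → ∃ q' : (X →L[ℝ] ℝ) × X, (e q'.1 = 1 ∧ ‖q'.1‖ ≤ L ∧
      ‖q'.2‖ ≤ ‖e‖ + 1 ∧ q'.1 q'.2 = 1) ∧ ∀ q ∈ s, q'.1 q.2 = 0 ∧ q.1 q'.2 = 1 := by
    intro s hs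
    obtain ⟨f', h1, hf'1, hf'2⟩ := hA (s.image Prod.snd)
    obtain ⟨x', hx'1, hx'2⟩ := helly_aux (ι := Option s)
      (fun o => Option.elim o f' (fun q => q.1.1)) e (‖e‖ + 1) (by linarith)
    have h2 : f' x' = 1 := by
      have := hx'2 none
      rw [Option.elim_none, h1] at this
      exact this
    refine ⟨(f', x'), ⟨h1, hf'1, hx'1, h2⟩, ?_⟩
    intro q hq
    constructor
    · exact hf'2 q.2 (Finset.mem_image_of_mem _ hq)
    · have := hx'2 (some ⟨q, hq⟩)
      rw [Option.elim_some, (hs q hq).1] at this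
      exact this
  obtain ⟨p, hp, hpr⟩ := exists_seq_of_forall_finset_exists
    (fun q : (X →L[ℝ] ℝ) × X => e q.1 = 1 ∧ ‖q.1‖ ≤ L ∧ ‖q.2‖ ≤ ‖e‖ + 1 ∧ q.1 q.2 = 1)
    (fun q q' => q'.1 q.2 = 0 ∧ q.1 q'.2 = 1) hstep
  refine ⟨fun n => Nat.casesOn n 0 (fun k => (p k).2), fun n => (p n).1, ‖e‖ + 1, L,
    hK, hL, rfl, ?_, ?_, ?_⟩
  · intro n
    cases n with
    | zero =>
      change ‖(0 : X)‖ ≤ ‖e‖ + 1
      rw [norm_zero]
      exact hK.le
    | succ k => exact (hp k).2.2.1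
  · intro n
    exact (hp n).2.1
  · intro m n
    cases n with
    | zero => simp
    | succ k =>
      simp only
      rcases lt_trichotomy m k with h | h | h
      · rw [if_pos (by omega)]
        exact (hpr m k h).2
      · subst h
        rw [if_pos (by omega)]
        exact (hp m).2.2.2
      · rw [if_neg (by omega)]
        exact (hpr k m h).1

/-- The functionals of a James system tend to zero on the closed span of its vectors. -/
theorem tendsto_aux {X : Type*} [NormedAddCommGroup X] [NormedSpace ℝ X]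
    (x : ℕ → X) (f : ℕ → X →L[ℝ] ℝ) (L : ℝ) (hL : 0 < L) (hfL : ∀ n, ‖f n‖ ≤ L)
    (hfx : ∀ m n, f m (x n) = if m < n then 1 else 0) (u : X)
    (hu : u ∈ closure (Submodule.span ℝ (Set.range x) : Set X)) (ε : ℝ) (hε : 0 < ε) :
    ∃ k, |f (k + 1) u| < ε := by
  obtain ⟨w, hw, hwu⟩ := Metric.mem_closure_iff.1 hu (ε / L) (by positivity)
  have hev : ∃ N, ∀ k ≥ N, f k w = 0 := by
    refine Submodule.span_induction (p := fun w _ => ∃ N, ∀ k ≥ N, f k w = 0) ?_ ?_ ?_ ?_ hw
    · rintro _ ⟨n, rfl⟩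
      refine ⟨n, fun k hk => ?_⟩
      rw [hfx, if_neg (by omega)]
    · exact ⟨0, fun k _ => map_zero _⟩
    · rintro a b _ _ ⟨N, hN⟩ ⟨M, hM⟩
      refine ⟨max N M, fun k hk => ?_⟩
      rw [map_add, hN k (le_trans (le_max_left _ _) hk), hM k (le_trans (le_max_right _ _) hk),
        add_zero]
    · rintro t a _ ⟨N, hN⟩
      refine ⟨N, fun k hk => ?_⟩
      rw [map_smul, hN k hk, smul_zero]
  obtain ⟨N, hN⟩ := hev
  refine ⟨N, ?_⟩
  have h1 : f (N + 1) u = f (N + 1) (u - w) := by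
    rw [map_sub, hN (N + 1) (Nat.le_succ N), sub_zero]
  rw [h1]
  calc |f (N + 1) (u - w)| = ‖f (N + 1) (u - w)‖ := rfl
    _ ≤ ‖f (N + 1)‖ * ‖u - w‖ := (f (N + 1)).le_opNorm _
    _ ≤ L * ‖u - w‖ := by gcongr; exact hfL (N + 1)
    _ < L * (ε / L) := by
      rw [dist_eq_norm] at hwu
      gcongr
    _ = ε := by field_simp

theorem main_aux {X : Type*} [NormedAddCommGroup X] [NormedSpace ℝ X]
    (x : ℕ → X) (f : ℕ → X →L[ℝ] ℝ) (K L : ℝ) (hK : 0 < K) (hL : 0 < L) (hx0 : x 0 = 0)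
    (hxK : ∀ n, ‖x n‖ ≤ K) (hfL : ∀ n, ‖f n‖ ≤ L)
    (hfx : ∀ m n, f m (x n) = if m < n then 1 else 0) :
      ∃ A : Set (X × (X →L[ℝ] ℝ)),
        (∀ p ∈ A, ∀ q ∈ A, 0 ≤ (p.2 - q.2) (p.1 - q.1)) ∧
        (∀ z : X × (X →L[ℝ] ℝ), (∀ p ∈ A, 0 ≤ (z.2 - p.2) (z.1 - p.1)) → z ∈ A) ∧
        ∃ (x : X) (xs : X →L[ℝ] ℝ) (α β : ℝ), 0 < α ∧ 0 < β ∧
          (∃ c : ℝ, -(α * β) < c ∧ ∀ p ∈ A, c ≤ (p.2 - xs) (p.1 - x)) ∧
          ∀ p ∈ A, ¬ (‖p.1 - x‖ < α ∧ ‖p.2 - xs‖ < β) := by
  -- closed span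
  set Y : Submodule ℝ X := (Submodule.span ℝ (Set.range x)).topologicalClosure with hY
  have hYcl : IsClosed (Y : Set X) := Submodule.isClosed_topologicalClosure _
  have hxY : ∀ n, x n ∈ Y := fun n =>
    Submodule.le_topologicalClosure _ (Submodule.subset_span ⟨n, rfl⟩)
  let Z : Set (X × (X →L[ℝ] ℝ)) := {z | z.1 ∈ Y ∧ ∀ k, f k z.1 = z.2 (x (k + 1)) + z.2 (x k)}
  let S : Set (Set (X × (X →L[ℝ] ℝ))) := {M | (0, 0) ∈ M ∧ M ⊆ Z ∧
    ∀ p ∈ M, ∀ q ∈ M, 0 ≤ (p.2 - q.2) (p.1 - q.1)}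
  have hS0 : {((0 : X), (0 : X →L[ℝ] ℝ))} ∈ S := by
    refine ⟨rfl, ?_, ?_⟩
    · intro p hp
      rw [Set.mem_singleton_iff] at hp
      subst hp
      exact ⟨Y.zero_mem, fun k => by simp⟩
    · intro p hp q hq
      rw [Set.mem_singleton_iff] at hp hq
      subst hp
      subst hq
      simp
  obtain ⟨M, _, hM⟩ := zorn_subset_nonempty S (by
    intro c hc hchain hne
    refine ⟨⋃₀ c, ⟨?_, ?_, ?_⟩, fun s hs => Set.subset_sUnion_of_mem hs⟩
    · obtain ⟨s, hs⟩ := hne
      exact ⟨s, hs, (hc hs).1⟩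
    · rintro p ⟨s, hs, hp⟩
      exact (hc hs).2.1 hp
    · rintro p ⟨s, hs, hp⟩ q ⟨t, ht, hq⟩
      rcases hchain.total hs ht with h | h
      · exact (hc ht).2.2 p (h hp) q hq
      · exact (hc hs).2.2 p hp q (h hq)) _ hS0
  have hM0 : ((0 : X), (0 : X →L[ℝ] ℝ)) ∈ M := hM.prop.1
  have hMZ : ∀ p ∈ M, p ∈ Z := fun p hp => hM.prop.2.1 hp
  have hMmon := hM.prop.2.2
  have hq0 : ∀ p ∈ M, 0 ≤ p.2 p.1 := by
    intro p hp
    have := hMmon p hp _ hM0
    simpa using this
  -- maximality inside Z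
  have hmax : ∀ z ∈ Z, (∀ p ∈ M, 0 ≤ (z.2 - p.2) (z.1 - p.1)) → z ∈ M := by
    intro z hz hzM
    have hins : insert z M ∈ S := by
      refine ⟨Set.mem_insert_of_mem _ hM0, ?_, ?_⟩
      · intro p hp
        rcases Set.mem_insert_iff.1 hp with h | h
        · rw [h]; exact hz
        · exact hMZ p h
      · intro p hp q hq
        rcases Set.mem_insert_iff.1 hp with h | h <;> rcases Set.mem_insert_iff.1 hq with h' | h'
        · rw [h, h']; simp
        · rw [h]; exact hzM q h'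
        · rw [h']
          have := hzM p h
          simp only [sub_apply, map_sub] at this ⊢
          linarith
        · exact hMmon p h q h'
    exact hM.le_of_ge hins (Set.subset_insert _ _) (Set.mem_insert _ _)
  refine ⟨M, hMmon, ?_, -x 1, f 0, K + 1, 1 / K, by linarith, by positivity, ⟨-1, ?_, ?_⟩, ?_⟩
  · intro z hz
    obtain ⟨v, h⟩ := z
    simp only at hz
    -- v lies in Y
    have hvY : v ∈ Y := by
      by_contra hv
      obtain ⟨ψ, hψ1, hψ2⟩ := sep_one Y hYcl v hv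
      have hmem : ∀ t : ℝ, ((0 : X), t • ψ) ∈ M := by
        intro t
        apply hmax
        · refine ⟨Y.zero_mem, fun k => ?_⟩
          simp [hψ1 _ (hxY _)]
        · intro p hp
          have h1 := hq0 p hp
          have h2 := hψ1 p.1 (hMZ p hp).1
          simp only [sub_apply, smul_apply, zero_sub, map_neg, h2, smul_eq_mul]
          linarith
      have h3 := hz _ (hmem (h v + 1))
      simp only [sub_apply, smul_apply, sub_zero, hψ2, smul_eq_mul] at h3
      linarith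
    -- orthogonality relations
    have horth : ∀ k, f k v - h (x (k + 1)) - h (x k) =
        f (k + 1) v - h (x (k + 2)) - h (x (k + 1)) := by
      intro k
      have hmem : ∀ t : ℝ, (t • (x (k + 2) - x k), t • (f k - f (k + 1))) ∈ M := by
        intro t
        apply hmax
        · refine ⟨Y.smul_mem _ (Y.sub_mem (hxY _) (hxY _)), fun j => ?_⟩
          simp only [map_smul, map_sub, smul_apply, sub_apply, hfx, smul_eq_mul]
          rcases lt_trichotomy j k with hjk | hjk | hjk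
          · rw [if_pos (by omega), if_pos (by omega), if_neg (by omega), if_neg (by omega),
              if_neg (by omega), if_neg (by omega)]
            ring
          · rw [if_pos (by omega), if_neg (by omega), if_pos (by omega), if_neg (by omega),
              if_neg (by omega), if_neg (by omega)]
            ring
          · rcases Nat.lt_or_ge (k + 1) j with hj | hj
            · rw [if_neg (by omega), if_neg (by omega), if_pos (by omega), if_pos (by omega),
                if_pos (by omega), if_pos (by omega)]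
              ring
            · rw [if_pos (by omega), if_neg (by omega), if_pos (by omega), if_pos (by omega),
                if_pos (by omega), if_neg (by omega)]
              ring
        · intro p hp
          have h1 := hq0 p hp
          have h2 := (hMZ p hp).2 k
          have h3 := (hMZ p hp).2 (k + 1)
          have e1 := hfx k (k + 2)
          have e2 := hfx k k
          have e3 := hfx (k + 1) (k + 2)
          have e4 := hfx (k + 1) k
          rw [if_pos (by omega)] at e1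
          rw [if_neg (by omega)] at e2
          rw [if_pos (by omega)] at e3
          rw [if_neg (by omega)] at e4
          simp only [sub_apply, smul_apply, map_sub, map_smul, smul_eq_mul, e1, e2, e3, e4, h2,
            h3]
          have e5 : x (k + 1 + 1) = x (k + 2) := rfl
          rw [e5]
          nlinarith
      have hlin : ∀ t : ℝ, 0 ≤ h v - t * ((f k v - f (k + 1) v) + (h (x (k + 2)) - h (x k))) := by
        intro t
        have h1 := hz _ (hmem t)
        have e1 := hfx k (k + 2)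
        have e2 := hfx k k
        have e3 := hfx (k + 1) (k + 2)
        have e4 := hfx (k + 1) k
        rw [if_pos (by omega)] at e1
        rw [if_neg (by omega)] at e2
        rw [if_pos (by omega)] at e3
        rw [if_neg (by omega)] at e4
        simp only [sub_apply, smul_apply, map_sub, map_smul, smul_eq_mul, e1, e2, e3, e4] at h1
        nlinarith
      have hzero : (f k v - f (k + 1) v) + (h (x (k + 2)) - h (x k)) = 0 := by
        by_contra hne
        have h1 := hlin ((h v + 1) / ((f k v - f (k + 1) v) + (h (x (k + 2)) - h (x k))))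
        rw [div_mul_cancel₀ _ hne] at h1
        linarith
      linarith
    set c : ℝ := f 0 v - h (x 1) with hc
    have hconst : ∀ k, f k v = c + h (x (k + 1)) + h (x k) := by
      intro k
      induction k with
      | zero => rw [hx0, map_zero, zero_add]; linarith
      | succ k ih =>
        have h1 := horth k
        have e5 : x (k + 1 + 1) = x (k + 2) := rfl
        rw [e5]
        linarith
    -- the corrected point
    have hz1Z : (v - (c / 2) • x 1, h + (c / 2) • f 0) ∈ Z := by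
      refine ⟨Y.sub_mem hvY (Y.smul_mem _ (hxY 1)), fun k => ?_⟩
      have h1 := hconst k
      simp only [map_sub, map_smul, add_apply, smul_apply, smul_eq_mul, hfx, h1]
      rcases Nat.eq_zero_or_pos k with hk | hk
      · subst hk
        simp
        ring
      · rw [if_neg (by omega), if_pos (by omega), if_pos (by omega)]
        ring
    have hf01 : f 0 (x 1) = 1 := by rw [hfx, if_pos (by omega)]
    have hz1 : (v - (c / 2) • x 1, h + (c / 2) • f 0) ∈ M := by
      apply hmax _ hz1Z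
      intro p hp
      have h1 := hz p hp
      have h2 := (hMZ p hp).2 0
      rw [hx0, map_zero, add_zero, zero_add] at h2
      simp only [sub_apply, add_apply, smul_apply, map_sub, map_smul, smul_eq_mul, hf01, h2]
        at h1 ⊢
      have h3 : f 0 v = c + h (x 1) := by rw [hc]; ring
      rw [h3]
      nlinarith [sq_nonneg c]
    have hc0 : c = 0 := by
      have h1 := hz _ hz1
      simp only [sub_apply, add_apply, smul_apply, map_sub, map_smul, smul_eq_mul, hf01]
        at h1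
      have h4 : c ^ 2 ≤ 0 := by nlinarith
      exact pow_eq_zero_iff (two_ne_zero) |>.1 (le_antisymm h4 (sq_nonneg c))
    rw [hc0] at hz1
    simpa using hz1
  · have : (K + 1) * (1 / K) = 1 + 1 / K := by field_simp
    rw [this]
    have : 0 < 1 / K := by positivity
    linarith
  · intro p hp
    have h1 := hq0 p hp
    have h2 := (hMZ p hp).2 0
    have h3 := hfx 0 1
    rw [hx0, map_zero, zero_add, add_zero] at h2
    simp only [sub_apply, map_sub, map_neg] 
    simp at h3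
    linarith
  · rintro p hp ⟨_, h2⟩
    set δ := ‖p.2 - f 0‖ with hδ
    have hδK : 2 * K * δ < 2 := by
      have : K * δ < K * (1 / K) := by gcongr
      have h3 : K * (1 / K) = 1 := by field_simp
      linarith
    obtain ⟨k, hk⟩ := tendsto_aux x f L hL hfL hfx p.1 (hMZ p hp).1 (2 - 2 * K * δ) (by linarith)
    have h3 := (hMZ p hp).2 (k + 1)
    have e1 := hfx 0 (k + 1 + 1)
    have e2 := hfx 0 (k + 1)
    rw [if_pos (by omega)] at e1 e2
    have h4 : (p.2 - f 0) (x (k + 1 + 1) + x (k + 1)) = f (k + 1) p.1 - 2 := by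
      simp only [sub_apply, map_add, e1, e2]
      linarith
    have h5 : ‖(p.2 - f 0) (x (k + 1 + 1) + x (k + 1))‖ ≤ δ * (K + K) := by
      refine le_trans ((p.2 - f 0).le_opNorm _) ?_
      gcongr
      exact le_trans (norm_add_le _ _) (add_le_add (hxK _) (hxK _))
    rw [h4, Real.norm_eq_abs] at h5
    have h6 := neg_le_of_abs_le h5
    have h7 := (abs_lt.1 hk).2
    linarith


/-- Every nonreflexive real Banach space has a maximally monotone operator (graph in X×X*) that fails type (BR): some (x,x*), α,β>0 with inf over the graph of ⟨a−x,a*−x*⟩ above −αβ, yet no graph point within α of x and β of x*. -/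
theorem result :
    ∀ (X : Type) [NormedAddCommGroup X] [NormedSpace ℝ X] [CompleteSpace X],
      (∃ φ : (X →L[ℝ] ℝ) →L[ℝ] ℝ, ∀ x : X, ∃ f : X →L[ℝ] ℝ, φ f ≠ f x) →
      ∃ A : Set (X × (X →L[ℝ] ℝ)),
        (∀ p ∈ A, ∀ q ∈ A, 0 ≤ (p.2 - q.2) (p.1 - q.1)) ∧
        (∀ z : X × (X →L[ℝ] ℝ), (∀ p ∈ A, 0 ≤ (z.2 - p.2) (z.1 - p.1)) → z ∈ A) ∧
        ∃ (x : X) (xs : X →L[ℝ] ℝ) (α β : ℝ), 0 < α ∧ 0 < β ∧
          (∃ c : ℝ, -(α * β) < c ∧ ∀ p ∈ A, c ≤ (p.2 - xs) (p.1 - x)) ∧
          ∀ p ∈ A, ¬ (‖p.1 - x‖ < α ∧ ‖p.2 - xs‖ < β) := by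
  intro X _ _ _ hX
  obtain ⟨e, he⟩ := hX
  obtain ⟨x, f, K, L, hK, hL, hx0, hxK, hfL, hfx⟩ := james_aux e he
  exact main_aux x f K L hK hL hx0 hxK hfL hfx

end Pool.Agent.S04955
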