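import Pool.Statements.S05915
import Pool.Agent.Work.MP_b9355d_an.M14f

set_option autoImplicit false
open MeasureTheory
open Pool Pool.MP_b9355d_an

namespace Pool.Agent.S05915

/-- For commuting invertible measure-preserving maps and bounded f0,f1,f2, the correlation a(n) splits as a uniform limit of 2-step nilsequences plus an error whose mean square over intervals [M,N) tends to 0 as N−M grows. -/
theorem result :
    ∀ (X : Type) [MeasurableSpace X] [StandardBorelSpace X] (μ : Measure X)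
      [IsProbabilityMeasure μ] (T₁ T₂ : X ≃ᵐ X),
      MeasurePreserving T₁ μ μ → MeasurePreserving T₂ μ μ →
      (∀ x, T₁ (T₂ x) = T₂ (T₁ x)) →
      ∀ (f₀ f₁ f₂ : X → ℂ), MemLp f₀ ⊤ μ → MemLp f₁ ⊤ μ → MemLp f₂ ⊤ μ →
      ∃ (a_st a_er : ℕ → ℂ),
        (∀ n : ℕ, (∫ x, f₀ x * f₁ ((⇑T₁)^[n] x) * f₂ ((⇑T₂)^[n] x) ∂μ) = a_st n + a_er n) ∧
        (∀ ε : ℝ, 0 < ε →
          ∃ (G : Type) (_ : Group G) (_ : TopologicalSpace G) (d : ℕ)
            (_ : ChartedSpace (EuclideanSpace ℝ (Fin d)) G)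
            (_ : LieGroup (modelWithCornersSelf ℝ (EuclideanSpace ℝ (Fin d)))
                ((⊤ : ℕ∞) : WithTop ℕ∞) G),
            upperCentralSeries G 2 = ⊤ ∧
            ∃ (Γ : Subgroup G), DiscreteTopology Γ ∧ CompactSpace (G ⧸ Γ) ∧
              ∃ (F : G ⧸ Γ → ℂ), Continuous F ∧
                ∃ (g x : G), ∀ n : ℕ,
                  ‖a_st n - F (QuotientGroup.mk (g ^ n * x) : G ⧸ Γ)‖ ≤ ε) ∧
        (∀ ε : ℝ, 0 < ε → ∃ L : ℕ, ∀ M N : ℕ, M + L ≤ N →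
          (∑ n ∈ Finset.Ico M N, ‖a_er n‖ ^ 2) / ((N - M : ℕ) : ℝ) ≤ ε) :=
  Pool.Agent.Work.MP_b9355d_an.final

end Pool.Agent.S05915
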