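import Pool.Statements.S06001
import Pool.Agent.Work.MP_c03b87_an.Main

set_option autoImplicit false
open Pool Pool.MP_c03b87_an

namespace Pool.Agent.S06001

/-- For n ≥ 2, every continuous map on an open set of ℝⁿ that is monotone (image of each ball has diameter at most that of the image of its sphere) and weakly differentiable with ∣Df∣ⁿ/log(e+∣Df∣) locally integrable maps null sets to null sets. -/
theorem result :
    ∀ (n : ℕ), 2 ≤ n →
    ∀ (Ω : Set (EuclideanSpace ℝ (Fin n))), IsOpen Ω →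
    ∀ (f : EuclideanSpace ℝ (Fin n) → EuclideanSpace ℝ (Fin n)), ContinuousOn f Ω →
    (∀ (x : EuclideanSpace ℝ (Fin n)) (r : ℝ), 0 < r → Metric.closedBall x r ⊆ Ω →
        Metric.diam (f '' Metric.closedBall x r) ≤ Metric.diam (f '' Metric.sphere x r)) →
    ∀ (g : Fin n → Fin n → EuclideanSpace ℝ (Fin n) → ℝ),
    (∀ i j, MeasureTheory.LocallyIntegrableOn (g i j) Ω MeasureTheory.volume) →
    (∀ (i j : Fin n) (φ : EuclideanSpace ℝ (Fin n) → ℝ),
        ContDiff ℝ ((⊤ : ℕ∞) : WithTop ℕ∞) φ → HasCompactSupport φ → tsupport φ ⊆ Ω →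
        ∫ x, EuclideanSpace.proj i (f x) * fderiv ℝ φ x (EuclideanSpace.single j (1 : ℝ))
          = - ∫ x, g i j x * φ x) →
    MeasureTheory.LocallyIntegrableOn
      (fun x => (Real.sqrt (∑ i, ∑ j, g i j x ^ 2)) ^ n /
        Real.log (Real.exp 1 + Real.sqrt (∑ i, ∑ j, g i j x ^ 2))) Ω MeasureTheory.volume →
    ∀ E ⊆ Ω, MeasureTheory.volume E = 0 → MeasureTheory.volume (f '' E) = 0 := by
  intro n hn Ω hΩ f hf hmono g hg hw hfin E hEΩ hE
  exact Pool.Agent.Work.MP_c03b87_an.main n hn Ω hΩ f hf hmono g hg hw hfin E hEΩ hE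

end Pool.Agent.S06001
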