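import Pool.Statements.S06653
import Pool.Agent.Work.MP_f0bc87_an.Final
import Pool.Agent.Work.MP_f0bc87_an.ScalarCert

set_option autoImplicit false
open Polynomial
open Pool Pool.MP_f0bc87_an

namespace Pool.Agent.S06653

/-- For p(z)=(z-a)·∏(z-z_j) with 0≤a≤1, n-1≥1 roots z_j in the closed unit disc: either a is a critical point of p, or the sum over critical points w (with multiplicity) of ∣w-a∣^(-2) is at least n-1. -/
theorem result :
    ∀ (m : ℕ), 1 ≤ m → ∀ (a : ℝ), 0 ≤ a → a ≤ 1 → ∀ z : Fin m → ℂ, (∀ j, ‖z j‖ ≤ 1) →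
      ((a : ℂ) ∈ (derivative ((X - C (a : ℂ)) * ∏ j, (X - C (z j)))).roots) ∨
      (m : ℝ) ≤ (((derivative ((X - C (a : ℂ)) * ∏ j, (X - C (z j)))).roots).map
          (fun w : ℂ => (‖w - (a : ℂ)‖ ^ 2)⁻¹)).sum :=
  Pool.Agent.Work.F0bc87.main_of_cert Pool.Agent.Work.F0bc87.scalar_cert

end Pool.Agent.S06653
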