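import Pool.Statements.S07902
import Pool.Agent.Work.MP_2e8aec_co.Main

set_option autoImplicit false
open Pool Pool.MP_2e8aec_co

namespace Pool.Agent.S07902

/-- The negation of the preceding statement: For k at least 2: every k-colouring of the edges of a finite complete bipartite graph with nonempty sides has its vertices covered by at most 2k-2 monochromatic components, and some such colouring needs 2k-2. -/
theorem result :
    ¬ (∀ k : ℕ, 2 ≤ k →
    (∀ m n : ℕ, 1 ≤ m → 1 ≤ n → ∀ c : Fin m → Fin n → Fin k,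
      ∃ S : Finset (Fin k × (Fin m ⊕ Fin n)), S.card ≤ 2 * k - 2 ∧
        ∀ w : Fin m ⊕ Fin n, ∃ p ∈ S,
          (SimpleGraph.fromRel (fun x y : Fin m ⊕ Fin n =>
            ∃ a b, x = Sum.inl a ∧ y = Sum.inr b ∧ c a b = p.1)).Reachable p.2 w) ∧
    (∃ m n : ℕ, 1 ≤ m ∧ 1 ≤ n ∧ ∃ c : Fin m → Fin n → Fin k,
      ∀ S : Finset (Fin k × (Fin m ⊕ Fin n)),
        (∀ w : Fin m ⊕ Fin n, ∃ p ∈ S,
          (SimpleGraph.fromRel (fun x y : Fin m ⊕ Fin n =>
            ∃ a b, x = Sum.inl a ∧ y = Sum.inr b ∧ c a b = p.1)).Reachable p.2 w) →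
        2 * k - 2 ≤ S.card)) := by
  exact Pool.Agent.Work.MP_2e8aec_co.target_A

end Pool.Agent.S07902
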