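import Pool.Statements.S07927
import Pool.Agent.Work.MP_3035da_co.BBlock

set_option autoImplicit false
open Pool Pool.MP_3035da_co

namespace Pool.Agent.S07927

/-- There is a constant c such that every finite graph with no K5 or K3,3 minor (i.e. planar) and max degree at most d≥1 has a 3-colouring whose monochromatic connected components all have at most c·d vertices. -/
theorem result :
    ∃ c : ℕ, ∀ (V : Type) [Fintype V] (G : SimpleGraph V) (d : ℕ), 1 ≤ d →
      (∀ v : V, (G.neighborSet v).ncard ≤ d) →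
      (¬ ∃ B : Fin 5 → Set V,
          (∀ i, (G.induce (B i)).Connected) ∧
          (∀ i j, i ≠ j → Disjoint (B i) (B j)) ∧
          (∀ i j, i ≠ j → ∃ u ∈ B i, ∃ w ∈ B j, G.Adj u w)) →
      (¬ ∃ B : Fin 3 ⊕ Fin 3 → Set V,
          (∀ i, (G.induce (B i)).Connected) ∧
          (∀ i j, i ≠ j → Disjoint (B i) (B j)) ∧
          (∀ i j : Fin 3, ∃ u ∈ B (Sum.inl i), ∃ w ∈ B (Sum.inr j), G.Adj u w)) →
      ∃ f : V → Fin 3, ∀ v : V,
        {u : V | (SimpleGraph.fromRel (fun x y => G.Adj x y ∧ f x = f y)).Reachable v u}.ncard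
          ≤ c * d := by
  classical
  refine ⟨10000, ?_⟩
  intro V _ G d hd hdeg h5 h33
  have hK : Pool.Agent.Work.MP_3035da_co.K.KFree G :=
    Pool.Agent.Work.MP_3035da_co.K.kfree_of_frozen h5 h33
  have hD : CC3.DegLe G d := by
    intro v
    have := hdeg v
    rw [Set.ncard_eq_toFinset_card'] at this
    refine le_trans (le_of_eq ?_) this
    congr 1
    ext u
    simp
  rcases isEmpty_or_nonempty V with hV | ⟨⟨r⟩⟩
  · exact ⟨fun _ => 0, fun v => (hV.false v).elim⟩
  obtain ⟨f, _, _, hf⟩ := CC3.rc_all hK hD Finset.univ r (Finset.mem_univ r) 0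
  refine ⟨f, fun v => ?_⟩
  have h1 := hf v (Finset.mem_univ v)
  have h2 : {u : V | (SimpleGraph.fromRel (fun x y => G.Adj x y ∧ f x = f y)).Reachable v u} ⊆
      ↑(Finset.univ.filter (fun u => Relation.ReflTransGen (CC3.MR G Finset.univ f) v u)) := by
    intro u hu
    have hu' := (SimpleGraph.reachable_iff_reflTransGen _ _).1 hu
    simp only [Finset.coe_filter, Finset.mem_univ, true_and]
    show Relation.ReflTransGen (CC3.MR G Finset.univ f) v u
    refine Relation.ReflTransGen.mono (p := CC3.MR G Finset.univ f) ?_ _ _ hu'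
    intro x y hxy
    rw [SimpleGraph.fromRel_adj] at hxy
    rcases hxy with ⟨_, h | h⟩
    · exact ⟨h.1, Finset.mem_univ _, Finset.mem_univ _, h.2⟩
    · exact ⟨h.1.symm, Finset.mem_univ _, Finset.mem_univ _, h.2.symm⟩
  have h3 := Set.ncard_le_ncard h2 (Set.toFinite _)
  rw [Set.ncard_coe_finset] at h3
  have h4 : 1000 * (3 * d + 6) ≤ 10000 * d := by omega
  exact le_trans h3 (le_trans h1 h4)

end Pool.Agent.S07927
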