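import Pool.Statements.S07947

set_option autoImplicit false
open Classical
open Pool Pool.MP_31464c_co

namespace Pool.Agent.S07947

/-- The neighbours of `v` along a walk. -/
noncomputable def nb {n : ℕ} {u w : Fin n} (p : (⊤ : SimpleGraph (Fin n)).Walk u w) (v : Fin n) :
    Finset (Fin n) :=
  Finset.univ.filter (fun x => s(v, x) ∈ p.edges)

lemma nb_start {n : ℕ} {u w : Fin n} (p : (⊤ : SimpleGraph (Fin n)).Walk u w) (hp : p.IsPath) :
    (nb p u).card ≤ 1 := by
  cases p with
  | nil => simp [nb]
  | @cons _ v' _ h q =>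
    rw [SimpleGraph.Walk.cons_isPath_iff] at hp
    apply Finset.card_le_one.2
    intro a ha b hb
    have key : ∀ x, x ∈ nb (SimpleGraph.Walk.cons h q) u → x = v' := by
      intro x hx
      simp only [nb, Finset.mem_filter, Finset.mem_univ, true_and, SimpleGraph.Walk.edges_cons,
        List.mem_cons] at hx
      rcases hx with hx | hx
      · rcases Sym2.eq_iff.1 hx with ⟨_, h2⟩ | ⟨h1, h2⟩
        · exact h2
        · rw [h2, h1]
      · exact absurd (q.fst_mem_support_of_mem_edges hx) hp.2
    rw [key a ha, key b hb]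

lemma nb_le {n : ℕ} (v : Fin n) {u w : Fin n} (p : (⊤ : SimpleGraph (Fin n)).Walk u w)
    (hp : p.IsPath) : (nb p v).card ≤ 2 := by
  induction p with
  | nil => simp [nb]
  | @cons u v' w h q ih =>
    by_cases hvu : v = u
    · subst hvu
      exact (nb_start _ hp).trans (by norm_num)
    · rw [SimpleGraph.Walk.cons_isPath_iff] at hp
      by_cases hvv : v = v'
      · subst hvv
        have h1 : nb (SimpleGraph.Walk.cons h q) v ⊆ {u} ∪ nb q v := by
          intro x hx
          simp only [nb, Finset.mem_filter, Finset.mem_univ, true_and,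
            SimpleGraph.Walk.edges_cons, List.mem_cons] at hx
          rcases hx with hx | hx
          · rcases Sym2.eq_iff.1 hx with ⟨h1, _⟩ | ⟨_, h2⟩
            · exact absurd h1 hvu
            · simp [h2]
          · simp [nb, hx]
        have h2 := Finset.card_le_card h1
        have h3 := Finset.card_union_le {u} (nb q v)
        have h4 := nb_start q hp.1
        rw [Finset.card_singleton] at h3
        omega
      · have h1 : nb (SimpleGraph.Walk.cons h q) v ⊆ nb q v := by
          intro x hx
          simp only [nb, Finset.mem_filter, Finset.mem_univ, true_and,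
            SimpleGraph.Walk.edges_cons, List.mem_cons] at hx
          rcases hx with hx | hx
          · rcases Sym2.eq_iff.1 hx with ⟨h1, _⟩ | ⟨h1, _⟩
            · exact absurd h1 hvu
            · exact absurd h1 hvv
          · simp [nb, hx]
        exact (Finset.card_le_card h1).trans (ih hp.1)

/-- Adjacency of `K_4 ∪ C_3`: two distinct vertices on the same side of the cut `{0,1,2,3}`. -/
def G0 : SimpleGraph (Fin 7) where
  Adj x y := x ≠ y ∧ (x.val < 4 ↔ y.val < 4)
  symm := ⟨fun _ _ h => ⟨h.1.symm, h.2.symm⟩⟩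
  loopless := ⟨fun _ h => h.1 rfl⟩

lemma G0_adj (x y : Fin 7) : G0.Adj x y ↔ (x ≠ y ∧ (x.val < 4 ↔ y.val < 4)) := Iff.rfl

lemma G0_nbr (x : Fin 7) : G0.neighborFinset x =
    Finset.univ.filter (fun y : Fin 7 => x ≠ y ∧ (x.val < 4 ↔ y.val < 4)) := by
  ext y
  simp [G0_adj]

lemma G0_deg (x : Fin 7) : G0.degree x = if x.val < 4 then 3 else 2 := by
  rw [← SimpleGraph.card_neighborFinset_eq_degree, G0_nbr]
  fin_cases x <;> decide

lemma G0_max : G0.maxDegree ≤ 3 := by
  apply SimpleGraph.maxDegree_le_of_forall_degree_le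
  intro v
  rw [G0_deg]
  split_ifs <;> norm_num

lemma G0_odd : (Finset.univ.filter (fun x : Fin 7 => Odd (G0.degree x))).card = 4 := by
  have : (Finset.univ.filter (fun x : Fin 7 => Odd (G0.degree x))) =
      Finset.univ.filter (fun x : Fin 7 => x.val < 4) := by
    ext x
    simp only [Finset.mem_filter, Finset.mem_univ, true_and]
    rw [G0_deg]
    split_ifs with h
    · simp [h]; decide
    · simp [h]
  rw [this]
  decide

/-- There is a finite simple graph G such that no family of k paths in the complete graph on its vertices, with k at most max(number of odd-degree vertices / 2, ceil((max degree + 1)/2)), has symmetric difference of edge sets equal to E(G). -/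
theorem result :
    ∃ (n : ℕ) (G : SimpleGraph (Fin n)),
      ∀ k : ℕ,
        k ≤ max ((Finset.univ.filter (fun x : Fin n => Odd (G.degree x))).card / 2)
                ((G.maxDegree + 2) / 2) →
        ¬ ∃ (u w : Fin k → Fin n)
            (P : ∀ i : Fin k, (⊤ : SimpleGraph (Fin n)).Walk (u i) (w i)),
            (∀ i, (P i).IsPath) ∧
            ∀ e : Sym2 (Fin n),
              (Odd ((Finset.univ.filter (fun i : Fin k => e ∈ (P i).edges)).card)
                ↔ e ∈ G.edgeSet) := by
  refine ⟨7, G0, ?_⟩
  intro k hk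
  rintro ⟨u, w, P, hP, hE⟩
  have hk2 : k ≤ 2 := by
    refine hk.trans ?_
    rw [G0_odd]
    have := G0_max
    omega
  -- multiplicity
  let m : Fin 7 → Fin 7 → ℕ := fun v x =>
    (Finset.univ.filter (fun i : Fin k => s(v, x) ∈ (P i).edges)).card
  have hm : ∀ v x, Odd (m v x) ↔ (v ≠ x ∧ (v.val < 4 ↔ x.val < 4)) := by
    intro v x
    exact hE s(v, x)
  have hsum : ∀ v, ∑ x, m v x = ∑ i, (nb (P i) v).card := by
    intro v
    simp only [m, nb, Finset.card_filter]
    rw [Finset.sum_comm]
  have hle : ∀ v, ∑ x, m v x ≤ 4 := by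
    intro v
    rw [hsum]
    calc ∑ i, (nb (P i) v).card ≤ ∑ _i : Fin k, 2 := Finset.sum_le_sum (fun i _ => nb_le v _ (hP i))
      _ = k * 2 := by simp
      _ ≤ 4 := by omega
  have hcross : ∀ v x : Fin 7, v.val < 4 → ¬ x.val < 4 → m v x = 0 := by
    intro v x hv hx
    have h1 := hle v
    rw [Fin.sum_univ_seven] at h1
    have o := fun y => hm v y
    have o0 := o 0
    have o1 := o 1
    have o2 := o 2
    have o3 := o 3
    have o4 := o 4
    have o5 := o 5
    have o6 := o 6
    fin_cases v <;> fin_cases x <;>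
      simp [Nat.odd_iff] at hv hx h1 o0 o1 o2 o3 o4 o5 o6 ⊢ <;> omega
  -- the path through the edge 45
  have h45 : Odd (m 4 5) := (hm 4 5).2 (by decide)
  have hpos : 0 < m 4 5 := h45.pos
  obtain ⟨i, hi⟩ := Finset.card_pos.1 hpos
  simp only [Finset.mem_filter, Finset.mem_univ, true_and] at hi
  have h4 : (4 : Fin 7) ∈ (P i).support := (P i).fst_mem_support_of_mem_edges hi
  have h0 : (0 : Fin 7) ∈ (P i).support := by
    by_contra hcon
    have hz : (nb (P i) 0).card = 0 := by
      rw [Finset.card_eq_zero]
      apply Finset.eq_empty_of_forall_notMem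
      intro x hx
      simp only [nb, Finset.mem_filter, Finset.mem_univ, true_and] at hx
      exact hcon ((P i).fst_mem_support_of_mem_edges hx)
    have h2 : ∑ x, m 0 x ≤ 2 := by
      rw [hsum, ← Finset.add_sum_erase _ _ (Finset.mem_univ i), hz, zero_add]
      calc ∑ j ∈ Finset.univ.erase i, (nb (P j) 0).card
          ≤ ∑ _j ∈ Finset.univ.erase i, 2 := Finset.sum_le_sum (fun j _ => nb_le 0 _ (hP j))
        _ = (Finset.univ.erase i).card * 2 := by simp
        _ ≤ 2 := by
          rw [Finset.card_erase_of_mem (Finset.mem_univ i), Finset.card_univ, Fintype.card_fin]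
          omega
    rw [Fin.sum_univ_seven] at h2
    have o1 := hm 0 1
    have o2 := hm 0 2
    have o3 := hm 0 3
    simp [Nat.odd_iff] at o1 o2 o3
    omega
  -- a crossing edge
  have hcr : ∃ a b : Fin 7, a.val < 4 ∧ ¬ b.val < 4 ∧ s(a, b) ∈ (P i).edges := by
    by_cases hu : (u i).val < 4
    · have hd := ((P i).takeUntil 4 h4).exists_boundary_dart {x : Fin 7 | x.val < 4} hu (by decide)
      obtain ⟨d, hd, h1, h2⟩ := hd
      refine ⟨d.fst, d.snd, h1, h2, ?_⟩
      have h3 : d.edge ∈ ((P i).takeUntil 4 h4).edges := List.mem_map_of_mem hd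
      exact (P i).edges_takeUntil_subset_edges h4 h3
    · have hd := ((P i).takeUntil 0 h0).exists_boundary_dart {x : Fin 7 | ¬ x.val < 4} hu (by decide)
      obtain ⟨d, hd, h1, h2⟩ := hd
      refine ⟨d.snd, d.fst, by simpa using h2, h1, ?_⟩
      have h3 : d.edge ∈ ((P i).takeUntil 0 h0).edges := List.mem_map_of_mem hd
      have h4 := (P i).edges_takeUntil_subset_edges h0 h3
      rw [Sym2.eq_swap]
      exact h4
  obtain ⟨a, b, ha, hb, hab⟩ := hcr
  have hz := hcross a b ha hb
  rw [Finset.card_eq_zero] at hz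
  have : i ∈ Finset.univ.filter (fun i : Fin k => s(a, b) ∈ (P i).edges) := by
    simp [hab]
  rw [hz] at this
  exact absurd this (Finset.notMem_empty i)

end Pool.Agent.S07947
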