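import Pool.Statements.S08021
import Pool.Agent.Work.MP_3411af_co.CircleUpper

set_option autoImplicit false
open Pool Pool.MP_3411af_co

namespace Pool.Agent.S08021

/-- There are graphs G_n with crossing-free circular-arc drawings covered by a_n circles or lines, no crossing-free straight-line drawing covered by fewer than b_n lines, b_n at least 1, and a_n/b_n tending to 0. -/
theorem result :
  ∃ (m : ℕ → ℕ) (G : ∀ n, SimpleGraph (Fin (m n))) (a b : ℕ → ℕ),
    (∀ n, 0 < b n) ∧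
    Filter.Tendsto (fun n => (a n : ℝ) / (b n : ℝ)) Filter.atTop (nhds 0) ∧
    (∀ n, ∃ C : Fin (a n) → Set (EuclideanSpace ℝ (Fin 2)),
      (∀ i, (∃ (c : EuclideanSpace ℝ (Fin 2)) (r : ℝ), 0 < r ∧ C i = Metric.sphere c r) ∨
            (∃ x y : EuclideanSpace ℝ (Fin 2), x ≠ y ∧
              C i = ((line[ℝ, x, y] : AffineSubspace ℝ (EuclideanSpace ℝ (Fin 2))) :
                Set (EuclideanSpace ℝ (Fin 2))))) ∧
      ∃ p : Fin (m n) → EuclideanSpace ℝ (Fin 2), Function.Injective p ∧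
        (∀ v, ∃ i, p v ∈ C i) ∧
        ∃ γ : ∀ u v : Fin (m n), Path (p u) (p v),
          (∀ u v, (G n).Adj u v →
            Function.Injective ⇑(γ u v) ∧ ∃ i, Set.range ⇑(γ u v) ⊆ C i) ∧
          (∀ u v w, (G n).Adj u v → w ≠ u → w ≠ v → p w ∉ Set.range ⇑(γ u v)) ∧
          (∀ u v x y, (G n).Adj u v → (G n).Adj x y → s(u, v) ≠ s(x, y) →
            Set.range ⇑(γ u v) ∩ Set.range ⇑(γ x y) ⊆
              p '' (({u, v} : Set (Fin (m n))) ∩ ({x, y} : Set (Fin (m n)))))) ∧
    (∀ n, ∀ k < b n, ¬ ∃ L : Fin k → Set (EuclideanSpace ℝ (Fin 2)),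
      (∀ i, ∃ x y : EuclideanSpace ℝ (Fin 2), x ≠ y ∧
        L i = ((line[ℝ, x, y] : AffineSubspace ℝ (EuclideanSpace ℝ (Fin 2))) :
          Set (EuclideanSpace ℝ (Fin 2)))) ∧
      ∃ p : Fin (m n) → EuclideanSpace ℝ (Fin 2), Function.Injective p ∧
        (∀ v, ∃ i, p v ∈ L i) ∧
        (∀ u v, (G n).Adj u v → ∃ i, segment ℝ (p u) (p v) ⊆ L i) ∧
        (∀ u v w, (G n).Adj u v → w ≠ u → w ≠ v → p w ∉ segment ℝ (p u) (p v)) ∧
        (∀ u v x y, (G n).Adj u v → (G n).Adj x y → s(u, v) ≠ s(x, y) →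
          segment ℝ (p u) (p v) ∩ segment ℝ (p x) (p y) ⊆
            p '' (({u, v} : Set (Fin (m n))) ∩ ({x, y} : Set (Fin (m n)))))) := by
  classical
  -- parameters
  let T : ℕ → ℕ := fun n ↦ n + 1
  have hT : ∀ n, 0 < T n := fun n ↦ Nat.succ_pos n
  let V : ℕ → Type := fun n ↦ Work.MP_3411af_co.KK (T n) × Option (Work.MP_3411af_co.DD (T n))
  let I : ℕ → Type := fun n ↦ Work.MP_3411af_co.DD (T n) ×
    {d : ℕ // d ∈ Work.MP_3411af_co.SS (T n)}
  let m : ℕ → ℕ := fun n ↦ Fintype.card (V n)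
  let e : ∀ n, Fin (m n) ≃ V n := fun n ↦ (Fintype.equivFin (V n)).symm
  let a : ℕ → ℕ := fun n ↦ Fintype.card (I n)
  let f : ∀ n, Fin (a n) ≃ I n := fun n ↦ (Fintype.equivFin (I n)).symm
  let G : ∀ n, SimpleGraph (Fin (m n)) := fun n ↦
    (Work.MP_3411af_co.starGraph (Work.MP_3411af_co.KK (T n))
      (Work.MP_3411af_co.DD (T n))).comap (e n)
  let b : ℕ → ℕ := fun n ↦ (T n) ^ 4
  refine ⟨m, G, a, b, fun n ↦ pow_pos (hT n) 4, ?_, ?_, ?_⟩
  · -- the ratio tends to zero
    have hacard : ∀ n, a n = 4 * (T n) ^ 2 * (Work.MP_3411af_co.SS (T n)).card := by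
      intro n
      show Fintype.card (I n) = _
      simp only [I, Fintype.card_prod, Fintype.card_fin, Fintype.card_coe]
      ring
    have hratio : ∀ n, (a n : ℝ) / (b n : ℝ)
        ≤ 4 * (Work.MP_3411af_co.sqCount (13 * (T n) ^ 2 + 1) : ℝ) / (T n : ℝ) ^ 2 := by
      intro n
      have hTR : (0 : ℝ) < T n := by exact_mod_cast hT n
      have h1 : ((Work.MP_3411af_co.SS (T n)).card : ℝ)
          ≤ (Work.MP_3411af_co.sqCount (13 * (T n) ^ 2 + 1) : ℝ) := by
        exact_mod_cast Work.MP_3411af_co.card_SS_le (T n)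
      rw [hacard n]
      show ((4 * (T n) ^ 2 * (Work.MP_3411af_co.SS (T n)).card : ℕ) : ℝ) / (((T n) ^ 4 : ℕ) : ℝ) ≤ _
      push_cast
      rw [div_le_div_iff₀ (by positivity) (by positivity)]
      have h2 : (4 * (T n : ℝ) ^ 2 * ((Work.MP_3411af_co.SS (T n)).card : ℝ)) * (T n : ℝ) ^ 2
          ≤ (4 * (T n : ℝ) ^ 2 * (Work.MP_3411af_co.sqCount (13 * (T n) ^ 2 + 1) : ℝ))
            * (T n : ℝ) ^ 2 := by gcongr
      calc _ ≤ _ := h2
        _ = _ := by ring
    rw [Metric.tendsto_atTop]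
    intro ε hε
    obtain ⟨C, hC⟩ := Work.MP_3411af_co.sqCount_density (ε / 112) (by positivity)
    obtain ⟨N, hN⟩ := exists_nat_gt (8 * |C| / ε)
    refine ⟨N, fun n hn ↦ ?_⟩
    have hTR : (1 : ℝ) ≤ T n := by exact_mod_cast hT n
    have hTN : (N : ℝ) < T n := by
      have : N < n + 1 := Nat.lt_succ_of_le hn
      exact_mod_cast this
    have hnn : 0 ≤ (a n : ℝ) / (b n : ℝ) := by positivity
    rw [Real.dist_eq, sub_zero, abs_of_nonneg hnn]
    refine (hratio n).trans_lt ?_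
    have hTpos : (0 : ℝ) < (T n : ℝ) ^ 2 := by positivity
    rw [div_lt_iff₀ hTpos]
    have h1 := hC (13 * (T n) ^ 2 + 1)
    push_cast at h1
    have h2 : (8 * |C|) < ε * (T n : ℝ) ^ 2 := by
      have h3 : 8 * |C| < ε * T n := by
        have := hN.trans hTN
        rw [div_lt_iff₀ hε] at this
        linarith
      have h3' : (T n : ℝ) ≤ (T n : ℝ) ^ 2 := by nlinarith
      have h3'' : ε * (T n : ℝ) ≤ ε * (T n : ℝ) ^ 2 := mul_le_mul_of_nonneg_left h3' hε.le
      linarith
    have h4 : C ≤ |C| := le_abs_self C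
    have h5 : (1 : ℝ) ≤ (T n : ℝ) ^ 2 := by nlinarith
    have h6 : ε / 112 * (13 * (T n : ℝ) ^ 2 + 1) ≤ ε / 8 * (T n : ℝ) ^ 2 := by nlinarith
    linarith
  · -- the circular-arc drawing
    intro n
    obtain ⟨hc1, hinj, hcov, γ, hγ1, hγ2, hγ3⟩ := Work.MP_3411af_co.circle_drawing (hT n)
    refine ⟨fun i ↦ Work.MP_3411af_co.circ (f n i), fun i ↦ Or.inl (hc1 (f n i)),
      fun v ↦ Work.MP_3411af_co.pos (e n v), hinj.comp (e n).injective, ?_,
      fun u v ↦ γ (e n u) (e n v), ?_, ?_, ?_⟩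
    · intro v
      obtain ⟨i, hi⟩ := hcov (e n v)
      refine ⟨(f n).symm i, ?_⟩
      simpa using hi
    · intro u v huv
      obtain ⟨h1, i, hi⟩ := hγ1 (e n u) (e n v) huv
      refine ⟨h1, (f n).symm i, ?_⟩
      simpa using hi
    · intro u v w huv hwu hwv
      exact hγ2 (e n u) (e n v) (e n w) huv (fun h ↦ hwu ((e n).injective h))
        (fun h ↦ hwv ((e n).injective h))
    · intro u v x y huv hxy hne z hz
      have hne' : s(e n u, e n v) ≠ s(e n x, e n y) := by
        intro h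
        apply hne
        have h' : Sym2.map (e n) s(u, v) = Sym2.map (e n) s(x, y) := h
        exact Sym2.map.injective (e n).injective h'
      obtain ⟨w, ⟨hw1, hw2⟩, rfl⟩ := hγ3 (e n u) (e n v) (e n x) (e n y) huv hxy hne' hz
      refine ⟨(e n).symm w, ⟨?_, ?_⟩, ?_⟩
      · rcases hw1 with rfl | rfl <;> simp
      · rcases hw2 with rfl | rfl <;> simp
      · simp
  · -- the lower bound for lines
    intro n k hk hcon
    obtain ⟨L, hL, p, hp, -, hcov, hno, -⟩ := hcon
    have key := Work.MP_3411af_co.line_lower (K := Work.MP_3411af_co.KK (T n))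
      (D := Work.MP_3411af_co.DD (T n)) L hL (fun v ↦ p ((e n).symm v))
      (hp.comp (e n).symm.injective) ?_ ?_
    · simp only [Work.MP_3411af_co.KK, Work.MP_3411af_co.DD, Fintype.card_prod,
        Fintype.card_fin] at key
      have hk' : k < (T n) ^ 4 := hk
      have e1 : T n * T n * (2 * T n * (2 * T n)) = 4 * (T n) ^ 4 := by ring
      have e2 : T n * T n * (T n * T n) = (T n) ^ 4 := by ring
      rw [e1, e2] at key
      omega
    · intro P Q
      apply hcov
      show (Work.MP_3411af_co.starGraph _ _).Adj (e n ((e n).symm (P, none)))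
        (e n ((e n).symm (P, some Q)))
      rw [Equiv.apply_symm_apply, Equiv.apply_symm_apply]
      exact ⟨rfl, Or.inl ⟨rfl, by simp⟩⟩
    · intro P Q Q' hQ
      apply hno
      · show (Work.MP_3411af_co.starGraph _ _).Adj (e n ((e n).symm (P, none)))
          (e n ((e n).symm (P, some Q)))
        rw [Equiv.apply_symm_apply, Equiv.apply_symm_apply]
        exact ⟨rfl, Or.inl ⟨rfl, by simp⟩⟩
      · intro h
        have h' : (some Q' : Option (Work.MP_3411af_co.DD (T n))) = none :=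
          congrArg Prod.snd ((e n).symm.injective h)
        simp at h'
      · intro h
        have h' : (some Q' : Option (Work.MP_3411af_co.DD (T n))) = some Q :=
          congrArg Prod.snd ((e n).symm.injective h)
        exact hQ (Option.some.inj h')

end Pool.Agent.S08021
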