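import Pool.Statements.S08433
import Pool.Agent.Work.MP_44129c_co.Fin.FullAsm

set_option autoImplicit false
open Pool Pool.MP_44129c_co

namespace Pool.Agent.S08433

/-- For every m ≥ 2 and every N: every 2-colouring of K_N's edges has a monochromatic tree on m+1 vertices of diameter ≤ 3 iff every Z_m-colouring of K_N's edges has such a tree with edge colours summing to 0. -/
theorem result :
    ∀ m : ℕ, 2 ≤ m → ∀ N : ℕ,
      ((∀ c : Fin N → Fin N → Fin 2, (∀ x y, c x y = c y x) →
          ∃ T : SimpleGraph (Fin (m + 1)), T.IsTree ∧ T.diam ≤ 3 ∧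
            ∃ f : Fin (m + 1) → Fin N, Function.Injective f ∧ ∃ i : Fin 2,
              ∀ u v : Fin (m + 1), T.Adj u v → c (f u) (f v) = i) ↔
       (∀ c : Fin N → Fin N → ZMod m, (∀ x y, c x y = c y x) →
          ∃ T : SimpleGraph (Fin (m + 1)), T.IsTree ∧ T.diam ≤ 3 ∧
            ∃ f : Fin (m + 1) → Fin N, Function.Injective f ∧
              (∑ᶠ (p : Fin (m + 1) × Fin (m + 1)) (_ : T.Adj p.1 p.2 ∧ p.1 < p.2),
                  c (f p.1) (f p.2)) = 0)) :=
  fun m hm N => ZS44129.full m hm N

end Pool.Agent.S08433
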