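import Pool.Statements.S08786

set_option autoImplicit false
open Pool Pool.MP_542d22_co

namespace Pool.Agent.S08786

/-- Along a directed walk that starts inside `S` and ends outside `S`, some edge leaves `S`. -/
lemma exists_crossing {V E : Type} (tail head : E → V) (S : V → Prop) :
    ∀ (l : List E) (_ : l ≠ []) (_ : ∀ e ∈ l.head?, S (tail e))
      (_ : ∀ e ∈ l.getLast?, ¬ S (head e))
      (_ : ∀ (k : ℕ) (a b : E), l[k]? = some a → l[k+1]? = some b → head a = tail b),
      ∃ e ∈ l, S (tail e) ∧ ¬ S (head e)
  | [], h, _, _, _ => absurd rfl h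
  | [a], _, h1, h2, _ => ⟨a, by simp, h1 a (by simp), h2 a (by simp)⟩
  | a :: b :: l, _, h1, h2, h3 => by
    by_cases hb : S (head a)
    · have hab : head a = tail b := h3 0 a b (by simp) (by simp)
      obtain ⟨e, he, he'⟩ := exists_crossing tail head S (b :: l) (by simp)
        (by
          intro e he
          simp only [List.head?_cons, Option.mem_def, Option.some.injEq] at he
          subst he
          rw [← hab]; exact hb)
        (by
          intro e he
          apply h2 e
          simpa using he)
        (by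
          intro k c d hc hd
          exact h3 (k+1) c d (by simpa using hc) (by simpa using hd))
      exact ⟨e, List.mem_cons_of_mem _ he, he'⟩
    · exact ⟨a, by simp, h1 a (by simp), hb⟩

/-- Tails of the 35 edges of the digraph. -/
def tl : Fin 35 → Fin 5 :=
  ![0,0,0,0, 1,1,1,1, 2,2,2,2, 3,3,3,3, 0,0,0, 1,1,1, 2,2,2, 3,3,3, 4,4,4,4,4,4,4]

/-- Heads of the 35 edges of the digraph. -/
def hd : Fin 35 → Fin 5 :=
  ![1,1,1,1, 0,0,0,0, 3,3,3,3, 2,2,2,2, 4,4,4, 4,4,4, 4,4,4, 4,4,4, 0,0,1,1,2,2,3]

lemma noloop : ∀ e, tl e ≠ hd e := by decide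

lemma outdeg : ∀ v : Fin 5, 7 ≤ Fintype.card {e : Fin 35 // tl e = v} := by decide

lemma cuts : ∀ x y : Fin 5, x ≠ y → ∃ S : Fin 5 → Bool, S x = true ∧ S y = false ∧
    (Finset.univ.filter (fun e : Fin 35 => S (tl e) = true ∧ ¬ S (hd e) = true)).card ≤ 6 := by
  intro x y hxy
  by_cases h4 : y = 4
  · subst h4
    by_cases hx : x = 0 ∨ x = 1
    · refine ⟨![true, true, false, false, false], ?_, ?_, ?_⟩
      · rcases hx with rfl | rfl <;> rfl
      · rfl
      · decide
    · refine ⟨![false, false, true, true, false], ?_, ?_, ?_⟩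
      · revert x; decide
      · rfl
      · decide
  · refine ⟨fun v => decide (v ≠ y), ?_, ?_, ?_⟩
    · simpa using hxy
    · simp
    · clear hxy
      revert y; decide

/-- The negation of the preceding statement: For every r ≥ 1, every finite loopless multidigraph with at least one vertex and all out-degrees at least r has distinct vertices x, y joined by r pairwise edge-disjoint directed walks from x to y. -/
theorem result :
    ¬ (∀ (r : ℕ), 1 ≤ r → ∀ (V E : Type) [Finite V] [Finite E] [Nonempty V] (tail head : E → V),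
      (∀ e, tail e ≠ head e) →
      (∀ v : V, r ≤ Nat.card {e : E // tail e = v}) →
      ∃ x y : V, x ≠ y ∧ ∃ P : Fin r → List E,
        (∀ i, P i ≠ [] ∧ (∀ e ∈ (P i).head?, tail e = x) ∧
          (∀ e ∈ (P i).getLast?, head e = y) ∧
          ∀ (k : ℕ) (a b : E), (P i)[k]? = some a → (P i)[k+1]? = some b → head a = tail b) ∧
        ∀ i j, i ≠ j → ∀ e ∈ P i, e ∉ P j) := by
  intro h
  obtain ⟨x, y, hxy, P, hP, hdisj⟩ := h 7 (by norm_num) (Fin 5) (Fin 35) tl hd noloop
    (by intro v; rw [Nat.card_eq_fintype_card]; exact outdeg v)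
  obtain ⟨S, hSx, hSy, hcard⟩ := cuts x y hxy
  have hcross : ∀ i : Fin 7, ∃ e ∈ P i, S (tl e) = true ∧ ¬ S (hd e) = true := by
    intro i
    obtain ⟨h0, h1, h2, h3⟩ := hP i
    refine exists_crossing tl hd (fun v => S v = true) (P i) h0 ?_ ?_ h3
    · intro e he
      rw [h1 e he]; exact hSx
    · intro e he
      rw [h2 e he, hSy]; simp
  choose f hf1 hf2 using hcross
  have hinj : Function.Injective f := by
    intro i j hij
    by_contra hne
    exact hdisj i j hne (f i) (hf1 i) (hij ▸ hf1 j)
  have hle : (Finset.univ.image f).card ≤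
      (Finset.univ.filter (fun e : Fin 35 => S (tl e) = true ∧ ¬ S (hd e) = true)).card := by
    apply Finset.card_le_card
    intro e he
    simp only [Finset.mem_image, Finset.mem_univ, true_and] at he
    obtain ⟨i, rfl⟩ := he
    simp only [Finset.mem_filter, Finset.mem_univ, true_and]
    exact hf2 i
  rw [Finset.card_image_of_injective _ hinj, Finset.card_univ, Fintype.card_fin] at hle
  omega

end Pool.Agent.S08786
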