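import Pool.Statements.S09073
import Pool.Agent.Work.MP_5f857a_co.X.Final

set_option autoImplicit false
open Pool Pool.MP_5f857a_co

namespace Pool.Agent.S09073

/-- Every centrally symmetric, full-dimensional simplicial polytope in R^d has a graph containing a subdivision of the complete graph on floor(3d/2) vertices: that many vertices joined pairwise by paths meeting only at shared endpoints. -/
theorem result :
    ∀ (d : ℕ) (V : Finset (EuclideanSpace ℝ (Fin d))),
      (∀ v ∈ V, -v ∈ V) →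
      (∀ v ∈ V, v ∉ convexHull ℝ ((V.erase v : Finset (EuclideanSpace ℝ (Fin d))) : Set (EuclideanSpace ℝ (Fin d)))) →
      affineSpan ℝ (V : Set (EuclideanSpace ℝ (Fin d))) = ⊤ →
      (∀ (f : EuclideanSpace ℝ (Fin d) →ₗ[ℝ] ℝ) (c : ℝ),
          (∀ x ∈ V, f x ≤ c) → (∃ x ∈ V, f x < c) →
          AffineIndependent ℝ
            (fun x : {x : EuclideanSpace ℝ (Fin d) // x ∈ V ∧ f x = c} => (x : EuclideanSpace ℝ (Fin d)))) →
      ∃ (b : Fin (3 * d / 2) → EuclideanSpace ℝ (Fin d)),
        Function.Injective b ∧ (∀ i, b i ∈ V) ∧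
        ∃ (p : (i j : Fin (3 * d / 2)) →
            (SimpleGraph.fromRel (fun u v : EuclideanSpace ℝ (Fin d) =>
              u ∈ V ∧ v ∈ V ∧
              ∃ (f : EuclideanSpace ℝ (Fin d) →ₗ[ℝ] ℝ) (c : ℝ),
                (∀ x ∈ V, f x ≤ c) ∧ ∀ x ∈ V, (f x = c ↔ (x = u ∨ x = v)))).Walk (b i) (b j)),
          (∀ i j, i < j → (p i j).IsPath) ∧
          (∀ i j k l, i < j → k < l → (i, j) ≠ (k, l) →
            ∀ x ∈ (p i j).support, x ∈ (p k l).support → x = b i ∨ x = b j) := by
  intro d V hV hconv hspan hsimp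
  refine Pool.Agent.Work.MP_5f857a_co.X.full d V hV ?_ hspan hsimp
  intro v hv
  have h := hconv v hv
  rwa [Finset.coe_erase] at h

end Pool.Agent.S09073
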