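import Pool.Statements.S09237
import Pool.Agent.Work.MP_661cb5_co.Main

set_option autoImplicit false
open Pool Pool.MP_661cb5_co

namespace Pool.Agent.S09237

/-- For every finite colouring of ℕ there is a sequence of positive integers y₀,y₁,… with every sum a₀y₀+…+a_{k−1}y_{k−1} the same colour, for any k≥1, all aᵢ∈{1,2} and first and last coefficient equal to 1. -/
theorem result :
    ∀ (r : ℕ) (c : ℕ → Fin r), ∃ y : ℕ → ℕ, (∀ n, 0 < y n) ∧ ∃ col : Fin r,
      ∀ k : ℕ, 1 ≤ k → ∀ a : ℕ → ℕ, (∀ i, a i = 1 ∨ a i = 2) → a 0 = 1 → a (k - 1) = 1 →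
        c (∑ i ∈ Finset.range k, a i * y i) = col := by
  exact fun r c => Pool.Agent.Work.MP_661cb5_co.main r c

end Pool.Agent.S09237
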