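import Pool.Statements.S10420
import Pool.Agent.Work.MP_9ddcd7_co.Final

set_option autoImplicit false
open Pool Pool.MP_9ddcd7_co

namespace Pool.Agent.S10420

/-- The negation of the preceding statement: For every natural number c there is a finite group G of order n that is not isomorphic to the automorphism group of any finite modular lattice with at most n^c elements. -/
theorem result :
    ¬ (∀ c : ℕ, ∃ (G : Type) (_ : Group G) (_ : Finite G),
      ∀ (L : Type) [Lattice L] [IsModularLattice L] [Finite L],
        Nat.card L ≤ Nat.card G ^ c → IsEmpty ((L ≃o L) ≃* G)) := by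
  intro h
  obtain ⟨G, hG, hfin, hL⟩ := h 10
  obtain ⟨L, hlat, hmod, hLfin, hcard, hiso⟩ :=
    @Pool.Agent.Work.MP_9ddcd7_co.exists_lattice G hG hfin
  obtain ⟨e⟩ := hiso
  exact (@hL L hlat hmod hLfin hcard).false e

end Pool.Agent.S10420
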