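import Pool.Statements.S10756
import Pool.Agent.Work.MP_acd137_co.Bound

set_option autoImplicit false
open Pool Pool.MP_acd137_co

namespace Pool.Agent.S10756

/-- The negation of the preceding statement: For any sequence of finite groups of orders tending to infinity: if the largest prime-power element order is o(∣G∣), then some graph with automorphism group isomorphic to G has o(∣G∣) vertices. -/
theorem result :
    ¬ (∀ (G : ℕ → Type) [∀ n, Group (G n)] [∀ n, Fintype (G n)],
      Filter.Tendsto (fun n => Fintype.card (G n)) Filter.atTop Filter.atTop →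
      (∀ δ : ℝ, 0 < δ → ∃ N : ℕ, ∀ n ≥ N, ∀ g : G n,
          IsPrimePow (orderOf g) → (orderOf g : ℝ) ≤ δ * (Fintype.card (G n) : ℝ)) →
      ∀ ε : ℝ, 0 < ε → ∃ N : ℕ, ∀ n ≥ N, ∃ k : ℕ, ∃ Γ : SimpleGraph (Fin k),
          Nonempty ((Γ ≃g Γ) ≃* G n) ∧ (k : ℝ) ≤ ε * (Fintype.card (G n) : ℝ)) := by
  intro h
  have hP : ∀ n : ℕ, ∃ p, n < p ∧ p.Prime ∧ p % 3 = 2 := by
    intro n
    obtain ⟨p, hp1, hp2, hp3⟩ := Nat.forall_exists_prime_gt_and_modEq n (q := 3) (a := 2)
      (by norm_num) (by norm_num)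
    exact ⟨p, hp1, hp2, hp3⟩
  choose P hP1 hP2 hP3 using hP
  haveI : ∀ n, Fact (P n).Prime := fun n => ⟨hP2 n⟩
  letI : ∀ n, Fintype (Pool.Agent.Work.MP_acd137_co.Gp (P n)) := fun n => Fintype.ofFinite _
  have hcard : ∀ n, Fintype.card (Pool.Agent.Work.MP_acd137_co.Gp (P n)) = 3 * P n ^ 2 := by
    intro n
    rw [← Nat.card_eq_fintype_card, Pool.Agent.Work.MP_acd137_co.card_Gp]
  obtain ⟨N, hN⟩ := h (fun n => Pool.Agent.Work.MP_acd137_co.Gp (P n)) (by
      refine Filter.tendsto_atTop_mono (f := fun n => n) ?_ Filter.tendsto_id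
      intro n
      change n ≤ Fintype.card (Pool.Agent.Work.MP_acd137_co.Gp (P n))
      rw [hcard]
      nlinarith [hP1 n])
    (by
      intro δ hδ
      obtain ⟨N, hN⟩ := exists_nat_gt (1 / δ)
      refine ⟨N, fun n hn g _ => ?_⟩
      have h1 : orderOf g ≤ 3 * P n :=
        Nat.le_of_dvd (by have := hP1 n; omega)
          (orderOf_dvd_of_pow_eq_one (Pool.Agent.Work.MP_acd137_co.pow_Gp (P n) g))
      have h2 : (orderOf g : ℝ) ≤ 3 * (P n : ℝ) := by exact_mod_cast h1
      have h3 : 1 / δ < (P n : ℝ) := by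
        refine hN.trans ?_
        exact_mod_cast lt_of_le_of_lt hn (hP1 n)
      have h4 : 1 < δ * (P n : ℝ) := by
        rw [div_lt_iff₀ hδ] at h3
        linarith
      have h5 : (0 : ℝ) < P n := by
        have : 0 < P n := by have := hP1 n; omega
        exact_mod_cast this
      rw [hcard]
      push_cast
      nlinarith)
    (1 / 4) (by norm_num)
  obtain ⟨k, Γ, ⟨e⟩, hk⟩ := hN N le_rfl
  have h1 := Pool.Agent.Work.MP_acd137_co.main_bound e (hP3 N)
  rw [Fintype.card_fin] at h1
  rw [hcard] at hk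
  have h2 : ((P N : ℝ)) ^ 2 ≤ k := by exact_mod_cast h1
  have h5 : (0 : ℝ) < P N := by
    have : 0 < P N := by have := hP1 N; omega
    exact_mod_cast this
  push_cast at hk
  nlinarith [pow_pos h5 2]

end Pool.Agent.S10756
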