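import Pool.Statements.S11354
import Pool.Agent.Work.MP_2e8aec_co.Main

set_option autoImplicit false
open Pool Pool.MP_c6b96b_co

namespace Pool.Agent.S11354

/-- The negation of the preceding statement: If the edges of a complete bipartite graph are r-coloured (r ≥ 2) so that each colour class has biclique components, every vertex meets every colour, and no colour-neighbourhood strictly contains another, then at most 2r−2 monochromatic components cover all vertices. -/
theorem result :
    ¬ (∀ (m n r : ℕ), 0 < m → 0 < n → 2 ≤ r → ∀ c : Fin m → Fin n → Fin r,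
      (∀ x x' : Fin m, ∀ y y' : Fin n,
          c x y = c x' y → c x' y' = c x' y → c x y' = c x y) →
      (∀ (x : Fin m) (i : Fin r), ∃ y : Fin n, c x y = i) →
      (∀ (y : Fin n) (i : Fin r), ∃ x : Fin m, c x y = i) →
      (∀ (i j : Fin r) (y y' : Fin n),
          ¬ (({x : Fin m | c x y = i} : Set (Fin m)) ⊂ {x : Fin m | c x y' = j})) →
      (∀ (i j : Fin r) (x x' : Fin m),
          ¬ (({y : Fin n | c x y = i} : Set (Fin n)) ⊂ {y : Fin n | c x' y = j})) →
      ∃ S : Finset (Fin r × Fin n), S.card ≤ 2 * r - 2 ∧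
        (∀ x : Fin m, ∃ p ∈ S, c x p.2 = p.1) ∧
        (∀ y : Fin n, ∃ p ∈ S, ∃ x : Fin m, c x p.2 = p.1 ∧ c x y = p.1)) := by
  exact Pool.Agent.Work.MP_2e8aec_co.target_B

end Pool.Agent.S11354
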