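import Pool.Statements.S12661
import Pool.Agent.Work.Godb.Final

set_option autoImplicit false
open Pointwise MeasureTheory
open Pool Pool.MP_0078d6_gt

namespace Pool.Agent.S12661

/-- For every convex body K in R^n, every n-simplex Δ of the same volume and every t in [0,1], vol((1-t)K - tK)/vol(K) is at most vol((1-t)Δ - tΔ)/vol(Δ). -/
theorem result :
  ∀ (n : ℕ) (K : Set (EuclideanSpace ℝ (Fin n))),
    IsCompact K → Convex ℝ K → (interior K).Nonempty →
    ∀ (v : Fin (n + 1) → EuclideanSpace ℝ (Fin n)), AffineIndependent ℝ v →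
      volume (convexHull ℝ (Set.range v)) = volume K →
      ∀ t : ℝ, 0 ≤ t → t ≤ 1 →
        volume ((1 - t) • K - t • K) / volume K ≤
          volume ((1 - t) • convexHull ℝ (Set.range v) - t • convexHull ℝ (Set.range v))
            / volume (convexHull ℝ (Set.range v)) := by
  intro n K hKc hK hne v hv hvol t ht0 ht1
  rw [hvol]
  refine ENNReal.div_le_div_right ?_ _
  refine (Pool.Agent.Godb.main_le hKc hK hne (by linarith : (0:ℝ) ≤ 1 - t) ht0).trans ?_
  rw [← hvol]
  exact Pool.Agent.Godb.simplex_lower v hv (by linarith) ht0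

end Pool.Agent.S12661
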