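import Pool.Statements.S12746
import Pool.Agent.Work.MP_0e28f3_gt.Final


set_option autoImplicit false
open Pool Pool.MP_0e28f3_gt

namespace Pool.Agent.S12746

/-- The negation of the preceding statement: For every complex k, some open set of ℂ³ meets the level set x²+y²+z²−xyz−2=k, and each of its points on that level set fails the Bowditch conditions (no simple-curve trace in [−2,2], only finitely many simple curves with ∣trace∣ at most 2). -/
theorem result :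
    ¬ (∀ k : ℂ, ∃ U : Set (Fin 3 → ℂ), IsOpen U ∧
    (∃ v ∈ U, v 0 ^ 2 + v 1 ^ 2 + v 2 ^ 2 - v 0 * v 1 * v 2 - 2 = k) ∧
    ∀ v ∈ U, v 0 ^ 2 + v 1 ^ 2 + v 2 ^ 2 - v 0 * v 1 * v 2 - 2 = k →
      ¬ ∃ A B : Matrix.SpecialLinearGroup (Fin 2) ℂ,
        (A : Matrix (Fin 2) (Fin 2) ℂ).trace = v 0 ∧
        (B : Matrix (Fin 2) (Fin 2) ℂ).trace = v 1 ∧
        ((A * B : Matrix.SpecialLinearGroup (Fin 2) ℂ) : Matrix (Fin 2) (Fin 2) ℂ).trace = v 2 ∧
        (∀ w : FreeGroup (Fin 2),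
          (∃ φ : FreeGroup (Fin 2) ≃* FreeGroup (Fin 2), φ (FreeGroup.of 0) = w) →
          ¬ ((((FreeGroup.lift ![A, B] w : Matrix.SpecialLinearGroup (Fin 2) ℂ) :
                Matrix (Fin 2) (Fin 2) ℂ).trace).im = 0 ∧
             |(((FreeGroup.lift ![A, B] w : Matrix.SpecialLinearGroup (Fin 2) ℂ) :
                Matrix (Fin 2) (Fin 2) ℂ).trace).re| ≤ 2)) ∧
        ∃ S : Finset (FreeGroup (Fin 2)), ∀ w : FreeGroup (Fin 2),
          (∃ φ : FreeGroup (Fin 2) ≃* FreeGroup (Fin 2), φ (FreeGroup.of 0) = w) →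
          ‖(((FreeGroup.lift ![A, B] w : Matrix.SpecialLinearGroup (Fin 2) ℂ) :
                Matrix (Fin 2) (Fin 2) ℂ).trace)‖ ≤ 2 →
          ∃ s ∈ S, IsConj w s ∨ IsConj w s⁻¹) := by
  intro h
  obtain ⟨U, hU, ⟨v, hv, hvk⟩, hno⟩ := h 1000002
  obtain ⟨A, B, h1, h2, h3, h4⟩ := dense_BQ U hU v hv (by
    rw [level]; linear_combination hvk)
  refine hno (tv A B) h1 (by rw [level] at h2; linear_combination h2)
    ⟨A, B, rfl, rfl, rfl, h3, h4⟩

end Pool.Agent.S12746
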