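import Pool.Statements.S12992

set_option autoImplicit false
open Pool Pool.MP_327467_gt

namespace Pool.Agent.S12992

open Topology Filter Set TopologicalSpace

/-- Nodes of the tree: finite sequences of reals, the most recent entry first. -/
def Node : Type := List ℝ

/-- The cone of all extensions of `s`. -/
def cone (s : List ℝ) : Set (List ℝ) := {t | s <:+ t}

/-- Openness predicate. -/
def OpenL (V : Set (List ℝ)) : Prop :=
  (∀ x s, (x :: s) ∈ V → s ∈ V) ∧
  (∀ x s, (x :: s) ∈ V → ∀ᶠ y in 𝓝[≠] x, cone (y :: s) ⊆ V)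

theorem openL_univ : OpenL Set.univ :=
  ⟨fun _ _ _ => trivial, fun _ _ _ => Filter.Eventually.of_forall fun _ => Set.subset_univ _⟩

theorem openL_inter {V W : Set (List ℝ)} (hV : OpenL V) (hW : OpenL W) : OpenL (V ∩ W) := by
  refine ⟨fun x s h => ⟨hV.1 x s h.1, hW.1 x s h.2⟩, fun x s h => ?_⟩
  filter_upwards [hV.2 x s h.1, hW.2 x s h.2] with y h1 h2
  exact Set.subset_inter h1 h2

theorem openL_sUnion {S : Set (Set (List ℝ))} (h : ∀ V ∈ S, OpenL V) : OpenL (⋃₀ S) := by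
  refine ⟨?_, ?_⟩
  · rintro x s ⟨V, hV, hx⟩
    exact ⟨V, hV, (h V hV).1 x s hx⟩
  · rintro x s ⟨V, hV, hx⟩
    filter_upwards [(h V hV).2 x s hx] with y hy
    exact hy.trans (Set.subset_sUnion_of_mem hV)

instance : TopologicalSpace Node where
  IsOpen := OpenL
  isOpen_univ := openL_univ
  isOpen_inter _ _ := openL_inter
  isOpen_sUnion _ := openL_sUnion

/-- Remove the leaves of `V`. -/
def core (V : Set (List ℝ)) : Set (List ℝ) := {s | ∃ x, (x :: s) ∈ V}

theorem core_subset {V : Set (List ℝ)} (hV : OpenL V) : core V ⊆ V := by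
  rintro s ⟨x, hx⟩
  exact hV.1 x s hx

theorem core_open {V : Set (List ℝ)} (hV : OpenL V) : OpenL (core V) := by
  refine ⟨?_, ?_⟩
  · rintro x s ⟨y, hy⟩
    exact ⟨x, hV.1 y _ hy⟩
  · rintro x s ⟨y, hy⟩
    filter_upwards [hV.2 x s (hV.1 y _ hy)] with z hz t ht
    exact ⟨0, hz (ht.trans (List.suffix_cons 0 t))⟩

theorem core_mono {V W : Set (List ℝ)} (h : V ⊆ W) : core V ⊆ core W := by
  rintro s ⟨x, hx⟩
  exact ⟨x, h hx⟩

theorem core_core {V : Set (List ℝ)} (hV : OpenL V) : core (core V) = core V := by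
  refine Set.Subset.antisymm (core_subset (core_open hV)) ?_
  rintro s ⟨x, hx⟩
  obtain ⟨y, hy⟩ := (hV.2 x s hx).exists
  exact ⟨y, ⟨0, hy (List.suffix_cons 0 (y :: s))⟩⟩

/-- The quotient lattice: open sets without leaves. -/
structure Q where
  /-- the underlying set of nodes -/
  carrier : Set (List ℝ)
  isOpen : OpenL carrier
  noLeaf : core carrier = carrier

theorem Q.ext' {V W : Q} (h : V.carrier = W.carrier) : V = W := by
  cases V; cases W; cases h; rfl

instance : PartialOrder Q where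
  le V W := V.carrier ⊆ W.carrier
  le_refl _ := Set.Subset.refl _
  le_trans _ _ _ := Set.Subset.trans
  le_antisymm _ _ h h' := Q.ext' (Set.Subset.antisymm h h')

theorem core_sUnion (S : Set (Set (List ℝ))) : core (⋃₀ S) = ⋃ V ∈ S, core V := by
  ext s
  simp only [Set.mem_iUnion]
  constructor
  · rintro ⟨x, V, hV, hx⟩
    exact ⟨V, hV, x, hx⟩
  · rintro ⟨V, hV, x, hx⟩
    exact ⟨x, V, hV, hx⟩

instance : SupSet Q where
  sSup S := ⟨⋃₀ (Q.carrier '' S), openL_sUnion (by rintro _ ⟨V, _, rfl⟩; exact V.isOpen), by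
    rw [core_sUnion, Set.sUnion_eq_biUnion]
    refine Set.iUnion_congr fun V => Set.iUnion_congr fun hV => ?_
    obtain ⟨W, _, rfl⟩ := hV
    exact W.noLeaf⟩

theorem Q.isLUB_sSup' (S : Set Q) : IsLUB S (sSup S) := by
  constructor
  · intro V hV
    exact Set.subset_sUnion_of_mem ⟨V, hV, rfl⟩
  · intro W hW
    refine Set.sUnion_subset ?_
    rintro _ ⟨V, hV, rfl⟩
    exact hW hV

noncomputable instance instCL : CompleteLattice Q := completeLatticeOfSup Q Q.isLUB_sSup'

theorem Q_le {V W : Q} : V ≤ W ↔ V.carrier ⊆ W.carrier := Iff.rfl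

/-- The underlying map of the homomorphism. -/
def phi (V : Opens Node) : Q := ⟨core V.1, core_open V.2, core_core V.2⟩

theorem phi_carrier (V : Opens Node) : (phi V).carrier = core V.1 := rfl

theorem le_phi_iff (V : Opens Node) (Z : Q) : Z ≤ phi V ↔ Z.carrier ⊆ V.1 := by
  rw [Q_le, phi_carrier]
  constructor
  · intro h
    exact h.trans (core_subset V.2)
  · intro h
    rw [← Z.noLeaf]
    exact core_mono h

noncomputable def Phi : CompleteLatticeHom (Opens Node) Q where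
  toFun := phi
  map_sInf' := by
    intro S
    refine (IsGLB.sInf_eq ?_).symm
    constructor
    · rintro _ ⟨V, hV, rfl⟩
      rw [Q_le]
      exact core_mono (sInf_le hV : sInf S ≤ V)
    · intro Z hZ
      rw [le_phi_iff]
      have : (⟨Z.carrier, Z.isOpen⟩ : Opens Node) ≤ sInf S := by
        refine le_sInf fun V hV => ?_
        exact (le_phi_iff V Z).1 (hZ ⟨V, hV, rfl⟩)
      exact this
  map_sSup' := by
    intro S
    refine (IsLUB.sSup_eq ?_).symm
    constructor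
    · rintro _ ⟨V, hV, rfl⟩
      rw [Q_le]
      exact core_mono (le_sSup hV : V ≤ sSup S)
    · intro Z hZ
      rw [Q_le]
      rintro s ⟨x, hx⟩
      obtain ⟨V, hV, hx⟩ := Opens.mem_sSup.1 (show (show Node from (x :: s)) ∈ sSup S from hx)
      have h1 : phi V ≤ Z := hZ ⟨V, hV, rfl⟩
      exact h1 ⟨x, hx⟩

theorem Phi_surj : Function.Surjective Phi := by
  intro Z
  refine ⟨⟨Z.carrier, Z.isOpen⟩, ?_⟩
  exact Q.ext' Z.noLeaf

/-- Adding, over the node `s`, all cones with first step in the open set `O`. -/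
def add (B : Set (List ℝ)) (s : List ℝ) (O : Set ℝ) : Set (List ℝ) :=
  B ∪ {t | ∃ y ∈ O, (y :: s) <:+ t}

theorem add_open {B : Set (List ℝ)} {s : List ℝ} {O : Set ℝ} (hs : s ∈ B) (hO : IsOpen O)
    (h1 : ∀ x u, (x :: u) ∈ B → u ∈ B)
    (h2 : ∀ x u, (x :: u) ∈ B → ∀ᶠ y in 𝓝[≠] x, cone (y :: u) ⊆ B) :
    OpenL (add B s O) := by
  refine ⟨?_, ?_⟩
  · rintro x u (h | ⟨y, hy, h⟩)
    · exact Or.inl (h1 x u h)
    · rcases List.suffix_cons_iff.1 h with h | h
      · have : s = u := by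
          injection h
        subst this
        exact Or.inl hs
      · exact Or.inr ⟨y, hy, h⟩
  · rintro x u (h | ⟨y, hy, h⟩)
    · filter_upwards [h2 x u h] with y hy
      exact hy.trans Set.subset_union_left
    · rcases List.suffix_cons_iff.1 h with h | h
      · injection h with h3 h4
        subst h3 h4
        have : ∀ᶠ z in 𝓝[≠] y, z ∈ O := mem_nhdsWithin_of_mem_nhds (hO.mem_nhds hy)
        filter_upwards [this] with z hz t ht
        exact Or.inr ⟨z, hz, ht⟩
      · refine Filter.Eventually.of_forall fun z t ht => Or.inr ⟨y, hy, ?_⟩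
        exact h.trans ((List.suffix_cons z u).trans ht)

theorem core_add {B : Set (List ℝ)} {s : List ℝ} {O : Set ℝ} (hO : O.Nonempty)
    (hB : ∀ u ∈ B, u ≠ s → ∃ x, (x :: u) ∈ B) (hop : OpenL (add B s O)) :
    core (add B s O) = add B s O := by
  refine Set.Subset.antisymm (core_subset hop) ?_
  obtain ⟨y0, hy0⟩ := hO
  rintro u (h | ⟨y, hy, h⟩)
  · by_cases hu : u = s
    · subst hu
      exact ⟨y0, Or.inr ⟨y0, hy0, List.suffix_rfl⟩⟩
    · obtain ⟨x, hx⟩ := hB u h hu
      exact ⟨x, Or.inl hx⟩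
  · exact ⟨0, Or.inr ⟨y, hy, h.trans (List.suffix_cons 0 u)⟩⟩

theorem suffix_inj {a b : ℝ} {s t : List ℝ} (h1 : (a :: s) <:+ t) (h2 : (b :: s) <:+ t) : a = b := by
  have h3 := List.suffix_of_suffix_length_le h1 h2 (by simp)
  have h4 := h3.eq_of_length (by simp)
  injection h4

theorem add_inter {B : Set (List ℝ)} {s : List ℝ} {O O' : Set ℝ} (hd : Disjoint O O') :
    add B s O ∩ add B s O' ⊆ B := by
  rintro t ⟨h | ⟨y, hy, h⟩, h' | ⟨y', hy', h'⟩⟩
  · exact h
  · exact h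
  · exact h'
  · have := suffix_inj h h'
    subst this
    exact (Set.disjoint_left.1 hd hy hy').elim

theorem exists_min {P : Set (List ℝ)} (t : List ℝ) (ht : t ∉ P) :
    ∃ s, s ∉ P ∧ ∀ x u, s = x :: u → u ∈ P := by
  induction t with
  | nil => exact ⟨[], ht, fun x u h => by simp at h⟩
  | cons a t ih =>
    by_cases h : t ∈ P
    · refine ⟨a :: t, ht, fun x u hu => ?_⟩
      injection hu with h1 h2
      exact h2 ▸ h
    · exact ih h

theorem no_prime (P : Q) (hP : P ≠ ⊤) :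
    ∃ V W : Q, V ⊓ W ≤ P ∧ ¬ V ≤ P ∧ ¬ W ≤ P := by
  have hPo : OpenL P.carrier := P.isOpen
  have hPpr : ∀ u ∈ P.carrier, ∃ x, (x :: u : List ℝ) ∈ P.carrier := by
    intro u hu
    rw [← P.noLeaf] at hu
    exact hu
  have hne : ∃ t : List ℝ, t ∉ P.carrier := by
    by_contra hcon
    push Not at hcon
    apply hP
    refine le_antisymm le_top ?_
    intro t _
    exact hcon t
  -- a general way to conclude
  have key : ∀ (B : Set (List ℝ)) (s : List ℝ) (O O' : Set ℝ), IsOpen O → IsOpen O' →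
      O.Nonempty → O'.Nonempty → Disjoint O O' → s ∈ B →
      (∀ x u, (x :: u) ∈ B → u ∈ B) →
      (∀ x u, (x :: u) ∈ B → ∀ᶠ y in 𝓝[≠] x, cone (y :: u) ⊆ B) →
      (∀ u ∈ B, u ≠ s → ∃ x, (x :: u) ∈ B) →
      (∀ Z : Set (List ℝ), core Z = Z → Z ⊆ B → Z ⊆ P.carrier) →
      (∃ y ∈ O, ∃ t, (y :: s) <:+ t ∧ t ∉ P.carrier) →
      (∃ y ∈ O', ∃ t, (y :: s) <:+ t ∧ t ∉ P.carrier) →
      ∃ V W : Q, V ⊓ W ≤ P ∧ ¬ V ≤ P ∧ ¬ W ≤ P := by
    intro B s O O' hO hO' hOn hOn' hd hs h1 h2 h3 h4 h5 h6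
    have o1 := add_open hs hO h1 h2
    have o2 := add_open hs hO' h1 h2
    refine ⟨⟨add B s O, o1, core_add hOn h3 o1⟩, ⟨add B s O', o2, core_add hOn' h3 o2⟩, ?_, ?_, ?_⟩
    · set V : Q := ⟨add B s O, o1, core_add hOn h3 o1⟩ with hV
      set W : Q := ⟨add B s O', o2, core_add hOn' h3 o2⟩ with hW
      have i1 : (V ⊓ W : Q).carrier ⊆ add B s O := (inf_le_left : V ⊓ W ≤ V)
      have i2 : (V ⊓ W : Q).carrier ⊆ add B s O' := (inf_le_right : V ⊓ W ≤ W)
      exact h4 _ (V ⊓ W : Q).noLeaf ((Set.subset_inter i1 i2).trans (add_inter hd))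
    · intro hle
      obtain ⟨y, hy, t, ht, htP⟩ := h5
      exact htP (hle (Or.inr ⟨y, hy, ht⟩ : t ∈ add B s O))
    · intro hle
      obtain ⟨y, hy, t, ht, htP⟩ := h6
      exact htP (hle (Or.inr ⟨y, hy, ht⟩ : t ∈ add B s O'))
  by_cases hcase : ∃ s : List ℝ, s ∈ P.carrier ∧ ∃ x x' : ℝ, x ≠ x' ∧
      (∃ t, (x :: s) <:+ t ∧ t ∉ P.carrier) ∧ (∃ t, (x' :: s) <:+ t ∧ t ∉ P.carrier)
  · obtain ⟨s, hs, x, x', hxx, hx, hx'⟩ := hcase
    obtain ⟨O, O', hO, hO', hxO, hxO', hd⟩ := t2_separation hxx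
    exact key P.carrier s O O' hO hO' ⟨x, hxO⟩ ⟨x', hxO'⟩ hd hs hPo.1 hPo.2
      (fun u hu _ => hPpr u hu) (fun Z _ h => h) ⟨x, hxO, hx⟩ ⟨x', hxO', hx'⟩
  · obtain ⟨t, ht⟩ := hne
    obtain ⟨s, hsP, hmin⟩ := exists_min t ht
    have hext : ∀ t, s <:+ t → t ∉ P.carrier := by
      intro t hst htP
      apply hsP
      obtain ⟨l, rfl⟩ := hst
      induction l with
      | nil => exact htP
      | cons a l ih => exact ih (hPo.1 a _ htP)
    refine key (P.carrier ∪ {s}) s (Set.Iio 0) (Set.Ioi 0) isOpen_Iio isOpen_Ioi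
      ⟨-1, by simp⟩ ⟨1, by simp⟩ ?_ (Or.inr rfl) ?_ ?_ ?_ ?_ ?_ ?_
    · rw [Set.disjoint_left]
      intro a ha ha'
      exact lt_asymm (Set.mem_Iio.1 ha) (Set.mem_Ioi.1 ha')
    · rintro x u (h | h)
      · exact Or.inl (hPo.1 x u h)
      · exact Or.inl (hmin x u h.symm)
    · rintro x u (h | h)
      · filter_upwards [hPo.2 x u h] with y hy
        exact hy.trans Set.subset_union_left
      · have hu : u ∈ P.carrier := hmin x u h.symm
        have hx : x :: u = s := h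
        filter_upwards [self_mem_nhdsWithin] with y hy t ht
        left
        by_contra htP
        exact hcase ⟨u, hu, y, x, hy, ⟨t, ht, htP⟩, ⟨s, by rw [hx], hsP⟩⟩
    · rintro u (h | h) hus
      · obtain ⟨x, hx⟩ := hPpr u h
        exact ⟨x, Or.inl hx⟩
      · exact (hus h).elim
    · intro Z hZ hZB u hu
      rcases hZB hu with h | h
      · exact h
      · exfalso
        have hus : u = s := h
        subst hus
        rw [← hZ] at hu
        obtain ⟨x, hx⟩ := hu
        rcases hZB hx with h' | h'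
        · exact hsP (hPo.1 x _ h')
        · have h'' : x :: u = u := h'
          have := congrArg List.length h''
          simp at this
    · exact ⟨-1, by simp, (-1) :: s, List.suffix_rfl, hext _ (List.suffix_cons _ _)⟩
    · exact ⟨1, by simp, 1 :: s, List.suffix_rfl, hext _ (List.suffix_cons _ _)⟩

theorem top_ne_bot_Q : (⊤ : Q) ≠ ⊥ := by
  intro h
  have h1 : phi ⊤ ≤ (⊥ : Q) := h ▸ le_top
  have h2 : (⊥ : Q) ≤ phi ⊥ := bot_le
  have h3 : core (⊤ : Opens Node).1 ⊆ core (⊥ : Opens Node).1 := le_trans h1 h2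
  have h4 : ([] : List ℝ) ∈ core (⊤ : Opens Node).1 := ⟨0, trivial⟩
  obtain ⟨x, hx⟩ := h3 h4
  exact hx

theorem result :
    ¬ (∀ (X : Type) [TopologicalSpace X] (L' : Type) [CompleteLattice L']
      (φ : CompleteLatticeHom (TopologicalSpace.Opens X) L'),
      Function.Surjective φ →
        ∃ (Y : Type) (_ : TopologicalSpace Y),
          Nonempty (L' ≃o TopologicalSpace.Opens Y)) := by
  intro H
  obtain ⟨Y, tY, ⟨e⟩⟩ := H Node Q Phi Phi_surj
  have hne : (⊤ : Opens Y) ≠ ⊥ := by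
    intro h
    apply top_ne_bot_Q
    have := congrArg e.symm h
    rwa [OrderIso.map_top, OrderIso.map_bot] at this
  have hY : ∃ y : Y, y ∈ (⊤ : Opens Y) := by
    by_contra hcon
    push Not at hcon
    apply hne
    ext y
    exact ⟨fun h => (hcon y h).elim, fun h => (h : y ∈ (∅ : Set Y)).elim⟩
  obtain ⟨y, -⟩ := hY
  let P0 : Opens Y := ⟨(closure {y})ᶜ, isClosed_closure.isOpen_compl⟩
  have hyP0 : y ∉ P0 := fun h => h (subset_closure rfl)
  have hmem : ∀ U : Opens Y, ¬ U ≤ P0 → y ∈ U := by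
    intro U hU
    by_contra hy
    apply hU
    intro z hz hzc
    obtain ⟨w, hw, hw'⟩ := mem_closure_iff.1 hzc U.1 U.2 hz
    have : w = y := hw'
    exact hy (this ▸ hw)
  have hP : e.symm P0 ≠ ⊤ := by
    intro h
    have h2 : P0 = ⊤ := by
      have := congrArg e h
      rwa [e.apply_symm_apply, OrderIso.map_top] at this
    rw [h2] at hyP0
    exact hyP0 trivial
  obtain ⟨V, W, h1, h2, h3⟩ := no_prime _ hP
  have h2' : y ∈ e V := hmem _ fun h => h2 ((e.le_symm_apply).2 h)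
  have h3' : y ∈ e W := hmem _ fun h => h3 ((e.le_symm_apply).2 h)
  have h1' : e V ⊓ e W ≤ P0 := by
    rw [← OrderIso.map_inf]
    exact (e.le_symm_apply).1 h1
  exact hyP0 (h1' ⟨h2', h3'⟩)

end Pool.Agent.S12992
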