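-- Proof of frozen statement S13557: the region 3 x ^ 2 + 5 y ^ 2 ≤ 12 with the two points (1, 0) and (-1, 0), exponent -2.
import Pool.Statements.S13557

set_option autoImplicit false
open Pool Pool.MP_8df793_gt

namespace Pool.Agent.S13557

/-- The quadratic function whose sublevel set is the elliptical region. -/
def F (z : EuclideanSpace ℝ (Fin 2)) : ℝ := 3 * z 0 ^ 2 + 5 * z 1 ^ 2

lemma F_cont : Continuous F := by
  unfold F
  fun_prop

/-- The elliptical region `3 x ^ 2 + 5 y ^ 2 ≤ 12`. -/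
def E : Set (EuclideanSpace ℝ (Fin 2)) := {z | F z ≤ 12}

lemma E_closed : IsClosed E := isClosed_le F_cont continuous_const

lemma E_convex : Convex ℝ E := by
  intro x hx y hy a b ha hb hab
  have hx' : 3 * x 0 ^ 2 + 5 * x 1 ^ 2 ≤ 12 := hx
  have hy' : 3 * y 0 ^ 2 + 5 * y 1 ^ 2 ≤ 12 := hy
  change 3 * (a • x + b • y) 0 ^ 2 + 5 * (a • x + b • y) 1 ^ 2 ≤ 12
  simp only [PiLp.add_apply, PiLp.smul_apply, smul_eq_mul]
  have hb' : b = 1 - a := by linarith
  subst hb'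
  have h1 : 0 ≤ a * (1 - a) := mul_nonneg ha hb
  nlinarith [mul_nonneg h1 (sq_nonneg (x 0 - y 0)), mul_nonneg h1 (sq_nonneg (x 1 - y 1)),
    mul_le_mul_of_nonneg_left hx' ha, mul_le_mul_of_nonneg_left hy' hb]

lemma E_bounded : Bornology.IsBounded E := by
  refine (Metric.isBounded_closedBall (x := (0 : EuclideanSpace ℝ (Fin 2))) (r := 2)).subset ?_
  intro z hz
  have hz' : 3 * z 0 ^ 2 + 5 * z 1 ^ 2 ≤ 12 := hz
  rw [mem_closedBall_zero_iff, EuclideanSpace.norm_eq, Fin.sum_univ_two]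
  simp only [Real.norm_eq_abs, sq_abs]
  rw [show (2 : ℝ) = Real.sqrt 4 by
    rw [show (4 : ℝ) = 2 ^ 2 by norm_num]; exact (Real.sqrt_sq (by norm_num)).symm]
  apply Real.sqrt_le_sqrt
  nlinarith [sq_nonneg (z 1)]

lemma E_compact : IsCompact E := Metric.isCompact_of_isClosed_isBounded E_closed E_bounded

lemma frontier_E {z : EuclideanSpace ℝ (Fin 2)} (hz : z ∈ frontier E) :
    3 * z 0 ^ 2 + 5 * z 1 ^ 2 = 12 :=
  frontier_le_subset_eq F_cont continuous_const hz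

lemma mem_interior {z : EuclideanSpace ℝ (Fin 2)} (hz : 3 * z 0 ^ 2 + 5 * z 1 ^ 2 < 12) :
    z ∈ interior E := by
  have ho : IsOpen {w : EuclideanSpace ℝ (Fin 2) | F w < 12} := isOpen_lt F_cont continuous_const
  exact interior_maximal (fun w (hw : F w < 12) => le_of_lt hw) ho hz

/-- The purely algebraic heart: for a chord through `(s, 0)` with `s ^ 2 = 1`. -/
lemma key {s a b x0 x1 y0 y1 : ℝ} (hs : s ^ 2 = 1) (ha : 0 ≤ a) (hb : 0 ≤ b) (hab : a + b = 1)
    (hx : 3 * x0 ^ 2 + 5 * x1 ^ 2 = 12) (hy : 3 * y0 ^ 2 + 5 * y1 ^ 2 = 12)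
    (h0 : a * x0 + b * y0 = s) (h1 : a * x1 + b * y1 = 0) :
    ((x0 - s) ^ 2 + x1 ^ 2)⁻¹ + ((y0 - s) ^ 2 + y1 ^ 2)⁻¹ = 10 / 9 := by
  obtain ⟨X, rfl⟩ : ∃ X, x0 = X + s := ⟨x0 - s, by ring⟩
  obtain ⟨Y, rfl⟩ : ∃ Y, y0 = Y + s := ⟨y0 - s, by ring⟩
  simp only [add_sub_cancel_right]
  have hb' : b = 1 - a := by linarith
  subst hb'
  have h0' : a * X + (1 - a) * Y = 0 := by linarith
  have hx' : 3 * X ^ 2 + 5 * x1 ^ 2 + 6 * (s * X) = 9 := by nlinarith
  have hy' : 3 * Y ^ 2 + 5 * y1 ^ 2 + 6 * (s * Y) = 9 := by nlinarith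
  have ha0 : a ≠ 0 := by
    rintro rfl
    have e1 : Y = 0 := by linarith
    have e2 : y1 = 0 := by linarith
    rw [e1, e2] at hy'
    norm_num at hy'
  have hb0 : (1 - a) ≠ 0 := by
    intro h
    have ha1 : a = 1 := by linarith
    subst ha1
    have e1 : X = 0 := by linarith
    have e2 : x1 = 0 := by linarith
    rw [e1, e2] at hx'
    norm_num at hx'
  have hapos : 0 < a := lt_of_le_of_ne ha (Ne.symm ha0)
  have hbpos : 0 < 1 - a := lt_of_le_of_ne hb (Ne.symm hb0)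
  set k : ℝ := a / (1 - a) with hk
  have hkpos : 0 < k := div_pos hapos hbpos
  have hY : Y = -(k * X) := by
    rw [hk]; field_simp; linarith
  have hy1 : y1 = -(k * x1) := by
    rw [hk]; field_simp; linarith
  rw [hY, hy1] at hy' ⊢
  set Q : ℝ := 3 * X ^ 2 + 5 * x1 ^ 2 with hQ
  have hsX : 6 * (s * X) = 9 - Q := by linarith
  have hfac : (k + 1) * (k * Q - 9) = 0 := by
    have : k ^ 2 * Q - k * (6 * (s * X)) = 9 := by rw [hQ]; linarith
    rw [hsX] at this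
    linarith
  have hkQ : k * Q = 9 := by
    rcases mul_eq_zero.mp hfac with h | h
    · linarith
    · linarith
  have hX2 : 36 * X ^ 2 = (9 - Q) ^ 2 := by
    rw [← hsX]
    have : (6 * (s * X)) ^ 2 = 36 * (s ^ 2 * X ^ 2) := by ring
    rw [this, hs]; ring
  have hN : X ^ 2 + x1 ^ 2 = (81 + Q ^ 2) / 90 := by
    nlinarith
  have hNpos : 0 < X ^ 2 + x1 ^ 2 := by
    rw [hN]; positivity
  have hN2 : (-(k * X)) ^ 2 + (-(k * x1)) ^ 2 = k ^ 2 * (X ^ 2 + x1 ^ 2) := by ring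
  rw [hN2, hN]
  have hQpos : 0 < Q := by
    by_contra h
    push Not at h
    have : k * Q ≤ 0 := mul_nonpos_of_nonneg_of_nonpos hkpos.le h
    linarith
  have hkQ' : k = 9 / Q := by
    field_simp; linarith
  rw [hkQ']
  have h81 : (81 + Q ^ 2) ≠ 0 := by positivity
  field_simp
  ring

lemma rpow_neg_two {t : ℝ} : Real.sqrt t ^ (-2 : ℝ) = (Real.sqrt t ^ 2)⁻¹ := by
  rw [Real.rpow_neg (Real.sqrt_nonneg t)]
  norm_num

lemma const_at {s : ℝ} (hs : s ^ 2 = 1) :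
    ∀ x ∈ frontier E, ∀ y ∈ frontier E, (!₂[s, 0] : EuclideanSpace ℝ (Fin 2)) ∈ segment ℝ x y →
      dist x (!₂[s, 0] : EuclideanSpace ℝ (Fin 2)) ^ (-2 : ℝ) +
        dist y (!₂[s, 0] : EuclideanSpace ℝ (Fin 2)) ^ (-2 : ℝ) = 10 / 9 := by
  intro x hx y hy hseg
  obtain ⟨a, b, ha, hb, hab, hp⟩ := hseg
  have h0 : a * x 0 + b * y 0 = s := by
    have := congrArg (fun z : EuclideanSpace ℝ (Fin 2) => z 0) hp
    simpa using this
  have h1 : a * x 1 + b * y 1 = 0 := by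
    have := congrArg (fun z : EuclideanSpace ℝ (Fin 2) => z 1) hp
    simpa using this
  have hkey := key hs ha hb hab (frontier_E hx) (frontier_E hy) h0 h1
  rw [EuclideanSpace.dist_eq, EuclideanSpace.dist_eq, rpow_neg_two, rpow_neg_two,
    Real.sq_sqrt (by positivity), Real.sq_sqrt (by positivity)]
  simp only [Fin.sum_univ_two, Real.dist_eq, sq_abs]
  simpa using hkey

/-- There is a real α other than −1 and 0 and a compact convex plane region with two distinct interior points, each having ∣x−p∣^α + ∣y−p∣^α constant over all boundary chords [x,y] through it. -/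
theorem result :
    ∃ α : ℝ, α ≠ -1 ∧ α ≠ 0 ∧
      ∃ K : Set (EuclideanSpace ℝ (Fin 2)),
        Convex ℝ K ∧ IsCompact K ∧ (interior K).Nonempty ∧
        ∃ p q : EuclideanSpace ℝ (Fin 2),
          p ∈ interior K ∧ q ∈ interior K ∧ p ≠ q ∧
          (∃ c : ℝ, ∀ x ∈ frontier K, ∀ y ∈ frontier K,
              p ∈ segment ℝ x y → dist x p ^ α + dist y p ^ α = c) ∧
          (∃ c : ℝ, ∀ x ∈ frontier K, ∀ y ∈ frontier K,
              q ∈ segment ℝ x y → dist x q ^ α + dist y q ^ α = c) := by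
  have hp : (!₂[(1 : ℝ), 0] : EuclideanSpace ℝ (Fin 2)) ∈ interior E := by
    apply mem_interior
    norm_num
  have hq : (!₂[(-1 : ℝ), 0] : EuclideanSpace ℝ (Fin 2)) ∈ interior E := by
    apply mem_interior
    norm_num
  refine ⟨-2, by norm_num, by norm_num, E, E_convex, E_compact, ⟨_, hp⟩,
    !₂[1, 0], !₂[-1, 0], hp, hq, ?_, ⟨10 / 9, const_at (by norm_num)⟩,
    ⟨10 / 9, const_at (by norm_num)⟩⟩
  intro h
  have := congrArg (fun z : EuclideanSpace ℝ (Fin 2) => z 0) h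
  norm_num at this

end Pool.Agent.S13557
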