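import Pool.Statements.S13766
import Pool.Agent.Work.MP_b0293a_gt.Neg.Main

set_option autoImplicit false
open Pool Pool.MP_b0293a_gt

namespace Pool.Agent.S13766

/-- The negation of the preceding statement: There are constants D, C, K such that every finite set of n ≥ 2 points in ℓ_1 embeds with distortion at most D into a finite-dimensional real normed space of dimension at most K·(log n)^C. -/
theorem result :
    ¬ (∃ D C K : ℝ, ∀ S : Finset (lp (fun _ : ℕ => ℝ) 1), 2 ≤ S.card →
      ∃ (E : Type) (_ : NormedAddCommGroup E) (_ : NormedSpace ℝ E),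
        FiniteDimensional ℝ E ∧
        ((Module.finrank ℝ E : ℕ) : ℝ) ≤ K * (Real.log (S.card : ℝ)) ^ C ∧
        ∃ f : lp (fun _ : ℕ => ℝ) 1 → E, ∃ r : ℝ, 0 < r ∧
          ∀ x ∈ S, ∀ y ∈ S,
            r * ‖x - y‖ ≤ ‖f x - f y‖ ∧ ‖f x - f y‖ ≤ D * r * ‖x - y‖) := by
  exact Pool.PolyDim.main

end Pool.Agent.S13766
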