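import Pool.Statements.S13882
import Pool.Agent.Work.MP_c2bb60_gt.Neg.ModK

set_option autoImplicit false
open Pool Pool.MP_c2bb60_gt

namespace Pool.Agent.S13882

/-- The negation of the preceding statement: In every complete CAT(0) space (given via the midpoint CN inequality), the intersection of all closed sets containing a compact set K and containing every geodesic between their points is compact. -/
theorem result :
    ¬ (∀ (X : Type) [MetricSpace X] [CompleteSpace X],
      (∀ x y : X, ∃ m : X, ∀ z : X,
          dist z m ^ 2 + dist x y ^ 2 / 4 ≤ (dist z x ^ 2 + dist z y ^ 2) / 2) →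
      ∀ K : Set X, IsCompact K →
        IsCompact (⋂₀ {C : Set X | IsClosed C ∧ K ⊆ C ∧
          ∀ x ∈ C, ∀ y ∈ C, ∀ γ : ℝ → X, γ 0 = x → γ (dist x y) = y →
            (∀ s ∈ Set.Icc (0:ℝ) (dist x y), ∀ t ∈ Set.Icc (0:ℝ) (dist x y),
              dist (γ s) (γ t) = |s - t|) →
            ∀ t ∈ Set.Icc (0:ℝ) (dist x y), γ t ∈ C})) := by
  exact Pool.Agent.C2bb60Neg.main

end Pool.Agent.S13882
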