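import Pool.Statements.S13903

set_option autoImplicit false
open Pool Pool.MP_c502b8_gt

namespace Pool.Agent.S13903

open Filter Topology

/-- A countably compact space (in the countable open cover sense): every sequence has a cluster
point. -/
theorem exists_cluster {G : Type} [TopologicalSpace G]
    (hG : ∀ U : ℕ → Set G, (∀ n, IsOpen (U n)) → Set.univ ⊆ ⋃ n, U n →
          ∃ s : Finset ℕ, Set.univ ⊆ ⋃ n ∈ s, U n) (u : ℕ → G) :
    ∃ g : G, ∀ V ∈ 𝓝 g, ∀ m : ℕ, ∃ n, m ≤ n ∧ u n ∈ V := by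
  by_contra hcon
  push Not at hcon
  have hcov : Set.univ ⊆ ⋃ m, (closure (u '' {n | m ≤ n}))ᶜ := by
    intro g _
    obtain ⟨V, hV, m, hm⟩ := hcon g
    refine Set.mem_iUnion.2 ⟨m, ?_⟩
    intro hg
    rw [mem_closure_iff_nhds] at hg
    obtain ⟨x, hxV, n, hn, rfl⟩ := hg V hV
    exact hm n hn hxV
  obtain ⟨s, hs⟩ := hG (fun m => (closure (u '' {n | m ≤ n}))ᶜ)
    (fun m => isClosed_closure.isOpen_compl) hcov
  have h1 := hs (Set.mem_univ (u (s.sup id)))
  rw [Set.mem_iUnion₂] at h1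
  obtain ⟨m, hms, hm⟩ := h1
  exact hm (subset_closure ⟨s.sup id, Finset.le_sup (f := id) hms, rfl⟩)

/-- If G is a countably compact topological group whose closed subgroups are all separable, and H is a topological group with a countable network, then every closed subgroup of G × H is separable. -/
theorem result :
    ∀ (G H : Type) [Group G] [TopologicalSpace G] [IsTopologicalGroup G]
      [Group H] [TopologicalSpace H] [IsTopologicalGroup H],
      (∀ U : ℕ → Set G, (∀ n, IsOpen (U n)) → Set.univ ⊆ ⋃ n, U n →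
          ∃ s : Finset ℕ, Set.univ ⊆ ⋃ n ∈ s, U n) →
      (∀ K : Subgroup G, IsClosed (K : Set G) → TopologicalSpace.SeparableSpace ↥K) →
      (∃ N : Set (Set H), N.Countable ∧
          ∀ (x : H) (U : Set H), IsOpen U → x ∈ U → ∃ A ∈ N, x ∈ A ∧ A ⊆ U) →
      ∀ K : Subgroup (G × H), IsClosed (K : Set (G × H)) →
        TopologicalSpace.SeparableSpace ↥K := by
  intro G H _ tG _ _ tH _ hG hsep hnet K hK
  obtain ⟨N, hNc, hN⟩ := hnet
  -- the finer second countable topology on H
  have hfine : TopologicalSpace.generateFrom N ≤ tH := by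
    intro U hU
    have hUeq : U = ⋃₀ {A | A ∈ N ∧ A ⊆ U} := by
      ext x
      constructor
      · intro hx
        obtain ⟨A, hA, hxA, hAU⟩ := hN x U hU hx
        exact ⟨A, ⟨hA, hAU⟩, hxA⟩
      · rintro ⟨A, ⟨_, hAU⟩, hxA⟩
        exact hAU hxA
    rw [hUeq]
    apply @isOpen_sUnion H (TopologicalSpace.generateFrom N)
    rintro A ⟨hA, _⟩
    exact TopologicalSpace.isOpen_generateFrom_of_mem hA
  -- induced topology on K
  let f : K → H := fun k => k.1.2
  have hsc : @SecondCountableTopology K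
      (TopologicalSpace.induced f (TopologicalSpace.generateFrom N)) := by
    have h1 : @SecondCountableTopology H (TopologicalSpace.generateFrom N) :=
      @SecondCountableTopology.mk H (TopologicalSpace.generateFrom N) ⟨N, hNc, rfl⟩
    exact @TopologicalSpace.secondCountableTopology_induced K H (TopologicalSpace.generateFrom N) h1 f
  obtain ⟨T, hTc, hTd⟩ : ∃ T : Set K, T.Countable ∧
      ∀ k : K, ∃ u : ℕ → K, (∀ n, u n ∈ T) ∧ Tendsto (fun n => f (u n)) atTop (𝓝 (f k)) := by
    letI τ : TopologicalSpace K := TopologicalSpace.induced f (TopologicalSpace.generateFrom N)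
    haveI : SecondCountableTopology K := hsc
    obtain ⟨T, hTc, hTd⟩ := TopologicalSpace.exists_countable_dense K
    refine ⟨T, hTc, fun k => ?_⟩
    obtain ⟨u, hu, hlim⟩ := mem_closure_iff_seq_limit.1 (hTd k)
    refine ⟨u, hu, ?_⟩
    have hcont : @Continuous K H τ tH f :=
      continuous_le_rng hfine continuous_induced_dom
    exact (hcont.tendsto k).comp hlim
  -- the fibre over the identity
  let M : Subgroup G := K.comap (MonoidHom.inl G H)
  have hMclosed : IsClosed (M : Set G) := by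
    have : (M : Set G) = (fun g : G => ((g, 1) : G × H)) ⁻¹' (K : Set (G × H)) := rfl
    rw [this]
    exact hK.preimage (by fun_prop)
  haveI := hsep M hMclosed
  obtain ⟨S, hSc, hSd⟩ := TopologicalSpace.exists_countable_dense M
  -- the countable dense set
  let mulmap : K × M → K := fun p => p.1 * ⟨(p.2.1, 1), p.2.2⟩
  refine ⟨⟨mulmap '' (T ×ˢ S), (hTc.prod hSc).image _, ?_⟩⟩
  intro k
  rw [mem_closure_iff]
  intro O hO hkO
  obtain ⟨O', hO', rfl⟩ := isOpen_induced_iff.1 hO
  obtain ⟨u, huT, hulim⟩ := hTd k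
  obtain ⟨g', hg'⟩ := exists_cluster hG (fun n => (u n).1.1)
  -- (g', h) belongs to K
  have key : ∀ W ∈ 𝓝 ((g', k.1.2) : G × H), ∃ n, (u n).1 ∈ W := by
    intro W hW
    rw [nhds_prod_eq, Filter.mem_prod_iff] at hW
    obtain ⟨A, hA, B, hB, hAB⟩ := hW
    have h1 : ∀ᶠ n in atTop, f (u n) ∈ B := hulim hB
    obtain ⟨m, hm⟩ := Filter.eventually_atTop.1 h1
    obtain ⟨n, hmn, hn⟩ := hg' A hA m
    exact ⟨n, hAB ⟨hn, hm n hmn⟩⟩
  have hmem : ((g', k.1.2) : G × H) ∈ K := by
    have : ((g', k.1.2) : G × H) ∈ closure (K : Set (G × H)) := by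
      rw [mem_closure_iff_nhds]
      intro W hW
      obtain ⟨n, hn⟩ := key W hW
      exact ⟨(u n).1, hn, (u n).2⟩
    rwa [hK.closure_eq] at this
  let z : G := g'⁻¹ * k.1.1
  have hz : z ∈ M := by
    change ((z, 1) : G × H) ∈ K
    have : ((z, 1) : G × H) = (g', k.1.2)⁻¹ * k.1 := by
      ext <;> simp [z]
    rw [this]
    exact K.mul_mem (K.inv_mem hmem) k.2
  -- continuity of multiplication
  have hcont : Continuous (fun p : (G × H) × M => p.1 * ((p.2.1, 1) : G × H)) := by
    fun_prop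
  have hval : (fun p : (G × H) × M => p.1 * ((p.2.1, 1) : G × H)) ((g', k.1.2), ⟨z, hz⟩) = k.1 := by
    ext <;> simp [z]
  have hnh : (fun p : (G × H) × M => p.1 * ((p.2.1, 1) : G × H)) ⁻¹' O' ∈
      𝓝 (((g', k.1.2), ⟨z, hz⟩) : (G × H) × M) := by
    apply hcont.continuousAt
    rw [hval]
    exact hO'.mem_nhds hkO
  rw [nhds_prod_eq, Filter.mem_prod_iff] at hnh
  obtain ⟨A, hA, B, hB, hAB⟩ := hnh
  obtain ⟨n, hn⟩ := key A hA
  obtain ⟨s, hsB, hsS⟩ := mem_closure_iff_nhds.1 (hSd ⟨z, hz⟩) B hB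
  refine ⟨mulmap (u n, s), ?_, ⟨(u n, s), ⟨huT n, hsS⟩, rfl⟩⟩
  exact hAB (show ((u n).1, s) ∈ A ×ˢ B from ⟨hn, hsB⟩)

end Pool.Agent.S13903
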