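import Pool.Statements.S13928
import Pool.Agent.Work.MP_c71557_gt.F.Main
import Pool.Agent.Work.MP_c71557_gt.K.Kap

set_option autoImplicit false
open Pool Pool.MP_c71557_gt

namespace Pool.Agent.S13928

/-- The negation of the preceding statement: For the group of compactly supported piecewise-linear homeomorphisms of the plane, the third integral group homology admits a surjective homomorphism onto ℝ (equivalently, by universal coefficients, some real degree-3 class evaluates surjectively). -/
theorem result :
    ¬ (∃ f : (groupHomology (Rep.trivial ℤ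
        (↥(Subgroup.closure {σ : Equiv.Perm (ℝ × ℝ) |
          Continuous ⇑σ ∧ Continuous ⇑σ.symm ∧
          ∃ P : Finset (Finset (ℝ × ℝ)),
            (∀ x : ℝ × ℝ, x ∉ (⋃ s ∈ P, convexHull ℝ (↑s : Set (ℝ × ℝ))) → σ x = x) ∧
            ∀ s ∈ P, ∃ A : (ℝ × ℝ) →ᵃ[ℝ] (ℝ × ℝ),
              ∀ x ∈ convexHull ℝ (↑s : Set (ℝ × ℝ)), σ x = A x}))
        ℤ) 3) →+ ℝ,
      Function.Surjective f) :=
  C715.conclusion C715.A0 C715.A0_wind C715.loc

end Pool.Agent.S13928
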