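import Pool.Statements.S14244
import Pool.Agent.Work.MP_f6b738_gt.Final

set_option autoImplicit false
open MeasureTheory Pointwise
open Pool Pool.MP_f6b738_gt

namespace Pool.Agent.S14244

/-- The negation of the preceding statement: For 1 ≤ i ≤ k ≤ n-1 and compact convex K1, K2 in R^n: if the projections onto every hyperplane u-perp have equal i-th intrinsic volume (Steiner coefficients), then the projections onto every k-dimensional subspace have equal i-th intrinsic volume. -/
theorem result :
    ¬ (∀ (n i k : ℕ), 1 ≤ i → i ≤ k → k ≤ n - 1 →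
  ∀ K₁ K₂ : Set (EuclideanSpace ℝ (Fin n)),
    IsCompact K₁ → Convex ℝ K₁ → IsCompact K₂ → Convex ℝ K₂ →
    (∀ u ∈ Metric.sphere (0 : EuclideanSpace ℝ (Fin n)) 1,
      ∃ p q : Polynomial ℝ,
        (∀ ε : ℝ, 0 ≤ ε → p.eval ε =
          (volume (((Submodule.orthogonal (Submodule.span ℝ {u})).starProjection '' K₁)
            + Metric.closedBall (0 : EuclideanSpace ℝ (Fin n)) ε)).toReal) ∧
        (∀ ε : ℝ, 0 ≤ ε → q.eval ε =
          (volume (((Submodule.orthogonal (Submodule.span ℝ {u})).starProjection '' K₂)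
            + Metric.closedBall (0 : EuclideanSpace ℝ (Fin n)) ε)).toReal) ∧
        p.coeff (n - i) = q.coeff (n - i)) →
    ∀ S : Submodule ℝ (EuclideanSpace ℝ (Fin n)), Module.finrank ℝ S = k →
      ∃ p q : Polynomial ℝ,
        (∀ ε : ℝ, 0 ≤ ε → p.eval ε =
          (volume ((S.starProjection '' K₁)
            + Metric.closedBall (0 : EuclideanSpace ℝ (Fin n)) ε)).toReal) ∧
        (∀ ε : ℝ, 0 ≤ ε → q.eval ε =
          (volume ((S.starProjection '' K₂)
            + Metric.closedBall (0 : EuclideanSpace ℝ (Fin n)) ε)).toReal) ∧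
        p.coeff (n - i) = q.coeff (n - i)) := by
  exact Pool.MP_f6b738_gt.IV.main_counterexample

end Pool.Agent.S14244
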