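import Pool.Statements.S14548
import Pool.Agent.Work.MP_320dc7_lc.Final
-- import your own Pool.Agent.* helpers here

set_option autoImplicit false
open Pool Pool.MP_320dc7_lc

namespace Pool.Agent.S14548

/-- The negation of the preceding statement: Every definably complete, restrained expansion of an ordered field has a van den Dries dimension function d (axioms Dim1–Dim4) that equals topological dimension on every projection of a definable closed set. -/
theorem result :
    ¬ (∀ (K : Type) [Field K] [LinearOrder K] [IsStrictOrderedRing K] [TopologicalSpace K]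
      [OrderTopology K] (L : FirstOrder.Language.{0, 0}) [L.Structure K],
      (Set.univ : Set K).Definable L {v : Fin 3 → K | v 0 + v 1 = v 2} →
      (Set.univ : Set K).Definable L {v : Fin 3 → K | v 0 * v 1 = v 2} →
      (Set.univ : Set K).Definable L {v : Fin 2 → K | v 0 ≤ v 1} →
      (∀ X : Set K, (Set.univ : Set K).Definable L {v : Fin 1 → K | v 0 ∈ X} →
          X.Nonempty → BddAbove X → ∃ s : K, IsLUB X s) →
      (∀ (n : ℕ) (D : Set (Fin n → K)) (g : (Fin n → K) → K),
          (Set.univ : Set K).Definable L D → DiscreteTopology D →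
          (Set.univ : Set K).Definable L
            {v : Fin (n + 1) → K | (fun i : Fin n => v (Fin.castSucc i)) ∈ D ∧
              g (fun i : Fin n => v (Fin.castSucc i)) = v (Fin.last n)} →
          IsNowhereDense (g '' D)) →
      ∃ d : (n : ℕ) → Set (Fin n → K) → WithBot ℕ,
        (∀ (n : ℕ) (A : Set (Fin n → K)), (Set.univ : Set K).Definable L A →
            (d n A = ⊥ ↔ A = ∅)) ∧
        (∀ a : K, d 1 ({fun _ => a} : Set (Fin 1 → K)) = 0) ∧
        d 1 (Set.univ : Set (Fin 1 → K)) = 1 ∧
        (∀ (n : ℕ) (A B : Set (Fin n → K)), (Set.univ : Set K).Definable L A →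
            (Set.univ : Set K).Definable L B → d n (A ∪ B) = max (d n A) (d n B)) ∧
        (∀ (n : ℕ) (σ : Equiv.Perm (Fin n)) (A : Set (Fin n → K)),
            (Set.univ : Set K).Definable L A →
            d n ((fun x : Fin n → K => x ∘ σ) ⁻¹' A) = d n A) ∧
        (∀ (n : ℕ) (C : Set (Fin (n + 1) → K)), (Set.univ : Set K).Definable L C →
          ∀ i : ℕ, i ≤ 1 →
            (Set.univ : Set K).Definable L
              {x : Fin n → K | d 1 {w : Fin 1 → K | ∃ z ∈ C,
                  (fun j : Fin n => z (Fin.castSucc j)) = x ∧ z (Fin.last n) = w 0} = (i : WithBot ℕ)} ∧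
            d (n + 1) (C ∩ {z : Fin (n + 1) → K | d 1 {w : Fin 1 → K | ∃ y ∈ C,
                  (fun j : Fin n => y (Fin.castSucc j)) = (fun j : Fin n => z (Fin.castSucc j)) ∧
                  y (Fin.last n) = w 0} = (i : WithBot ℕ)})
              = d n {x : Fin n → K | d 1 {w : Fin 1 → K | ∃ z ∈ C,
                  (fun j : Fin n => z (Fin.castSucc j)) = x ∧ z (Fin.last n) = w 0} = (i : WithBot ℕ)}
                + (i : WithBot ℕ)) ∧
        (∀ (n : ℕ) (X : Set (Fin n → K)), (Set.univ : Set K).Definable L X →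
          (∃ Y : Set (Fin (n + 1) → K), (Set.univ : Set K).Definable L Y ∧ IsClosed Y ∧
              X = (fun z : Fin (n + 1) → K => fun j : Fin n => z (Fin.castSucc j)) '' Y) →
          X.Nonempty →
          (∃ S : Finset (Fin n),
              (interior ((fun x : Fin n → K => fun i : S => x i) '' X)).Nonempty ∧
              d n X = ((S.card : ℕ) : WithBot ℕ)) ∧
          ∀ S : Finset (Fin n),
              (interior ((fun x : Fin n → K => fun i : S => x i) '' X)).Nonempty →
              ((S.card : ℕ) : WithBot ℕ) ≤ d n X)) := by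
  intro hall
  obtain ⟨f, hf⟩ := Pool.Agent.Work.MP_320dc7_lc.exists_generic
  have hf : Pool.Agent.Work.MP_320dc7_lc.Gen f := hf
  obtain ⟨d, h1, h2, h3, h4, h5, h6, _⟩ := @hall ℝ _ _ _ _ _ Pool.Agent.Work.MP_320dc7_lc.Lg
    (Pool.Agent.Work.MP_320dc7_lc.str f)
    (Pool.Agent.Work.MP_320dc7_lc.df_add f 0 1 2)
    (Pool.Agent.Work.MP_320dc7_lc.df_mul f 0 1 2)
    (Pool.Agent.Work.MP_320dc7_lc.df_le f 0 1)
    (fun X _ hne hbdd => Real.exists_isLUB hne hbdd)
    (fun n D g _ hdis hg => Pool.Agent.Work.MP_320dc7_lc.restrained hf n D g hdis hg)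
  exact Pool.Agent.Work.MP_320dc7_lc.no_dim (Pool.Agent.Work.MP_320dc7_lc.gen_sum hf)
    ⟨h1, h2, h3, h4, h5, h6⟩

end Pool.Agent.S14548
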