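import Pool.Statements.S14594
import Pool.Agent.Work.MP_3a2c1d_lc.Main

set_option autoImplicit false
open Pool Pool.MP_3a2c1d_lc

namespace Pool.Agent.S14594

/-- The negation of the preceding statement: For every n other than 1 and every free ℓ-group G on n generators, it is computably decidable which clauses (hypotheses ⇒ disjunction of conclusions, ℓ-terms in sup-of-inf normal form set to 1) hold in G, equivalently its universal theory is decidable. -/
theorem result :
    ¬ (∀ n : ℕ, n ≠ 1 →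
  ∀ (G : Type) [Group G] [Lattice G] [MulLeftMono G] [MulRightMono G] (ι : Fin n → G),
    (∀ (H : Type) [Group H] [Lattice H] [MulLeftMono H] [MulRightMono H] (f : Fin n → H),
      ∃ φ : G →* H, (∀ a b : G, φ (a ⊔ b) = φ a ⊔ φ b) ∧ (∀ a b : G, φ (a ⊓ b) = φ a ⊓ φ b) ∧
        (∀ i, φ (ι i) = f i) ∧
        ∀ ψ : G →* H, (∀ a b : G, ψ (a ⊔ b) = ψ a ⊔ ψ b) → (∀ a b : G, ψ (a ⊓ b) = ψ a ⊓ ψ b) →
          (∀ i, ψ (ι i) = f i) → ψ = φ) →
    ComputablePred
      (fun c : List ((List (ℕ × Bool) × List (List (ℕ × Bool))) × List (List (ℕ × Bool) × List (List (ℕ × Bool))))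
             × List ((List (ℕ × Bool) × List (List (ℕ × Bool))) × List (List (ℕ × Bool) × List (List (ℕ × Bool)))) =>
        ∀ x : ℕ → G,
          (∀ t ∈ c.1,
            t.2.foldr
              (fun q b => q.2.foldr (fun w a => FreeGroup.lift x (FreeGroup.mk w) ⊓ a)
                  (FreeGroup.lift x (FreeGroup.mk q.1)) ⊔ b)
              (t.1.2.foldr (fun w a => FreeGroup.lift x (FreeGroup.mk w) ⊓ a)
                  (FreeGroup.lift x (FreeGroup.mk t.1.1))) = 1) →
          ∃ u ∈ c.2,
            u.2.foldr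
              (fun q b => q.2.foldr (fun w a => FreeGroup.lift x (FreeGroup.mk w) ⊓ a)
                  (FreeGroup.lift x (FreeGroup.mk q.1)) ⊔ b)
              (u.1.2.foldr (fun w a => FreeGroup.lift x (FreeGroup.mk w) ⊓ a)
                  (FreeGroup.lift x (FreeGroup.mk u.1.1))) = 1)) := by
  intro h
  exact Pool.Agent.Work.MP_3a2c1d_lc.not_computable (n := 2) le_rfl
    Pool.Agent.Work.MP_3a2c1d_lc.FL.gen
    (fun H _ _ _ _ f => Pool.Agent.Work.MP_3a2c1d_lc.FL.universal H f)
    (h 2 (by norm_num) (Pool.Agent.Work.MP_3a2c1d_lc.FL 2) Pool.Agent.Work.MP_3a2c1d_lc.FL.gen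
      (fun H _ _ _ _ f => Pool.Agent.Work.MP_3a2c1d_lc.FL.universal H f))

end Pool.Agent.S14594
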