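import Pool.Statements.S14803
import Pool.Agent.Work.MP_64713a_lc.Final

set_option autoImplicit false
open Pool Pool.MP_64713a_lc

namespace Pool.Agent.S14803

/-- If X is not hyperarithmetic (X and its complement not both Π¹₁) and A ⊆ ℕ has positive lower density, then some infinite B ⊆ A has X not hyperarithmetic in B (X and its complement not both Π¹₁ relative to B). -/
theorem result :
    ∀ P : Set ℕ → Set ℕ → Prop,
      (∀ Y B : Set ℕ, P Y B ↔
        ∃ R : ℕ → List ℕ → List ℕ → Prop,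
          ComputablePred (fun p : ℕ × List ℕ × List ℕ => R p.1 p.2.1 p.2.2) ∧
          ∀ n : ℕ, n ∈ Y ↔ ∀ f : ℕ → ℕ, ∃ m : ℕ,
            R n ((List.range m).map (B.indicator (fun _ => (1 : ℕ))))
              ((List.range m).map f)) →
      ∀ X A : Set ℕ,
        ¬ (P X ∅ ∧ P Xᶜ ∅) →
        (∃ δ : ℝ, 0 < δ ∧ ∀ᶠ n : ℕ in Filter.atTop,
            δ * (n : ℝ) ≤ ((A ∩ Set.Iio n).ncard : ℝ)) →
        ∃ B : Set ℕ, B ⊆ A ∧ B.Infinite ∧ ¬ (P X B ∧ P Xᶜ B) := by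
  intro P hP X A hX hA
  have h : ∀ Y B : Set ℕ, P Y B ↔ Pool.Agent.Work.MP_64713a_lc.Pi11 Y B := hP
  rw [h, h] at hX
  obtain ⟨B, h1, h2, h3⟩ := Pool.Agent.Work.MP_64713a_lc.main_thm X A hX hA
  refine ⟨B, h1, h2, ?_⟩
  rw [h, h]
  exact h3

end Pool.Agent.S14803
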