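import Pool.Statements.S14881
import Pool.Agent.Work.MP_70d3c3_lc.Final

set_option autoImplicit false
open Pool Pool.MP_70d3c3_lc Pool.Agent.Work.MP_70d3c3_lc

namespace Pool.Agent.S14881

/-- There is an on-line bin packing rule, bin choice depending only on past items, never overfilling a bin, with at most k bins open at any time, whose asymptotic worst-case ratio is exactly h_∞ = Σ 1/(t_i−1), t_0=2, t_{i+1}=t_i(t_i−1)+1. -/
theorem result :
  ∀ t : ℕ → ℕ, t 0 = 2 → (∀ i : ℕ, t (i + 1) = t i * (t i - 1) + 1) →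
  ∃ A : List ℝ → ℝ → ℕ,
    (∀ L : List ℝ, (∀ y ∈ L, 0 < y ∧ y ≤ 1) → ∀ b : ℕ,
      ∑ i ∈ (Finset.univ : Finset (Fin L.length)).filter
          (fun i : Fin L.length => A (L.take (i : ℕ)) (L.get i) = b),
        L.get i ≤ 1) ∧
    (∃ k : ℕ, ∀ p : List ℝ, (∀ y ∈ p, 0 < y ∧ y ≤ 1) →
      Set.ncard {b : ℕ | (∃ i : Fin p.length, A (p.take (i : ℕ)) (p.get i) = b) ∧
        ∃ q : List ℝ, ∃ x : ℝ, (∀ y ∈ q, 0 < y ∧ y ≤ 1) ∧ 0 < x ∧ x ≤ 1 ∧
          A (p ++ q) x = b} ≤ k) ∧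
    (∀ ε : ℝ, 0 < ε → ∃ N : ℕ, ∀ L : List ℝ, (∀ y ∈ L, 0 < y ∧ y ≤ 1) →
      N ≤ sInf {m : ℕ | ∃ f : Fin L.length → Fin m, ∀ j : Fin m,
        ∑ i ∈ (Finset.univ : Finset (Fin L.length)).filter
            (fun i : Fin L.length => f i = j), L.get i ≤ 1} →
      (((Finset.univ : Finset (Fin L.length)).image
          (fun i : Fin L.length => A (L.take (i : ℕ)) (L.get i))).card : ℝ) ≤
        (∑' i : ℕ, 1 / ((t i : ℝ) - 1) + ε) *
          ((sInf {m : ℕ | ∃ f : Fin L.length → Fin m, ∀ j : Fin m,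
            ∑ i ∈ (Finset.univ : Finset (Fin L.length)).filter
                (fun i : Fin L.length => f i = j), L.get i ≤ 1} : ℕ) : ℝ)) ∧
    (∀ ε : ℝ, 0 < ε → ∀ N : ℕ, ∃ L : List ℝ, (∀ y ∈ L, 0 < y ∧ y ≤ 1) ∧
      N ≤ sInf {m : ℕ | ∃ f : Fin L.length → Fin m, ∀ j : Fin m,
        ∑ i ∈ (Finset.univ : Finset (Fin L.length)).filter
            (fun i : Fin L.length => f i = j), L.get i ≤ 1} ∧
      (∑' i : ℕ, 1 / ((t i : ℝ) - 1) - ε) *
          ((sInf {m : ℕ | ∃ f : Fin L.length → Fin m, ∀ j : Fin m,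
            ∑ i ∈ (Finset.univ : Finset (Fin L.length)).filter
                (fun i : Fin L.length => f i = j), L.get i ≤ 1} : ℕ) : ℝ) ≤
        (((Finset.univ : Finset (Fin L.length)).image
          (fun i : Fin L.length => A (L.take (i : ℕ)) (L.get i))).card : ℝ)) := by
  intro t ht0 hts
  rw [T_zero_eq t ht0 hts]
  refine ⟨best, ?_, ⟨11, ?_⟩, ?_, ?_⟩
  · intro L hL b
    exact good_best.load_le L hL b
  · intro p hp
    obtain ⟨T, hT1, hT2⟩ := good_best.open_le p hp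
    refine le_trans (Set.ncard_le_ncard (t := (T : Set ℕ)) ?_ T.finite_toSet) ?_
    · rintro b ⟨⟨i, hi⟩, q, x, hq, hx0, hx1, hA⟩
      exact hT2 b ((mem_used best p b).2 ⟨i, hi⟩) q x hq ⟨hx0, hx1⟩ hA
    · rw [Set.ncard_coe_finset]
      exact hT1
  · intro ε hε
    obtain ⟨N, hN⟩ := exists_nat_gt (13 / ε)
    refine ⟨N, fun L hL hopt => ?_⟩
    have h1 := good_best.count_le L hL
    have h2 := sum_W_opt L hL
    have h3 : (N : ℝ) ≤ (opt L : ℝ) := by exact_mod_cast hopt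
    have h4 : 13 < (N : ℝ) * ε := by
      rwa [div_lt_iff₀ hε] at hN
    have h5 : ((used best L).card : ℝ) ≤ (T 0 + ε) * (opt L : ℝ) := by nlinarith
    exact h5
  · intro ε hε N
    obtain ⟨L, hL, h1, h2⟩ := lower good_best ε hε N
    exact ⟨L, hL, h1, h2⟩

end Pool.Agent.S14881
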