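import Pool.Statements.S14931
import Pool.Agent.Work.MP_79fed9_lc.RA

set_option autoImplicit false
open Pool Pool.MP_79fed9_lc

namespace Pool.Agent.S14931

/-- Every finite integral relation algebra with an atom f ≠ 1' lying below a;b for all diversity atoms a,b embeds into the full algebra of binary relations on some finite set. -/
theorem result :
    ∀ (A : Type) [BooleanAlgebra A] [Fintype A] (comp : A → A → A) (conv : A → A) (e : A),
      (∀ x y z : A, comp (comp x y) z = comp x (comp y z)) →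
      (∀ x y z : A, comp (x ⊔ y) z = comp x z ⊔ comp y z) →
      (∀ x : A, comp x e = x) →
      (∀ x : A, conv (conv x) = x) →
      (∀ x y : A, conv (x ⊔ y) = conv x ⊔ conv y) →
      (∀ x y : A, conv (comp x y) = comp (conv y) (conv x)) →
      (∀ x y : A, comp (conv x) (comp x y)ᶜ ≤ yᶜ) →
      e ≠ ⊥ →
      (∀ x y : A, comp x y = ⊥ → x = ⊥ ∨ y = ⊥) →
      (∃ f : A, IsAtom f ∧ f ≤ eᶜ ∧
        ∀ a b : A, IsAtom a → IsAtom b → a ≤ eᶜ → b ≤ eᶜ → f ≤ comp a b) →
      ∃ (n : ℕ) (h : A → Set (Fin n × Fin n)),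
        Function.Injective h ∧
        (∀ x y : A, h (x ⊔ y) = h x ∪ h y) ∧
        (∀ x : A, h xᶜ = (h x)ᶜ) ∧
        (∀ x y : A, h (comp x y) =
          {p : Fin n × Fin n | ∃ z : Fin n, (p.1, z) ∈ h x ∧ (z, p.2) ∈ h y}) ∧
        (∀ x : A, h (conv x) = {p : Fin n × Fin n | (p.2, p.1) ∈ h x}) ∧
        h e = {p : Fin n × Fin n | p.1 = p.2} := by
  intro A _ _ comp conv e _ hadd hide hcc hcadd hcmul htar hne hint hf
  exact Pool.Agent.Work.MP_79fed9_lc.RAx.main ⟨comp, conv, e, hadd, hide, hcc, hcadd, hcmul, htar, hne, hint⟩ hf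

end Pool.Agent.S14931
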