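import Pool.Statements.S15195
import Pool.Agent.Work.MP_aa9b22_lc.Main

set_option autoImplicit false
open Pool Pool.MP_aa9b22_lc

namespace Pool.Agent.S15195

/-- The set of codes of finite presentations whose presented group is simple is Π₂, meaning of the form for-all-x exists-y of a computable relation, and every such Π₂ set many-one reduces to it; that is, it is Π₂-complete. -/
theorem result :
  ∀ A : ℕ → Prop,
    (∀ n : ℕ, A n ↔ ∃ p : ℕ × List (List (ℕ × Bool)),
        Encodable.decode n = some p ∧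
        IsSimpleGroup (PresentedGroup
          ({r : FreeGroup ℕ | ∃ i : ℕ, p.1 ≤ i ∧ r = FreeGroup.of i} ∪
           {r : FreeGroup ℕ | ∃ w ∈ p.2, r = FreeGroup.mk w}))) →
    (∃ R : ℕ × ℕ × ℕ → Prop, ComputablePred R ∧ ∀ n, A n ↔ ∀ x, ∃ y, R (n, x, y)) ∧
    ∀ B : ℕ → Prop,
      (∃ R : ℕ × ℕ × ℕ → Prop, ComputablePred R ∧ ∀ n, B n ↔ ∀ x, ∃ y, R (n, x, y)) →
      ManyOneReducible B A := by
  intro A hA
  have key : ∀ n, A n ↔ Pool.Agent.Work.MP_aa9b22_lc.IsSimp n := hA
  constructor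
  · obtain ⟨R, hR, h⟩ := Pool.Agent.Work.MP_aa9b22_lc.simpUpper
    exact ⟨R, hR, fun n => (key n).trans (h n)⟩
  · intro B hB
    obtain ⟨f, hf, h⟩ := Pool.Agent.Work.MP_aa9b22_lc.reduction B hB
    exact ⟨f, hf, fun n => (h n).trans (key (f n)).symm⟩

end Pool.Agent.S15195
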