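import Pool.Statements.S15655
import Pool.Agent.Work.MP_fe875b_lc.SY.Main

set_option autoImplicit false
open Pool Pool.MP_fe875b_lc

namespace Pool.Agent.S15655

/-- For every metric space, k ≥ 1 and starting configuration, some deterministic online k-server algorithm has total movement at most k times that of any offline schedule serving the same requests, plus a constant independent of the request sequence. -/
theorem result :
  ∀ (M : Type) [MetricSpace M] (k : ℕ), 0 < k → ∀ c₀ : Fin k → M,
    ∃ C : List M → (Fin k → M),
      C [] = c₀ ∧
      (∀ (l : List M) (r : M), ∃ i : Fin k, C (l ++ [r]) i = r) ∧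
      ∃ α : ℝ, ∀ (σ : List M) (S : ℕ → Fin k → M),
        S 0 = c₀ →
        (∀ j : Fin σ.length, ∃ i : Fin k, S (j.val + 1) i = σ.get j) →
        (∑ j ∈ Finset.range σ.length, ∑ i : Fin k,
            dist (C (σ.take j) i) (C (σ.take (j + 1)) i))
          ≤ (k : ℝ) * (∑ j ∈ Finset.range σ.length, ∑ i : Fin k,
            dist (S j i) (S (j + 1) i)) + α := by
  exact Pool.Agent.KServer.SY.kserver

end Pool.Agent.S15655
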