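import Pool.Statements.S17760

/-
Disproof of the conjecture: an explicit family with n = 5.

With q = N a large integer, nodes c = (1, 3, 19/7, 29/12, 157/95), a_j = (N + c_j)/(N - c_j) and
b = (P1(N), P2(N), w3, w4, w5), where P1, P2 are even quadratic polynomials and w3, w4, w5 constants,
the linear form is of exact order N^(-13), while the conjectured lower bound is of order
N^(2 - 14 (1 + eps)) = N^(-12 - 14 eps).
-/

set_option autoImplicit false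
open Pool Pool.MP_90c6bd_nt

namespace Pool.Agent.S17760

/-- Truncated odd series of `log ((1+x)/(1-x)) / 2`. -/
noncomputable def S (x : ℝ) : ℝ :=
  x + x^3/3 + x^5/5 + x^7/7 + x^9/9 + x^11/11 + x^13/13 + x^15/15

lemma log_bound (x : ℝ) (hx : 0 < x) (hx' : x ≤ 1/2) :
    |Real.log (1+x) - Real.log (1-x) - 2 * S x| ≤ 4 * x^17 := by
  have hax : |x| = x := abs_of_pos hx
  have h1 := Real.abs_log_sub_add_sum_range_le (x := x) (by rw [hax]; linarith) 16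
  have h2 := Real.abs_log_sub_add_sum_range_le (x := -x) (by rw [abs_neg, hax]; linarith) 16
  rw [abs_neg x, hax] at h2
  rw [hax] at h1
  have h3 : x ^ (16+1) / (1 - x) ≤ 2 * x^17 := by
    rw [div_le_iff₀ (by linarith)]
    have h4 : 0 ≤ x^17 := by positivity
    have h5 : 0 ≤ x^17 * (1 - 2 * x) := mul_nonneg h4 (by linarith)
    have h6 : x^(16+1) = x^17 := by norm_num
    rw [h6]
    linarith
  have e1 := abs_le.mp (h1.trans h3)
  have e2 := abs_le.mp (h2.trans h3)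
  simp only [Finset.sum_range_succ, Finset.sum_range_zero, sub_neg_eq_add] at e1 e2
  norm_num at e1 e2
  unfold S
  rw [abs_le]
  constructor
  · linarith [e1.1, e1.2, e2.1, e2.2]
  · linarith [e1.1, e1.2, e2.1, e2.2]

lemma ratio_props (N n d : ℤ) (hn : 0 < n) (hd : 0 < d) (h : 2 * n ≤ d * N) (hN : 0 < N) :
    0 < ((d*N+n : ℤ) : ℚ) / ((d*N-n : ℤ) : ℚ) ∧
    max (((d*N+n : ℤ) : ℚ) / ((d*N-n : ℤ) : ℚ)).num.natAbs
      (((d*N+n : ℤ) : ℚ) / ((d*N-n : ℤ) : ℚ)).den ≤ (d*N+n).natAbs ∧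
    Real.log ((((d*N+n : ℤ) : ℚ) / ((d*N-n : ℤ) : ℚ) : ℚ) : ℝ) =
      Real.log (1 + (n/d : ℝ) * (N : ℝ)⁻¹) - Real.log (1 - (n/d : ℝ) * (N : ℝ)⁻¹) := by
  have hpos1 : 0 < d*N+n := by nlinarith
  have hpos2 : 0 < d*N-n := by nlinarith
  have hq1 : (0:ℚ) < ((d*N+n : ℤ) : ℚ) := by exact_mod_cast hpos1
  have hq2 : (0:ℚ) < ((d*N-n : ℤ) : ℚ) := by exact_mod_cast hpos2
  refine ⟨div_pos hq1 hq2, ?_, ?_⟩
  · apply max_le
    · apply Nat.le_of_dvd (by omega)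
      rw [Int.natAbs_dvd_natAbs]
      have := Rat.num_dvd (d*N+n) (b := d*N-n) (by omega)
      rwa [Rat.divInt_eq_div] at this
    · have h1 := Rat.den_dvd (d*N+n) (d*N-n)
      rw [Rat.divInt_eq_div] at h1
      have h2 := Int.le_of_dvd hpos2 h1
      omega
  · have hN' : (0:ℝ) < (N:ℝ) := by exact_mod_cast hN
    have hd' : (0:ℝ) < (d:ℝ) := by exact_mod_cast hd
    have hn' : (0:ℝ) < (n:ℝ) := by exact_mod_cast hn
    have hr1 : (0:ℝ) < (d:ℝ)*N+n := by exact_mod_cast hpos1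
    have hr2 : (0:ℝ) < (d:ℝ)*N-n := by exact_mod_cast hpos2
    have e1 : 1 + (n/d : ℝ) * (N : ℝ)⁻¹ = ((d:ℝ)*N+n) / (d*N) := by field_simp
    have e2 : 1 - (n/d : ℝ) * (N : ℝ)⁻¹ = ((d:ℝ)*N-n) / (d*N) := by field_simp
    rw [e1, e2, ← Real.log_div (by positivity) (by positivity)]
    congr 1
    push_cast
    field_simp


/-- The first coefficient polynomial. -/
noncomputable def P1 (N : ℝ) : ℝ := 45479491467540058023851830360000 - 98383720254515771871355848288000 * N^2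
/-- The second coefficient polynomial. -/
noncomputable def P2 (N : ℝ) : ℝ := -276635394991683276311392154963955 + 32794573418171923957118616096000 * N^2

lemma key_identity (N : ℝ) (hN : 0 < N) :
    P1 N * S ((1/1 : ℝ) * N⁻¹) + P2 N * S ((3/1 : ℝ) * N⁻¹)
      + 61985414793194558715462071380176 * S ((19/7 : ℝ) * N⁻¹)
      + 65929432570692054807691074207744 * S ((29/12 : ℝ) * N⁻¹)
      + 117687765819490592030535888671875 * S ((157/95 : ℝ) * N⁻¹)
    = (868950762998514997061014249759211520/133) * (N⁻¹)^13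
      - (43924442955885640143735794093198629997364451328/176447775) * (N⁻¹)^15 := by
  unfold P1 P2 S
  field_simp
  ring

/-- The linear form. -/
noncomputable def Lam (N : ℝ) : ℝ :=
    P1 N * (Real.log (1 + (1/1 : ℝ) * N⁻¹) - Real.log (1 - (1/1 : ℝ) * N⁻¹))
      + P2 N * (Real.log (1 + (3/1 : ℝ) * N⁻¹) - Real.log (1 - (3/1 : ℝ) * N⁻¹))
      + 61985414793194558715462071380176 * (Real.log (1 + (19/7 : ℝ) * N⁻¹) - Real.log (1 - (19/7 : ℝ) * N⁻¹))
      + 65929432570692054807691074207744 * (Real.log (1 + (29/12 : ℝ) * N⁻¹) - Real.log (1 - (29/12 : ℝ) * N⁻¹))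
      + 117687765819490592030535888671875 * (Real.log (1 + (157/95 : ℝ) * N⁻¹) - Real.log (1 - (157/95 : ℝ) * N⁻¹))

lemma term_bound (N c P K : ℝ) (hN : 0 < N) (hc : 0 < c) (hc3 : c ≤ 3) (hN6 : 6 ≤ N) (hK : 0 ≤ K)
    (hP : |P| ≤ K * N^2) :
    |P * (Real.log (1 + c * N⁻¹) - Real.log (1 - c * N⁻¹)) - 2 * (P * S (c * N⁻¹))|
      ≤ K * (4 * 3^17) * (N⁻¹)^15 := by
  have hy : 0 < N⁻¹ := inv_pos.mpr hN
  have hx : 0 < c * N⁻¹ := mul_pos hc hy
  have hx' : c * N⁻¹ ≤ 1/2 := by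
    rw [← div_eq_mul_inv, div_le_iff₀ hN]; linarith
  have h := log_bound (c * N⁻¹) hx hx'
  have e : P * (Real.log (1 + c * N⁻¹) - Real.log (1 - c * N⁻¹)) - 2 * (P * S (c * N⁻¹))
      = P * (Real.log (1 + c * N⁻¹) - Real.log (1 - c * N⁻¹) - 2 * S (c * N⁻¹)) := by ring
  rw [e, abs_mul]
  have h2 : c^17 ≤ 3^17 := pow_le_pow_left₀ hc.le hc3 17
  calc |P| * |Real.log (1 + c * N⁻¹) - Real.log (1 - c * N⁻¹) - 2 * S (c * N⁻¹)|
      ≤ (K * N^2) * (4 * (c * N⁻¹)^17) := mul_le_mul hP h (abs_nonneg _) (by positivity)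
    _ = K * (4 * c^17) * (N⁻¹)^15 := by field_simp
    _ ≤ K * (4 * 3^17) * (N⁻¹)^15 := by gcongr

lemma Lam_bounds (N : ℝ) (hN : (10:ℝ)^20 ≤ N) :
    0 < Lam N ∧ Lam N ≤ 10^36 * (N⁻¹)^13 := by
  have hN0 : 0 < N := by linarith [show (0:ℝ) < 10^20 by positivity]
  have hN6 : 6 ≤ N := by linarith [show (6:ℝ) < 10^20 by norm_num]
  have hN1 : 1 ≤ N^2 := by nlinarith
  have b1 := term_bound N (1/1) (P1 N) (10^33) hN0 (by norm_num) (by norm_num) hN6 (by norm_num)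
    (by unfold P1; rw [abs_le]; constructor <;> nlinarith)
  have b2 := term_bound N (3/1) (P2 N) (10^33) hN0 (by norm_num) (by norm_num) hN6 (by norm_num)
    (by unfold P2; rw [abs_le]; constructor <;> nlinarith)
  have b3 := term_bound N (19/7) 61985414793194558715462071380176 (10^33) hN0 (by norm_num) (by norm_num) hN6
    (by norm_num) (by rw [abs_le]; constructor <;> nlinarith)
  have b4 := term_bound N (29/12) 65929432570692054807691074207744 (10^33) hN0 (by norm_num) (by norm_num) hN6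
    (by norm_num) (by rw [abs_le]; constructor <;> nlinarith)
  have b5 := term_bound N (157/95) 117687765819490592030535888671875 (10^33) hN0 (by norm_num) (by norm_num) hN6
    (by norm_num) (by rw [abs_le]; constructor <;> nlinarith)
  have k := key_identity N hN0
  have hy : 0 < N⁻¹ := inv_pos.mpr hN0
  have hy13 : 0 < (N⁻¹)^13 := by positivity
  have hy2 : (N⁻¹)^15 ≤ (1/10^40) * (N⁻¹)^13 := by
    have h1 : N⁻¹ ≤ 1/10^20 := by
      rw [inv_le_comm₀ hN0 (by positivity)]; simpa using hN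
    have h2 : (N⁻¹)^2 ≤ 1/10^40 := by
      calc (N⁻¹)^2 ≤ (1/10^20)^2 := pow_le_pow_left₀ hy.le h1 2
        _ = 1/10^40 := by norm_num
    calc (N⁻¹)^15 = (N⁻¹)^2 * (N⁻¹)^13 := by ring
      _ ≤ (1/10^40) * (N⁻¹)^13 := by gcongr
  have hy15 : 0 < (N⁻¹)^15 := by positivity
  rw [abs_le] at b1 b2 b3 b4 b5
  set L1 := Real.log (1 + (1/1 : ℝ) * N⁻¹) - Real.log (1 - (1/1 : ℝ) * N⁻¹) with hL1
  set L2 := Real.log (1 + (3/1 : ℝ) * N⁻¹) - Real.log (1 - (3/1 : ℝ) * N⁻¹) with hL2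
  set L3 := Real.log (1 + (19/7 : ℝ) * N⁻¹) - Real.log (1 - (19/7 : ℝ) * N⁻¹) with hL3
  set L4 := Real.log (1 + (29/12 : ℝ) * N⁻¹) - Real.log (1 - (29/12 : ℝ) * N⁻¹) with hL4
  set L5 := Real.log (1 + (157/95 : ℝ) * N⁻¹) - Real.log (1 - (157/95 : ℝ) * N⁻¹) with hL5
  have hLam : Lam N = P1 N * L1 + P2 N * L2 + 61985414793194558715462071380176 * L3
      + 65929432570692054807691074207744 * L4 + 117687765819490592030535888671875 * L5 := by
    unfold Lam; rfl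
  rw [hLam]
  obtain ⟨b1a, b1b⟩ := b1
  obtain ⟨b2a, b2b⟩ := b2
  obtain ⟨b3a, b3b⟩ := b3
  obtain ⟨b4a, b4b⟩ := b4
  obtain ⟨b5a, b5b⟩ := b5
  constructor
  · linarith
  · linarith


/-- The integer coefficient polynomials at `N`. -/
def bv (N : ℤ) : Fin 5 → ℤ :=
  ![45479491467540058023851830360000 - 98383720254515771871355848288000 * N^2,
    -276635394991683276311392154963955 + 32794573418171923957118616096000 * N^2,
    61985414793194558715462071380176,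
    65929432570692054807691074207744,
    117687765819490592030535888671875]

/-- The rational numbers at `N`. -/
def av (N : ℤ) : Fin 5 → ℚ :=
  ![((1*N+1 : ℤ) : ℚ) / ((1*N-1 : ℤ) : ℚ),
    ((1*N+3 : ℤ) : ℚ) / ((1*N-3 : ℤ) : ℚ),
    ((7*N+19 : ℤ) : ℚ) / ((7*N-19 : ℤ) : ℚ),
    ((12*N+29 : ℤ) : ℚ) / ((12*N-29 : ℤ) : ℚ),
    ((95*N+157 : ℤ) : ℚ) / ((95*N-157 : ℤ) : ℚ)]

lemma sum_eq (N : ℤ) (hN : 10 ≤ N) :
    (∑ j, (bv N j : ℝ) * Real.log (av N j : ℝ)) = Lam (N : ℝ) := by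
  have h1 := (ratio_props N 1 1 (by norm_num) (by norm_num) (by omega) (by omega)).2.2
  have h2 := (ratio_props N 3 1 (by norm_num) (by norm_num) (by omega) (by omega)).2.2
  have h3 := (ratio_props N 19 7 (by norm_num) (by norm_num) (by omega) (by omega)).2.2
  have h4 := (ratio_props N 29 12 (by norm_num) (by norm_num) (by omega) (by omega)).2.2
  have h5 := (ratio_props N 157 95 (by norm_num) (by norm_num) (by omega) (by omega)).2.2
  rw [Fin.sum_univ_five]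
  have a0 : av N 0 = ((1*N+1 : ℤ) : ℚ) / ((1*N-1 : ℤ) : ℚ) := rfl
  have a1 : av N 1 = ((1*N+3 : ℤ) : ℚ) / ((1*N-3 : ℤ) : ℚ) := rfl
  have a2 : av N 2 = ((7*N+19 : ℤ) : ℚ) / ((7*N-19 : ℤ) : ℚ) := rfl
  have a3 : av N 3 = ((12*N+29 : ℤ) : ℚ) / ((12*N-29 : ℤ) : ℚ) := rfl
  have a4 : av N 4 = ((95*N+157 : ℤ) : ℚ) / ((95*N-157 : ℤ) : ℚ) := rfl
  have b0 : bv N 0 = 45479491467540058023851830360000 - 98383720254515771871355848288000 * N^2 := rfl
  have b1 : bv N 1 = -276635394991683276311392154963955 + 32794573418171923957118616096000 * N^2 := rfl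
  have b2 : bv N 2 = 61985414793194558715462071380176 := rfl
  have b3 : bv N 3 = 65929432570692054807691074207744 := rfl
  have b4 : bv N 4 = 117687765819490592030535888671875 := rfl
  rw [a0, a1, a2, a3, a4, b0, b1, b2, b3, b4, h1, h2, h3, h4, h5]
  unfold Lam P1 P2
  push_cast
  ring


lemma av_pos (N : ℤ) (hN : 10 ≤ N) : ∀ j, 0 < av N j := by
  have h1 := (ratio_props N 1 1 (by norm_num) (by norm_num) (by omega) (by omega)).1
  have h2 := (ratio_props N 3 1 (by norm_num) (by norm_num) (by omega) (by omega)).1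
  have h3 := (ratio_props N 19 7 (by norm_num) (by norm_num) (by omega) (by omega)).1
  have h4 := (ratio_props N 29 12 (by norm_num) (by norm_num) (by omega) (by omega)).1
  have h5 := (ratio_props N 157 95 (by norm_num) (by norm_num) (by omega) (by omega)).1
  intro j
  fin_cases j
  · exact h1
  · exact h2
  · exact h3
  · exact h4
  · exact h5

lemma av_height (N : ℤ) (hN : 10 ≤ N) :
    ∀ j, ((max (av N j).num.natAbs (av N j).den : ℕ) : ℝ) ≤ 300 * (N : ℝ) := by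
  have h1 := (ratio_props N 1 1 (by norm_num) (by norm_num) (by omega) (by omega)).2.1
  have h2 := (ratio_props N 3 1 (by norm_num) (by norm_num) (by omega) (by omega)).2.1
  have h3 := (ratio_props N 19 7 (by norm_num) (by norm_num) (by omega) (by omega)).2.1
  have h4 := (ratio_props N 29 12 (by norm_num) (by norm_num) (by omega) (by omega)).2.1
  have h5 := (ratio_props N 157 95 (by norm_num) (by norm_num) (by omega) (by omega)).2.1
  have key : ∀ j, ((max (av N j).num.natAbs (av N j).den : ℕ) : ℤ) ≤ 300 * N := by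
    intro j
    fin_cases j
    · refine le_trans (Int.ofNat_le.mpr h1) ?_
      omega
    · refine le_trans (Int.ofNat_le.mpr h2) ?_
      omega
    · refine le_trans (Int.ofNat_le.mpr h3) ?_
      omega
    · refine le_trans (Int.ofNat_le.mpr h4) ?_
      omega
    · refine le_trans (Int.ofNat_le.mpr h5) ?_
      omega
  intro j
  calc ((max (av N j).num.natAbs (av N j).den : ℕ) : ℝ)
      = (((max (av N j).num.natAbs (av N j).den : ℕ) : ℤ) : ℝ) := (Int.cast_natCast _).symm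
    _ ≤ ((300 * N : ℤ) : ℝ) := Int.cast_le.mpr (key j)
    _ = 300 * (N : ℝ) := by push_cast; ring

lemma cast_helper (x : ℕ) (K t : ℤ) (h : (x:ℤ) ≤ K * t) : (x:ℝ) ≤ (K:ℝ) * (t:ℝ) := by
  exact_mod_cast h

lemma bv_bound (N : ℤ) (hN : 10 ≤ N) :
    ∀ j, ((max (bv N j).natAbs 1 : ℕ) : ℝ) ≤ 10^33 * ![(N:ℝ)^2, (N:ℝ)^2, 1, 1, 1] j := by
  have hN2 : 100 ≤ N^2 := by nlinarith
  have b0 : bv N 0 = 45479491467540058023851830360000 - 98383720254515771871355848288000 * N^2 := rfl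
  have b1 : bv N 1 = -276635394991683276311392154963955 + 32794573418171923957118616096000 * N^2 := rfl
  have b2 : bv N 2 = 61985414793194558715462071380176 := rfl
  have b3 : bv N 3 = 65929432570692054807691074207744 := rfl
  have b4 : bv N 4 = 117687765819490592030535888671875 := rfl
  have c0 : ((max (bv N 0).natAbs 1 : ℕ) : ℤ) ≤ 10^33 * N^2 := by
    rw [b0]
    generalize N^2 = t at *
    omega
  have c1 : ((max (bv N 1).natAbs 1 : ℕ) : ℤ) ≤ 10^33 * N^2 := by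
    rw [b1]
    generalize N^2 = t at *
    omega
  have c2 : ((max (bv N 2).natAbs 1 : ℕ) : ℤ) ≤ 10^33 * 1 := by
    rw [b2]; norm_num
  have c3 : ((max (bv N 3).natAbs 1 : ℕ) : ℤ) ≤ 10^33 * 1 := by
    rw [b3]; norm_num
  have c4 : ((max (bv N 4).natAbs 1 : ℕ) : ℤ) ≤ 10^33 * 1 := by
    rw [b4]; norm_num
  intro j
  fin_cases j
  · calc ((max (bv N 0).natAbs 1 : ℕ) : ℝ) ≤ (((10:ℤ)^33 : ℤ) : ℝ) * ((N^2 : ℤ) : ℝ) :=
          cast_helper _ _ _ c0
      _ = 10^33 * (N:ℝ)^2 := by push_cast; ring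
  · calc ((max (bv N 1).natAbs 1 : ℕ) : ℝ) ≤ (((10:ℤ)^33 : ℤ) : ℝ) * ((N^2 : ℤ) : ℝ) :=
          cast_helper _ _ _ c1
      _ = 10^33 * (N:ℝ)^2 := by push_cast; ring
  · calc ((max (bv N 2).natAbs 1 : ℕ) : ℝ) ≤ (((10:ℤ)^33 : ℤ) : ℝ) * ((1 : ℤ) : ℝ) :=
          cast_helper _ _ _ c2
      _ = 10^33 * (1:ℝ) := by push_cast; ring
  · calc ((max (bv N 3).natAbs 1 : ℕ) : ℝ) ≤ (((10:ℤ)^33 : ℤ) : ℝ) * ((1 : ℤ) : ℝ) :=
          cast_helper _ _ _ c3
      _ = 10^33 * (1:ℝ) := by push_cast; ring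
  · calc ((max (bv N 4).natAbs 1 : ℕ) : ℝ) ≤ (((10:ℤ)^33 : ℤ) : ℝ) * ((1 : ℤ) : ℝ) :=
          cast_helper _ _ _ c4
      _ = 10^33 * (1:ℝ) := by push_cast; ring

lemma sup_bound (N : ℤ) (hN : 10 ≤ N) :
    (N:ℝ)^2 ≤ (((Finset.univ.sup fun j => max (bv N j).natAbs 1) : ℕ) : ℝ) := by
  have hN2 : 100 ≤ N^2 := by nlinarith
  have b1 : bv N 1 = -276635394991683276311392154963955 + 32794573418171923957118616096000 * N^2 := rfl
  have h := Finset.le_sup (f := fun j => max (bv N j).natAbs 1) (Finset.mem_univ (1 : Fin 5))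
  have c1 : N^2 ≤ ((max (bv N 1).natAbs 1 : ℕ) : ℤ) := by
    rw [b1]
    generalize N^2 = t at *
    omega
  have c2 : N^2 ≤ (((Finset.univ.sup fun j => max (bv N j).natAbs 1) : ℕ) : ℤ) :=
    le_trans c1 (Int.ofNat_le.mpr h)
  exact_mod_cast c2

/-- The negation of the preceding statement: For each ε>0 there is C>0 such that for all n, positive rationals a_j, integers b_j with Λ=Σ b_j log a_j ≠ 0: ∣Λ∣ > C^n·B/(ΠB_j·ΠA_j²)^(1+ε), where B_j=max(∣b_j∣,1), B=max B_j, A_j=max(num, den) of a_j. -/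
theorem result :
    ¬ (∀ ε : ℝ, 0 < ε → ∃ C : ℝ, 0 < C ∧
      ∀ (n : ℕ) (a : Fin n → ℚ) (b : Fin n → ℤ),
        (∀ j, 0 < a j) →
        (∑ j, (b j : ℝ) * Real.log (a j : ℝ)) ≠ 0 →
        C ^ n * (((Finset.univ.sup fun j => max (b j).natAbs 1) : ℕ) : ℝ) /
            ((∏ j, (((max (b j).natAbs 1 : ℕ)) : ℝ)) *
              ∏ j, (((max (a j).num.natAbs (a j).den : ℕ)) : ℝ) ^ 2) ^ (1 + ε)
          < |∑ j, (b j : ℝ) * Real.log (a j : ℝ)|) := by
  intro H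
  obtain ⟨C, hC, H⟩ := H (1/30) (by norm_num)
  obtain ⟨M, hM⟩ := exists_nat_ge (max (10^200 : ℝ) (10^250 / C^5))
  have hM1 : (10:ℝ)^200 ≤ (M:ℝ) := le_trans (le_max_left _ _) hM
  have hM2 : (10:ℝ)^250 / C^5 ≤ (M:ℝ) := le_trans (le_max_right _ _) hM
  have hM0 : (0:ℝ) < (M:ℝ) := lt_of_lt_of_le (by positivity) hM1
  have hM3 : (10:ℝ)^250 ≤ C^5 * M := by
    rw [div_le_iff₀ (by positivity)] at hM2
    linarith
  set N : ℤ := (M:ℤ)^2 with hNdef
  have hNR : (N:ℝ) = (M:ℝ)^2 := by rw [hNdef]; push_cast; ring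
  have hNbig : (10:ℝ)^20 ≤ (N:ℝ) := by
    rw [hNR]
    calc (10:ℝ)^20 ≤ (10^200)^2 := by norm_num
      _ ≤ (M:ℝ)^2 := pow_le_pow_left₀ (by positivity) hM1 2
  have hN10 : 10 ≤ N := by
    have : (10:ℝ) ≤ (N:ℝ) := le_trans (by norm_num) hNbig
    exact_mod_cast this
  have hN0 : (0:ℝ) < (N:ℝ) := by linarith [show (0:ℝ) < 10^20 by positivity]
  obtain ⟨L1, L2⟩ := Lam_bounds (N:ℝ) hNbig
  have hsum := sum_eq N hN10
  have h := H 5 (av N) (bv N) (av_pos N hN10) (by rw [hsum]; exact ne_of_gt L1)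
  rw [hsum, abs_of_pos L1] at h
  -- the product
  have hB : (∏ j, (((max (bv N j).natAbs 1 : ℕ)) : ℝ)) ≤ 10^165 * (N:ℝ)^4 := by
    calc (∏ j, (((max (bv N j).natAbs 1 : ℕ)) : ℝ))
        ≤ ∏ j, (10^33 * ![(N:ℝ)^2, (N:ℝ)^2, 1, 1, 1] j) :=
          Finset.prod_le_prod (fun _ _ => Nat.cast_nonneg _) (fun j _ => bv_bound N hN10 j)
      _ = 10^165 * (N:ℝ)^4 := by
          rw [Fin.prod_univ_five]
          have e0 : (![(N:ℝ)^2, (N:ℝ)^2, 1, 1, 1] : Fin 5 → ℝ) 0 = (N:ℝ)^2 := rfl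
          have e1 : (![(N:ℝ)^2, (N:ℝ)^2, 1, 1, 1] : Fin 5 → ℝ) 1 = (N:ℝ)^2 := rfl
          have e2 : (![(N:ℝ)^2, (N:ℝ)^2, 1, 1, 1] : Fin 5 → ℝ) 2 = 1 := rfl
          have e3 : (![(N:ℝ)^2, (N:ℝ)^2, 1, 1, 1] : Fin 5 → ℝ) 3 = 1 := rfl
          have e4 : (![(N:ℝ)^2, (N:ℝ)^2, 1, 1, 1] : Fin 5 → ℝ) 4 = 1 := rfl
          rw [e0, e1, e2, e3, e4]
          ring
  have hA : (∏ j, (((max (av N j).num.natAbs (av N j).den : ℕ)) : ℝ) ^ 2) ≤ 10^25 * (N:ℝ)^10 := by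
    calc (∏ j, (((max (av N j).num.natAbs (av N j).den : ℕ)) : ℝ) ^ 2)
        ≤ ∏ _j : Fin 5, (300 * (N:ℝ))^2 :=
          Finset.prod_le_prod (fun _ _ => by positivity)
            (fun j _ => pow_le_pow_left₀ (Nat.cast_nonneg _) (av_height N hN10 j) 2)
      _ = 300^10 * (N:ℝ)^10 := by
          rw [Finset.prod_const, Finset.card_univ, Fintype.card_fin]; ring
      _ ≤ 10^25 * (N:ℝ)^10 := by
          gcongr; norm_num
  have hBpos : 0 < (∏ j, (((max (bv N j).natAbs 1 : ℕ)) : ℝ)) := by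
    apply Finset.prod_pos
    intro j _
    have : 1 ≤ max (bv N j).natAbs 1 := le_max_right _ _
    exact_mod_cast this
  have hApos : 0 < (∏ j, (((max (av N j).num.natAbs (av N j).den : ℕ)) : ℝ) ^ 2) := by
    apply Finset.prod_pos
    intro j _
    have h1 : 1 ≤ max (av N j).num.natAbs (av N j).den := le_trans (av N j).pos (le_max_right _ _)
    have h2 : (1:ℝ) ≤ ((max (av N j).num.natAbs (av N j).den : ℕ) : ℝ) := by exact_mod_cast h1
    positivity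
  set PB := (∏ j, (((max (bv N j).natAbs 1 : ℕ)) : ℝ)) with hPB
  set PA := (∏ j, (((max (av N j).num.natAbs (av N j).den : ℕ)) : ℝ) ^ 2) with hPA
  have hX0 : 0 < PB * PA := mul_pos hBpos hApos
  have hX : PB * PA ≤ 10^190 * (M:ℝ)^28 := by
    calc PB * PA ≤ (10^165 * (N:ℝ)^4) * (10^25 * (N:ℝ)^10) := by
          apply mul_le_mul hB hA hApos.le (by positivity)
      _ = 10^190 * (M:ℝ)^28 := by rw [hNR]; ring
  have hX2 : PB * PA ≤ (M:ℝ)^30 := by
    calc PB * PA ≤ 10^190 * (M:ℝ)^28 := hX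
      _ ≤ (M:ℝ)^2 * (M:ℝ)^28 := by
          gcongr
          calc (10:ℝ)^190 ≤ (10^200)^2 := by norm_num
            _ ≤ (M:ℝ)^2 := pow_le_pow_left₀ (by positivity) hM1 2
      _ = (M:ℝ)^30 := by ring
  have hroot : (PB * PA) ^ (1/30 : ℝ) ≤ (M:ℝ) := by
    calc (PB * PA) ^ (1/30 : ℝ) ≤ ((M:ℝ)^30) ^ (1/30 : ℝ) :=
          Real.rpow_le_rpow hX0.le hX2 (by norm_num)
      _ = (M:ℝ) := by
          rw [← Real.rpow_natCast, ← Real.rpow_mul hM0.le]
          norm_num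
  have hpow : (PB * PA) ^ (1 + 1/30 : ℝ) ≤ 10^190 * (M:ℝ)^29 := by
    rw [Real.rpow_add hX0, Real.rpow_one]
    calc PB * PA * (PB * PA) ^ (1/30 : ℝ) ≤ (10^190 * (M:ℝ)^28) * (M:ℝ) :=
          mul_le_mul hX hroot (Real.rpow_nonneg hX0.le _) (by positivity)
      _ = 10^190 * (M:ℝ)^29 := by ring
  have hpow0 : 0 < (PB * PA) ^ (1 + 1/30 : ℝ) := Real.rpow_pos_of_pos hX0 _
  have hsup := sup_bound N hN10
  have hfin : C^5 * (N:ℝ)^2 < (10^36 * ((N:ℝ)⁻¹)^13) * (10^190 * (M:ℝ)^29) := by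
    calc C^5 * (N:ℝ)^2 ≤ C^5 * (((Finset.univ.sup fun j => max (bv N j).natAbs 1) : ℕ) : ℝ) := by
          gcongr
      _ < Lam (N:ℝ) * (PB * PA) ^ (1 + 1/30 : ℝ) := by
          rwa [div_lt_iff₀ hpow0] at h
      _ ≤ (10^36 * ((N:ℝ)⁻¹)^13) * (10^190 * (M:ℝ)^29) :=
          mul_le_mul L2 hpow hpow0.le (by positivity)
  rw [hNR] at hfin
  have e : (10^36 * (((M:ℝ)^2)⁻¹)^13) * (10^190 * (M:ℝ)^29) = 10^226 * (M:ℝ)^3 := by
    field_simp
  rw [e] at hfin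
  have hM4 : 0 < (M:ℝ)^3 := by positivity
  have hfin2 : C^5 * (M:ℝ) * (M:ℝ)^3 < 10^226 * (M:ℝ)^3 := by
    calc C^5 * (M:ℝ) * (M:ℝ)^3 = C^5 * ((M:ℝ)^2)^2 := by ring
      _ < 10^226 * (M:ℝ)^3 := hfin
  have hfin3 : C^5 * (M:ℝ) < 10^226 := lt_of_mul_lt_mul_right hfin2 hM4.le
  have : (10:ℝ)^250 < 10^226 := lt_of_le_of_lt hM3 hfin3
  norm_num at this

end Pool.Agent.S17760
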