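import Pool.Statements.S18977
import Pool.Agent.Work.MP_f473e4_nt.Final

set_option autoImplicit false
open Pool Pool.MP_f473e4_nt

namespace Pool.Agent.S18977

/-- For every m there exist k and a positive integer n such that the m consecutive integers n, n+1, ..., n+m-1 all have exactly k divisors; that is, the maximal run length M(k) is unbounded in k. -/
theorem result :
    ∀ m : ℕ, ∃ k : ℕ, ∃ n : ℕ, 0 < n ∧ ∀ i : ℕ, i < m → (Nat.divisors (n + i)).card = k := by
  intro m
  obtain ⟨n, k, hn, h⟩ := Pool.Agent.Work.MP_f473e4_nt.final_run (max m 2) (le_max_right _ _)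
  exact ⟨k, n, hn, fun i hi => h i (lt_of_lt_of_le hi (le_max_left _ _))⟩

end Pool.Agent.S18977
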